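import Pool.Agent.H.WeylRot.RD

/-! Module RB: the function field of `c * f(0) * disc (f) = y ^ 2` is purely transcendental. -/

open Polynomial

namespace WeylRot

open AnWA DiscRat NoetherAn

/-- the generators -/
noncomputable def bgen {L : Type*} [Field L] {n : ℕ} (x : Fin n → L) (w : L) : Fin n → L :=
  fun i => if (i : ℕ) = 0 then w
    else if (i : ℕ) < n / 2 + n % 2 then (am x).charpoly.coeff (2 * (i : ℕ) - n % 2)
    else tm x (2 * ((i : ℕ) - n / 2 - n % 2))

section Gens

variable {k Ω : Type*} [Field k] [Field Ω] [Algebra k Ω] {n : ℕ}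

theorem RB_mem (x : Fin n → Ω) (w : Ω) (i : Fin n) :
    bgen x w i ∈ IntermediateField.adjoin k (Set.range (bgen x w)) :=
  IntermediateField.subset_adjoin _ _ (Set.mem_range_self _)

theorem RB_w_mem (hn : 1 ≤ n) (x : Fin n → Ω) (w : Ω) :
    w ∈ IntermediateField.adjoin k (Set.range (bgen x w)) := by
  have h : bgen x w ⟨0, by omega⟩ = w := by simp [bgen]
  have h2 := RB_mem (k := k) x w ⟨0, by omega⟩
  rwa [h] at h2

/-- all coefficients of the characteristic polynomial -/
theorem RB_charpoly_mem [CharZero Ω] (x : Fin n → Ω) (w : Ω)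
    (hdl : dl x ∈ IntermediateField.adjoin k (Set.range (bgen x w))) (j : ℕ) :
    (am x).charpoly.coeff j ∈ IntermediateField.adjoin k (Set.range (bgen x w)) := by
  set K1 := IntermediateField.adjoin k (Set.range (bgen x w)) with hK1
  have hdeg : (am x).charpoly.natDegree = n := by
    rw [Matrix.charpoly_natDegree_eq_dim]; simp
  rcases lt_trichotomy j n with hj | hj | hj
  · by_cases hodd : Odd (n + j)
    · rw [am_charpoly_coeff_odd _ hodd]; exact K1.zero_mem
    · rw [Nat.not_odd_iff_even] at hodd
      have hmod : j % 2 = n % 2 := by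
        have := Nat.even_iff.1 hodd
        omega
      rcases Nat.eq_zero_or_pos j with h0 | h0
      · have hn2 : n % 2 = 0 := by omega
        rw [dl, if_pos hn2] at hdl
        rw [h0]
        exact hdl
      · have hg : bgen x w ⟨(j + n % 2) / 2, by omega⟩ = (am x).charpoly.coeff j := by
          simp only [bgen]
          rw [if_neg (by omega), if_pos (by omega)]
          congr 1
          omega
        rw [← hg]
        exact RB_mem x w _
  · rw [hj, RD_coeff_n]
    exact K1.one_mem
  · rw [Polynomial.coeff_eq_zero_of_natDegree_lt (by rw [hdeg]; exact hj)]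
    exact K1.zero_mem

theorem RB_tm_mem [CharZero Ω] (hn : 1 ≤ n) (x : Fin n → Ω) (w : Ω)
    (hdl : dl x ∈ IntermediateField.adjoin k (Set.range (bgen x w))) (l : ℕ)
    (hl : 2 * l < n) :
    tm x (2 * l) ∈ IntermediateField.adjoin k (Set.range (bgen x w)) := by
  set K1 := IntermediateField.adjoin k (Set.range (bgen x w)) with hK1
  have hgen : ∀ l, l < n / 2 → tm x (2 * l) ∈ K1 := by
    intro l hl
    have hg : bgen x w ⟨n / 2 + n % 2 + l, by omega⟩ = tm x (2 * l) := by
      simp only [bgen]
      rw [if_neg (by omega), if_neg (by omega)]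
      congr 2
      omega
    rw [← hg]
    exact RB_mem x w _
  rcases lt_or_ge l (n / 2) with hlt | hge
  · exact hgen l hlt
  · have hn2 : n % 2 ≠ 0 := by omega
    have hl2 : l = n / 2 := by omega
    have h1 := hdl
    rw [dl, if_neg hn2, Finset.sum_range_succ] at h1
    have h2 : 2 * (n / 2) + 1 = n := by omega
    rw [h2, RD_coeff_n, one_mul] at h1
    have h3 : ∑ i ∈ Finset.range (n / 2), (am x).charpoly.coeff (2 * i + 1) * tm x (2 * i) ∈ K1 :=
      sum_mem fun i hi => K1.mul_mem (RB_charpoly_mem x w hdl _)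
        (hgen i (Finset.mem_range.1 hi))
    rw [hl2]
    have h4 := K1.sub_mem h1 h3
    rwa [add_sub_cancel_left] at h4

/-- all coefficients of `∏ (X - x i)` lie in the field of the generators -/
theorem RB_coeff_mem [CharZero Ω] (hn : 1 ≤ n) {x : Fin n → Ω} (hx : Function.Injective x)
    (hkrb : (krb x).det ≠ 0) (w : Ω)
    (hdl : dl x ∈ IntermediateField.adjoin k (Set.range (bgen x w))) (j : ℕ) :
    (∏ i, (X - C (x i))).coeff j ∈ IntermediateField.adjoin k (Set.range (bgen x w)) :=
  coeff_prod_mem_b hx hkrb (IntermediateField.adjoin k (Set.range (bgen x w))).toSubfield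
    (fun j => RB_charpoly_mem x w hdl j)
    (fun l hl => RB_tm_mem hn x w hdl l hl) j

end Gens

/-- the statement inside an algebraic closure -/
theorem RB_core {k Ω : Type*} [Field k] [CharZero k] [Field Ω] [Algebra k Ω] [CharZero Ω]
    [IsAlgClosed Ω] {n : ℕ} (hn : 1 ≤ n) {c : k} (hc : c ≠ 0) {a : Fin n → Ω}
    {y : Ω} (ha : AlgebraicIndependent k a)
    (hy : algebraMap k Ω c * ((monicPoly a).eval 0 * (monicPoly a).discr) = y ^ 2)
    [Algebra.IsAlgebraic (IntermediateField.adjoin k (Set.range (pt a y))) Ω] :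
    ∃ t : Fin n → Ω, AlgebraicIndependent k t ∧
      IntermediateField.adjoin k (Set.range t)
        = IntermediateField.adjoin k (Set.range (pt a y)) := by
  obtain ⟨x, hax⟩ := VRat_roots (VRat_monic a).1 (VRat_monic a).2
  have hai : ∀ i, a i = (rootPoly x).coeff i := fun i => by
    rw [← hax, VRat_monicPoly_coeff]
  -- `x` is algebraically independent
  have hxi : AlgebraicIndependent k x := by
    refine algInd_of ha fun i => ?_
    have h1 : a i ∈ IntermediateField.adjoin k (Set.range x) := by
      rw [hai i]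
      exact VRat_coeff_rootPoly x (IntermediateField.adjoin k (Set.range x)).toSubfield
        (fun i => IntermediateField.subset_adjoin _ _ (Set.mem_range_self i)) i
    exact isAlgebraic_algebraMap (⟨a i, h1⟩ : IntermediateField.adjoin k (Set.range x))
  obtain ⟨hinj, hkrb, hkrs, hhkb, hhks⟩ := krb_ne_zero_of_algInd hxi
  set V := (Matrix.vandermonde x).det with hV
  have hV0 : V ≠ 0 := Matrix.det_vandermonde_ne_zero_iff.2 hinj
  have hdisc : (monicPoly a).discr = V ^ 2 := by rw [hax, discr_rootPoly]
  have hprod : (monicPoly a).eval 0 = (-1) ^ n * ∏ i, x i := by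
    rw [hax, rootPoly, eval_prod]
    simp only [eval_sub, eval_X, eval_C, zero_sub]
    rw [Finset.prod_neg, Finset.card_univ, Fintype.card_fin]
  have hx0 : ∏ i, x i ≠ 0 := Finset.prod_ne_zero_iff.2 fun i _ => hxi.ne_zero i
  have hc' : algebraMap k Ω c ≠ 0 := by
    rw [Ne, map_eq_zero]; exact hc
  have hsgn : ((-1 : Ω)) ^ n ≠ 0 := pow_ne_zero _ (neg_ne_zero.2 one_ne_zero)
  rw [hdisc, hprod] at hy
  have hy0 : y ≠ 0 := by
    rintro rfl
    have : algebraMap k Ω c * ((-1) ^ n * (∏ i, x i) * V ^ 2) ≠ 0 :=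
      mul_ne_zero hc' (mul_ne_zero (mul_ne_zero hsgn hx0) (pow_ne_zero _ hV0))
    exact this (by rw [hy]; simp)
  set F' := IntermediateField.adjoin k (Set.range (pt a y)) with hF'
  set θ₁ : Ω := V * hkb x / (krb x).det with hθ₁
  have hθ₁0 : θ₁ ≠ 0 := div_ne_zero (mul_ne_zero hV0 hhkb) hkrb
  set w : Ω := y / θ₁ with hw
  set K1 := IntermediateField.adjoin k (Set.range (bgen x w)) with hK1
  have hwK : w ∈ K1 := RB_w_mem hn x w
  -- the special element
  have hdl : dl x ∈ K1 := by
    have h1 : algebraMap k Ω c * ((-1) ^ n * dl x) = w ^ 2 := by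
      have h2 := krb_det_sq x
      rw [hw, hθ₁, div_pow, ← hy]
      have h3 : dl x = (∏ i, x i) * (krb x).det ^ 2 / hkb x ^ 2 := by
        rw [h2]; field_simp
      rw [h3]
      field_simp
    have h4 : dl x = algebraMap k Ω c⁻¹ * ((-1) ^ n * w ^ 2) := by
      rw [← h1, map_inv₀]
      have h6 : ((-1 : Ω)) ^ n * (-1) ^ n = 1 := by rw [← mul_pow]; simp
      field_simp
      linear_combination (- dl x) * h6
    rw [h4]
    exact K1.mul_mem (K1.algebraMap_mem _)
      (K1.mul_mem (pow_mem (K1.neg_mem K1.one_mem) _) (pow_mem hwK 2))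
  have hcoK : ∀ j, (∏ i, (X - C (x i))).coeff j ∈ K1 := RB_coeff_mem hn hinj hkrb w hdl
  have haK : ∀ i, a i ∈ K1 := fun i => by
    rw [hai i]; exact hcoK i
  -- `Ω` is algebraic over `K1`
  have hysq : y ^ 2 ∈ K1 := by
    rw [← hy, ← hprod, ← hdisc]
    refine K1.mul_mem (K1.algebraMap_mem _) (K1.mul_mem ?_ ?_)
    · rw [← Polynomial.coeff_zero_eq_eval_zero, hax]
      exact hcoK 0
    · have h2 := discr_monicPoly_map (algebraMap K1 Ω) (fun i => (⟨a i, haK i⟩ : K1))
      have h3 : (fun i => algebraMap K1 Ω (⟨a i, haK i⟩ : K1)) = a := rfl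
      rw [h3] at h2
      rw [h2]
      exact SetLike.coe_mem _
  have halg : Algebra.IsAlgebraic K1 Ω := by
    refine VRat_alg_trans K1 F' ?_
    intro u hu
    have hle : F' ≤ (algebraicClosure K1 Ω).restrictScalars k := by
      rw [hF', IntermediateField.adjoin_le_iff]
      rintro _ ⟨o, rfl⟩
      rw [SetLike.mem_coe, IntermediateField.mem_restrictScalars, mem_algebraicClosure_iff]
      rcases o with _ | i
      · have h1 : IsAlgebraic K1 (y ^ 2) :=
          isAlgebraic_algebraMap (⟨y ^ 2, hysq⟩ : K1)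
        exact h1.of_pow (by norm_num)
      · exact isAlgebraic_algebraMap (⟨a i, haK i⟩ : K1)
    have h1 := hle hu
    rwa [IntermediateField.mem_restrictScalars, mem_algebraicClosure_iff] at h1
  -- `y` lies in `K1`
  have hθ₁K : θ₁ ∈ K1 := by
    refine mem_of_fixed K1 _ fun τ => ?_
    obtain ⟨π, hπ⟩ := exists_perm K1 x hinj hcoK τ
    exact RD_fixed₁ (τ : Ω →+* Ω) hπ
  have hyK : y ∈ K1 := by
    have h1 : y = w * θ₁ := by
      rw [hw]
      field_simp
    rw [h1]
    exact K1.mul_mem hwK hθ₁K
  -- the generators lie in `F'`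
  have haF : ∀ i, a i ∈ F' := fun i =>
    IntermediateField.subset_adjoin _ _ ⟨some i, rfl⟩
  have hyF : y ∈ F' := IntermediateField.subset_adjoin _ _ ⟨none, rfl⟩
  have hcoF : ∀ j, (∏ i, (X - C (x i))).coeff j ∈ F' := fun j => by
    have h1 : (∏ i, (X - C (x i))) = monicPoly a := hax.symm
    rw [h1]
    exact VRat_coeff_monicPoly a F'.toSubfield haF j
  have htF : ∀ i, bgen x w i ∈ F' := by
    intro i
    unfold bgen
    split_ifs with h1 h2
    · have h3 : θ₁ ∈ F' := by
        refine mem_of_fixed F' _ fun τ => ?_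
        obtain ⟨π, hπ⟩ := exists_perm F' x hinj hcoF τ
        exact RD_fixed₁ (τ : Ω →+* Ω) hπ
      exact F'.div_mem hyF h3
    · refine mem_of_fixed F' _ fun τ => ?_
      obtain ⟨π, hπ⟩ := exists_perm F' x hinj hcoF τ
      have h3 := am_charpoly_map (τ : Ω →+* Ω) x
      rw [hπ, am_charpoly_comp] at h3
      conv_rhs => rw [h3, coeff_map]
      rfl
    · refine mem_of_fixed F' _ fun τ => ?_
      obtain ⟨π, hπ⟩ := exists_perm F' x hinj hcoF τ
      have h3 := tm_map (τ : Ω →+* Ω) x (2 * ((i : ℕ) - n / 2 - n % 2))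
      rw [hπ, tm_comp] at h3
      exact h3.symm
  have heq : K1 = F' := by
    apply le_antisymm
    · rw [hK1, IntermediateField.adjoin_le_iff]
      rintro _ ⟨i, rfl⟩
      exact htF i
    · rw [hF', IntermediateField.adjoin_le_iff]
      rintro _ ⟨o, rfl⟩
      rcases o with _ | i
      · exact hyK
      · exact haK i
  refine ⟨bgen x w, ?_, heq⟩
  exact algInd_of ha fun i => isAlgebraic_algebraMap (⟨a i, haK i⟩ : K1)

/-- The function field over `k` of the variety `c * f(0) * disc (f) = y ^ 2` is purely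
transcendental. -/
theorem B_rational {k F : Type*} [Field k] [CharZero k] [Field F] [Algebra k F] {n : ℕ}
    (hn : 1 ≤ n) {c : k} (hc : c ≠ 0) {a : Fin n → F} {y : F} (hF : IsBField k c a y) :
    ∃ t : Fin n → F, AlgebraicIndependent k t ∧
      IntermediateField.adjoin k (Set.range t) = ⊤ := by
  obtain ⟨hind, heq, hgen⟩ := hF
  have hcF : CharZero F := charZero_of_injective_algebraMap (algebraMap k F).injective
  set Ω := AlgebraicClosure F with hΩ
  have hcΩ : CharZero Ω := charZero_of_injective_algebraMap (algebraMap F Ω).injective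
  set f : F →ₐ[k] Ω := IsScalarTower.toAlgHom k F Ω with hf
  have hfinj : Function.Injective f := (algebraMap F Ω).injective
  have hmap : IntermediateField.adjoin k (Set.range (pt (fun i => f (a i)) (f y)))
      = f.fieldRange := by
    have h1 : Set.range (pt (fun i => f (a i)) (f y)) = f '' Set.range (pt a y) := by
      rw [← Set.range_comp]
      congr 1
      funext o
      rcases o with _ | i <;> rfl
    rw [h1, ← IntermediateField.adjoin_map, hgen, ← AlgHom.fieldRange_eq_map]
  have halg : Algebra.IsAlgebraic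
      (IntermediateField.adjoin k (Set.range (pt (fun i => f (a i)) (f y)))) Ω := by
    rw [hmap]
    let _ : Algebra F f.fieldRange :=
      (RingHom.codRestrict (f : F →+* Ω) f.fieldRange
        (fun x => AlgHom.mem_fieldRange.2 ⟨x, rfl⟩)).toAlgebra
    have _ : IsScalarTower F f.fieldRange Ω := IsScalarTower.of_algebraMap_eq (fun x => rfl)
    exact Algebra.IsAlgebraic.tower_top (K := F) f.fieldRange
  have hind' : AlgebraicIndependent k (fun i => f (a i)) :=
    hind.map' hfinj
  have heq' : algebraMap k Ω c * ((monicPoly (fun i => f (a i))).eval 0 *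
      (monicPoly (fun i => f (a i))).discr) = (f y) ^ 2 := by
    have h1 : monicPoly (fun i => f (a i)) = (monicPoly a).map (f : F →+* Ω) :=
      monicPoly_map (f : F →+* Ω) a
    have h2 : (monicPoly (fun i => f (a i))).eval 0 = f ((monicPoly a).eval 0) := by
      rw [h1, ← Polynomial.coeff_zero_eq_eval_zero, coeff_map, Polynomial.coeff_zero_eq_eval_zero]
      rfl
    have h4 : (monicPoly (fun i => f (a i))).discr = f ((monicPoly a).discr) :=
      discr_monicPoly_map (f : F →+* Ω) a
    rw [h2, h4, ← map_pow, ← heq, map_mul, map_mul, AlgHom.commutes]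
  obtain ⟨t', ht', htF⟩ := RB_core hn hc hind' heq'
  rw [hmap] at htF
  have hex : ∀ i, ∃ s : F, f s = t' i := by
    intro i
    have h1 : t' i ∈ IntermediateField.adjoin k (Set.range t') :=
      IntermediateField.subset_adjoin _ _ (Set.mem_range_self i)
    rw [htF] at h1
    exact h1
  choose t ht using hex
  have htt : (fun i => f (t i)) = t' := funext ht
  refine ⟨t, ?_, ?_⟩
  · have h1 : AlgebraicIndependent k (f ∘ t) := by
      have : f ∘ t = t' := htt
      rw [this]; exact ht'
    exact (AlgHom.algebraicIndependent_iff f hfinj).1 h1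
  · apply IntermediateField.map_injective f
    rw [IntermediateField.adjoin_map, ← Set.range_comp, ← AlgHom.fieldRange_eq_map]
    have : f ∘ t = t' := htt
    rw [this, htF]

end WeylRot
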