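import Pool.Agent.H.WeylRot.RDefs
import Pool.Agent.H.MP_ffe2f0_al.NMain

/-! Module RComm: first identities. -/

open Polynomial Matrix

namespace WeylRot

open NoetherAn

variable {L : Type*} [Field L] {n : ℕ}

theorem am_transpose (x : Fin n → L) : (am x)ᵀ = - (diagonal x * cm x) := by
  unfold am
  rw [transpose_mul, diagonal_transpose, cm_transpose, mul_neg]

theorem am_add_transpose {x : Fin n → L} (hx : Function.Injective x) :
    am x + (am x)ᵀ = 1 - ones n L := by
  rw [am_transpose]
  unfold am ones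
  have h := commutator hx
  have h2 : cm x * diagonal x + -(diagonal x * cm x) =
      -(diagonal x * cm x - cm x * diagonal x) := by abel
  rw [h2, h, neg_sub]

theorem am_transpose_mul (x : Fin n → L) :
    (am x)ᵀ * diagonal x = - (diagonal x * am x) := by
  rw [am_transpose]
  unfold am
  rw [Matrix.neg_mul, Matrix.mul_assoc]

theorem am_transpose_pow_mul (x : Fin n → L) (j : ℕ) :
    ((am x) ^ j)ᵀ * diagonal x = (-1 : L) ^ j • (diagonal x * am x ^ j) := by
  rw [transpose_pow]
  induction j with
  | zero => simp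
  | succ j ih =>
    rw [pow_succ', Matrix.mul_assoc, ih, mul_smul_comm, ← Matrix.mul_assoc, am_transpose_mul,
      Matrix.neg_mul, Matrix.mul_assoc, ← pow_succ', pow_succ (-1 : L), mul_smul]
    simp

theorem tm_eq_sumEnt (x : Fin n → L) (a : ℕ) : tm x a = sumEnt (diagonal x * am x ^ a) := by
  unfold tm sumEnt
  refine Finset.sum_congr rfl fun i _ => ?_
  refine Finset.sum_congr rfl fun j _ => ?_
  rw [Matrix.diagonal_mul]

/-- general Gram matrix of Krylov vectors -/
theorem rcomm_gram (M D : Matrix (Fin n) (Fin n) L) (N : Matrix (Fin n) (Fin n) L)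
    (hN : ∀ i k, N i k = ∑ j, (M ^ (k : ℕ)) i j) (j k : Fin n) :
    (Nᵀ * D * N) j k = sumEnt ((M ^ (j : ℕ))ᵀ * D * M ^ (k : ℕ)) := by
  exact NMain_sum D (M ^ (j : ℕ)) (M ^ (k : ℕ)) j k N (fun i => hN i j) (fun i => hN i k)

/-- the Gram matrix of the Krylov vectors for the form `X` -/
theorem gram_tm (x : Fin n → L) (j k : Fin n) :
    ((krb x)ᵀ * diagonal x * krb x) j k = (-1) ^ (j : ℕ) * tm x ((j : ℕ) + k) := by
  rw [rcomm_gram (am x) (diagonal x) (krb x) (fun i k => rfl), am_transpose_pow_mul,
    tm_eq_sumEnt, smul_mul_assoc, Matrix.mul_assoc, ← pow_add]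
  unfold sumEnt
  simp only [Matrix.smul_apply, smul_eq_mul, Finset.mul_sum]

theorem tm_odd [CharZero L] (x : Fin n → L) {a : ℕ} (ha : Odd a) : tm x a = 0 := by
  have h1 : sumEnt (diagonal x * am x ^ a) = - sumEnt (diagonal x * am x ^ a) := by
    conv_lhs => rw [← sumEnt_transpose, transpose_mul, diagonal_transpose, am_transpose_pow_mul,
      ha.neg_one_pow, neg_one_smul, sumEnt_neg]
  rw [tm_eq_sumEnt]
  exact self_eq_neg.mp h1

/-- the Gram matrix of the Krylov vectors for the standard form -/
theorem gram_nm (x : Fin n → L) (j k : Fin n) :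
    ((krb x)ᵀ * krb x) j k = sumEnt (((am x) ^ (j : ℕ))ᵀ * am x ^ (k : ℕ)) := by
  have h := rcomm_gram (am x) 1 (krb x) (fun i k => rfl) j k
  rw [Matrix.mul_one, Matrix.mul_one] at h
  exact h

theorem nm_rec {x : Fin n → L} (hx : Function.Injective x) (j k : ℕ) :
    sumEnt (((am x) ^ (j + 1))ᵀ * am x ^ k) =
      sumEnt (((am x) ^ j)ᵀ * am x ^ k) - nm x j * nm x k
        - sumEnt (((am x) ^ j)ᵀ * am x ^ (k + 1)) := by
  have hT : (am x)ᵀ = 1 - ones n L - am x := by
    rw [← am_add_transpose hx]; abel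
  have h1 : ((am x) ^ (j + 1))ᵀ * am x ^ k =
      ((am x) ^ j)ᵀ * am x ^ k - ((am x) ^ j)ᵀ * ones n L * am x ^ k
        - ((am x) ^ j)ᵀ * am x ^ (k + 1) := by
    rw [pow_succ' (am x) j, transpose_mul, hT, pow_succ' (am x) k]
    simp only [Matrix.mul_sub, Matrix.sub_mul, Matrix.mul_one, Matrix.mul_assoc]
  rw [h1, sumEnt_sub, sumEnt_sub]
  have h2 := sumEnt_mul_ones_mul (((am x) ^ j)ᵀ) (am x ^ k)
  have h3 : sumEnt (((am x) ^ j)ᵀ * ones n L * am x ^ k) = nm x j * nm x k := by
    unfold ones nm
    rw [h2, sumEnt_transpose]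
  rw [h3]

theorem am_charpoly_coeff_odd [CharZero L] (x : Fin n → L) {j : ℕ} (hj : Odd (n + j)) :
    (am x).charpoly.coeff j = 0 := by
  have h1 := charpoly_neg_coeff (diagonal x * cm x) j
  rw [← am_transpose, Matrix.charpoly_transpose, ← mul_assoc, ← pow_add, hj.neg_one_pow,
    Matrix.charpoly_mul_comm, neg_one_mul] at h1
  exact self_eq_neg.mp h1

theorem rcomm_charpoly_one_sub (M : Matrix (Fin n) (Fin n) L) :
    (1 - M).charpoly = (-1) ^ n * M.charpoly.comp (C 1 - X) := by
  have h2 : M.charpoly.comp (C 1 - X) =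
      det ((charmatrix M).map (fun p => p.comp (C 1 - X))) := by
    have := (Polynomial.compRingHom (C 1 - X : L[X])).map_det (charmatrix M)
    rw [Polynomial.coe_compRingHom_apply] at this
    unfold Matrix.charpoly
    rw [this]
    rfl
  rw [h2]
  have h3 : charmatrix (1 - M) = - (charmatrix M).map (fun p => p.comp (C 1 - X)) := by
    ext1 i j
    rw [Matrix.neg_apply, Matrix.map_apply]
    by_cases h : i = j
    · subst h
      rw [charmatrix_apply_eq, charmatrix_apply_eq]
      simp
      ring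
    · rw [charmatrix_apply_ne _ _ _ h, charmatrix_apply_ne _ _ _ h]
      simp [Matrix.one_apply_ne h]
  unfold Matrix.charpoly
  rw [h3, Matrix.det_neg, Fintype.card_fin]

theorem am_add_ones_charpoly [CharZero L] {x : Fin n → L} (hx : Function.Injective x) :
    (am x + ones n L).charpoly = (am x).charpoly.comp (X - C 1) := by
  have h1 : am x + ones n L = (1 - am x)ᵀ := by
    rw [transpose_sub, transpose_one]
    have := am_add_transpose hx
    have h2 : (am x)ᵀ = 1 - ones n L - am x := by rw [← this]; abel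
    rw [h2]; abel
  rw [h1, Matrix.charpoly_transpose, rcomm_charpoly_one_sub]
  -- parity of the characteristic polynomial
  have h2 : (am x).charpoly.comp (C 1 - X) = (-1) ^ n * (am x).charpoly.comp (X - C 1) := by
    have h3 : (am x).charpoly.comp (-X) = (-1) ^ n * (am x).charpoly := by
      have h4 : ((-1 : L[X]) ^ n) = C ((-1) ^ n) := by simp
      have h5 : (am x).charpoly.comp (-X) = (am x).charpoly.comp (C (-1) * X) := by simp
      ext j
      rw [h5, Polynomial.comp_C_mul_X_coeff, h4, Polynomial.coeff_C_mul]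
      rcases Nat.even_or_odd (n + j) with h | h
      · have h6 : ((-1 : L)) ^ j = (-1) ^ n := by
          rw [Nat.even_add] at h
          rcases Nat.even_or_odd j with h' | h'
          · rw [h'.neg_one_pow, (h.2 h').neg_one_pow]
          · have : Odd n := by
              rw [← Nat.not_even_iff_odd] at h' ⊢
              exact fun h'' => h' (h.1 h'')
            rw [h'.neg_one_pow, this.neg_one_pow]
        rw [h6, mul_comm]
      · rw [am_charpoly_coeff_odd x h]; simp
    have h6 : (C 1 - X : L[X]) = (-X : L[X]).comp (X - C 1) := by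
      simp
    rw [h6, ← Polynomial.comp_assoc, h3]
    simp [Polynomial.mul_comp]
  rw [h2, ← mul_assoc, ← pow_add, ← two_mul, pow_mul]
  simp

theorem sk_transpose {x : Fin n → L} (hx : Function.Injective x) : (sk x)ᵀ = - sk x := by
  have h := am_add_transpose hx
  have h2 : (am x)ᵀ = 1 - ones n L - am x := by rw [← h]; abel
  have h3 : (ones n L)ᵀ = ones n L := by
    ext i j; rfl
  unfold sk
  rw [transpose_sub, transpose_add, transpose_smul, transpose_one, h3, h2]
  simp only [smul_sub, two_smul]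
  abel

theorem sm_odd [CharZero L] {x : Fin n → L} (hx : Function.Injective x) {a : ℕ} (ha : Odd a) :
    sm x a = 0 := by
  have h1 : sumEnt (sk x ^ a) = - sumEnt (sk x ^ a) := by
    conv_lhs => rw [← sumEnt_transpose, transpose_pow, sk_transpose hx, ha.neg_pow, sumEnt_neg]
  exact self_eq_neg.mp h1

theorem gram_sm {x : Fin n → L} (hx : Function.Injective x) (j k : Fin n) :
    ((krs x)ᵀ * krs x) j k = (-1) ^ (j : ℕ) * sm x ((j : ℕ) + k) := by
  have h := rcomm_gram (sk x) 1 (krs x) (fun i k => rfl) j k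
  rw [Matrix.mul_one, Matrix.mul_one] at h
  rw [h, transpose_pow, sk_transpose hx]
  have h1 : (- sk x) ^ (j : ℕ) * sk x ^ (k : ℕ) =
      ((-1 : L)) ^ (j : ℕ) • sk x ^ ((j : ℕ) + k) := by
    rw [neg_pow, pow_add]
    rcases Nat.even_or_odd (j : ℕ) with h | h
    · simp [h.neg_one_pow]
    · simp [h.neg_one_pow]
  rw [h1]
  unfold sm sumEnt
  simp only [Matrix.smul_apply, smul_eq_mul, Finset.mul_sum]

theorem sk_charpoly_coeff_odd [CharZero L] {x : Fin n → L} (hx : Function.Injective x) {j : ℕ}
    (hj : Odd (n + j)) : (sk x).charpoly.coeff j = 0 := by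
  have h1 := charpoly_neg_coeff (sk x) j
  rw [← sk_transpose hx, Matrix.charpoly_transpose, ← mul_assoc, ← pow_add, hj.neg_one_pow,
    neg_one_mul] at h1
  exact self_eq_neg.mp h1

/-- `det (J - sk x) = det (1 - 2 A)` -/
theorem ql_eq_det [CharZero L] (x : Fin n → L) : ql x = (ones n L - sk x).det := by
  have h0 : ones n L - sk x = (2 : L) • (scalar (Fin n) (2⁻¹ : L) - am x) := by
    unfold sk
    have h2 : (2 : L) ≠ 0 := two_ne_zero
    have h3 : (2 : L) • scalar (Fin n) (2⁻¹ : L) = 1 := by
      ext i j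
      rcases eq_or_ne i j with h | h
      · subst h
        simp
      · simp [h]
    rw [smul_sub, h3]
    abel
  have hdeg : (am x).charpoly.natDegree = n := by
    rw [Matrix.charpoly_natDegree_eq_dim]; simp
  rw [h0, det_smul, Fintype.card_fin, ← eval_charpoly, eval_eq_sum_range, hdeg, ql,
    Finset.mul_sum]
  refine Finset.sum_congr rfl fun i hi => ?_
  have hi' : i ≤ n := by
    have := Finset.mem_range.1 hi
    omega
  have h2 : (2 : L) ≠ 0 := two_ne_zero
  have h4 : (2 : L) ^ n = 2 ^ (n - i) * 2 ^ i := by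
    rw [← pow_add]; congr 1; omega
  rw [h4, inv_pow]
  field_simp

end WeylRot
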