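import Pool.Agent.H.WeylRot.RDefs
import Pool.Agent.H.MP_ffe2f0_al.NNewton

/-! Module RRank: the characteristic polynomial of `M + J`. -/

open Polynomial Matrix

namespace WeylRot

open NoetherAn

variable {L : Type*} [Field L] {n : ℕ}

/-- the matrix determinant lemma for `A - J` -/
theorem rrank_det (A : Matrix (Fin n) (Fin n) L) (hA : IsUnit A.det) :
    (A - ones n L).det = A.det * (1 - sumEnt A⁻¹) := by
  have h1 : A - ones n L = A + replicateCol Unit (fun _ => (-1 : L)) *
      replicateRow Unit (fun _ => (1 : L)) := by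
    ext i j
    simp [ones, Matrix.mul_apply, sub_eq_add_neg]
  rw [h1, det_add_replicateCol_mul_replicateRow hA]
  congr 1
  rw [Matrix.det_unique]
  simp only [Matrix.add_apply, Matrix.one_apply_eq, Matrix.mul_apply, replicateRow_apply,
    replicateCol_apply, one_mul, mul_neg, mul_one, Finset.sum_neg_distrib]
  rw [← sub_eq_add_neg]
  congr 1
  unfold sumEnt
  exact Finset.sum_comm

theorem rrank_smul (c : L) (A : Matrix (Fin n) (Fin n) L) : sumEnt (c • A) = c * sumEnt A := by
  unfold sumEnt
  simp only [Matrix.smul_apply, smul_eq_mul, Finset.mul_sum]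

theorem rank_poly [Infinite L] (M : Matrix (Fin n) (Fin n) L) :
    (∑ i ∈ Finset.range (n + 1), ∑ a ∈ Finset.range i,
      (C (M.charpoly.coeff i * sumEnt (M ^ (i - 1 - a))) * X ^ a : L[X])) =
      M.charpoly - (M + ones n L).charpoly := by
  classical
  have hinf : Set.Infinite {z : L | M.charpoly.eval z ≠ 0} := by
    have h1 : Set.Finite {z : L | M.charpoly.eval z = 0} := by
      have := M.charpoly.roots.toFinset.finite_toSet
      refine this.subset ?_
      intro z hz
      simp only [Finset.mem_coe, Multiset.mem_toFinset]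
      rw [mem_roots (Matrix.charpoly_monic M).ne_zero]
      exact hz
    exact h1.infinite_compl
  refine Polynomial.eq_of_infinite_eval_eq _ _ (hinf.mono ?_)
  intro z hz
  replace hz : M.charpoly.eval z ≠ 0 := hz
  change eval z _ = eval z _
  set A := scalar (Fin n) z - M with hAdef
  have hA : A.det = M.charpoly.eval z := (eval_charpoly M z).symm
  have hu : IsUnit A.det := by rw [hA]; exact hz.isUnit
  have hR : (M.charpoly - (M + ones n L).charpoly).eval z =
      M.charpoly.eval z * sumEnt A⁻¹ := by
    have h1 : scalar (Fin n) z - (M + ones n L) = A - ones n L := by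
      rw [hAdef]; abel
    rw [eval_sub, eval_charpoly (M + ones n L), h1, rrank_det A hu, hA]
    ring
  rw [hR]
  have hdeg : M.charpoly.natDegree = n := by
    rcases n with _ | n
    · simp
    · simp [Matrix.charpoly_natDegree_eq_dim]
  set B : Matrix (Fin n) (Fin n) L := ∑ i ∈ Finset.range (n + 1), M.charpoly.coeff i •
    ∑ a ∈ Finset.range i, (scalar (Fin n) z) ^ a * M ^ (i - 1 - a) with hB
  have hAB : A * B = M.charpoly.eval z • (1 : Matrix (Fin n) (Fin n) L) := by
    have hc : Commute (scalar (Fin n) z) M := by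
      exact scalar_commute z (fun r' => Commute.all _ _) M
    rw [hB, Finset.mul_sum]
    have h1 : ∀ i ∈ Finset.range (n + 1), A * (M.charpoly.coeff i •
        ∑ a ∈ Finset.range i, (scalar (Fin n) z) ^ a * M ^ (i - 1 - a)) =
        M.charpoly.coeff i • ((scalar (Fin n) z) ^ i - M ^ i) := by
      intro i _
      rw [mul_smul_comm, hAdef, hc.mul_geom_sum₂]
    rw [Finset.sum_congr rfl h1]
    simp only [smul_sub, Finset.sum_sub_distrib]
    have h2 : ∑ i ∈ Finset.range (n + 1), M.charpoly.coeff i • M ^ i = 0 := by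
      have := Matrix.aeval_self_charpoly M
      rw [aeval_eq_sum_range, hdeg] at this
      exact this
    rw [h2, sub_zero, eval_eq_sum_range, hdeg, Finset.sum_smul]
    refine Finset.sum_congr rfl ?_
    intro i _
    rw [mul_smul, ← map_pow]
    congr 1
    ext a b
    simp [Matrix.one_apply, Matrix.diagonal_apply]
  have hB2 : B = M.charpoly.eval z • A⁻¹ := by
    have h1 : A⁻¹ * (A * B) = B := by
      rw [← mul_assoc, nonsing_inv_mul _ hu, one_mul]
    rw [← h1, hAB, mul_smul_comm, mul_one]
  have hB3 : sumEnt B = M.charpoly.eval z * sumEnt A⁻¹ := by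
    rw [hB2, rrank_smul]
  rw [← hB3, hB]
  simp only [eval_finsetSum, eval_mul, eval_C, eval_pow, eval_X, sumEnt_sum, rrank_smul,
    Finset.mul_sum]
  refine Finset.sum_congr rfl ?_
  intro i _
  refine Finset.sum_congr rfl ?_
  intro a _
  have h7 : (scalar (Fin n) z) ^ a * M ^ (i - 1 - a) = z ^ a • M ^ (i - 1 - a) := by
    rw [← map_pow]
    ext x y
    simp
  rw [h7, rrank_smul]
  ring

theorem rank_coeff [Infinite L] (M : Matrix (Fin n) (Fin n) L) {k : ℕ} (hk : k < n) :
    ∑ b ∈ Finset.range (k + 1), M.charpoly.coeff (n - k + b) * sumEnt (M ^ b) =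
      M.charpoly.coeff (n - 1 - k) - (M + ones n L).charpoly.coeff (n - 1 - k) := by
  have h := congrArg (fun p : L[X] => p.coeff (n - 1 - k)) (rank_poly M)
  rw [coeff_sub] at h
  have e1 : n - 1 - k + 1 = n - k := by omega
  rw [← h]
  simp only [finsetSum_coeff, coeff_C_mul, coeff_X_pow]
  have h1 : ∀ i ∈ Finset.range (n + 1),
      ∑ a ∈ Finset.range i, M.charpoly.coeff i * sumEnt (M ^ (i - 1 - a)) *
        (if n - 1 - k = a then (1 : L) else 0) =
      if n - k ≤ i then M.charpoly.coeff i * sumEnt (M ^ (i - (n - k))) else 0 := by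
    intro i hi
    simp only [mul_ite, mul_one, mul_zero]
    rw [Finset.sum_ite_eq]
    simp only [Finset.mem_range]
    by_cases hh : n - k ≤ i
    · rw [if_pos (by omega), if_pos hh]
      congr 3
      omega
    · rw [if_neg (by omega), if_neg hh]
  rw [Finset.sum_congr rfl h1, ← Finset.sum_filter]
  symm
  refine Finset.sum_bij' (fun i _ => i - (n - k)) (fun b _ => n - k + b) ?_ ?_ ?_ ?_ ?_
  · intro i hi
    simp only [Finset.mem_filter, Finset.mem_range] at hi ⊢
    omega
  · intro b hb
    simp only [Finset.mem_filter, Finset.mem_range] at hb ⊢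
    omega
  · intro i hi
    simp only [Finset.mem_filter, Finset.mem_range] at hi ⊢
    omega
  · intro b hb
    simp only [Finset.mem_range] at hb ⊢
    omega
  · intro i hi
    simp only [Finset.mem_filter, Finset.mem_range] at hi ⊢
    congr 2
    omega

end WeylRot
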