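import Pool.Agent.H.WeylRot.RDefs
import Pool.Agent.H.WeylRot.RComm
import Pool.Agent.H.WeylRot.RRank
import Pool.Agent.H.MP_ffe2f0_al.NDelta

/-! Module RHank: the squares of the Krylov determinants. -/

open Polynomial Matrix

namespace WeylRot

open NoetherAn

theorem rhank_blocks {L : Type*} [Field L] (n : ℕ) (p : ℕ → L) (hp : ∀ a, Odd a → p a = 0)
    (a b : ℕ) (hn : n = a + b) (h1 : b ≤ a) (h2 : a ≤ b + 1) :
    Matrix.det (Matrix.of fun j k : Fin n => (-1 : L) ^ (j : ℕ) * p ((j : ℕ) + k)) =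
      Matrix.det (Matrix.of fun j k : Fin a => p (2 * ((j : ℕ) + k))) *
      ((-1) ^ b * Matrix.det (Matrix.of fun j k : Fin b => p (2 * ((j : ℕ) + k + 1)))) := by
  let e : Fin a ⊕ Fin b ≃ Fin n := Equiv.ofBijective _ (ndelta_bij a b n hn h1 h2)
  have he1 : ∀ j : Fin a, ((e (Sum.inl j) : Fin n) : ℕ) = 2 * j := fun j => rfl
  have he2 : ∀ j : Fin b, ((e (Sum.inr j) : Fin n) : ℕ) = 2 * j + 1 := fun j => rfl
  have h4 : (Matrix.of fun j k : Fin n => (-1 : L) ^ (j : ℕ) * p ((j : ℕ) + k)).submatrix e e =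
      Matrix.fromBlocks
      (Matrix.of fun j k : Fin a => p (2 * ((j : ℕ) + k))) 0 0
      (-(Matrix.of fun j k : Fin b => p (2 * ((j : ℕ) + k + 1)))) := by
    ext (i | i) (j | j)
    · rw [Matrix.submatrix_apply, Matrix.of_apply, he1, he1, Matrix.fromBlocks_apply₁₁,
        Matrix.of_apply, pow_mul, ← mul_add]
      simp
    · rw [Matrix.submatrix_apply, Matrix.of_apply, he1, he2, Matrix.fromBlocks_apply₁₂,
        hp _ ⟨(i : ℕ) + j, by ring⟩]
      simp
    · rw [Matrix.submatrix_apply, Matrix.of_apply, he1, he2, Matrix.fromBlocks_apply₂₁,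
        hp _ ⟨(i : ℕ) + j, by ring⟩]
      simp
    · rw [Matrix.submatrix_apply, Matrix.of_apply, he2, he2, Matrix.fromBlocks_apply₂₂,
        Matrix.neg_apply, Matrix.of_apply, pow_succ, pow_mul]
      have h5 : 2 * (i : ℕ) + 1 + (2 * j + 1) = 2 * ((i : ℕ) + j + 1) := by ring
      rw [h5]
      simp
  rw [← Matrix.det_submatrix_equiv_self e, h4, Matrix.det_fromBlocks_zero₂₁,
    Matrix.det_neg, Fintype.card_fin]

/-- abstract form of the Hankel computation -/
theorem gram_det {L : Type*} [Field L] (n : ℕ) (p χ : ℕ → L) (hp : ∀ a, Odd a → p a = 0)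
    (hn : χ n = 1) (hχ : ∀ j, Odd (n + j) → χ j = 0)
    (hrec : ∀ s, ∑ l ∈ Finset.range (n + 1), χ l * p (l + s) = 0) :
    Matrix.det (Matrix.of fun j k : Fin n => (-1 : L) ^ (j : ℕ) * p ((j : ℕ) + k)) =
      (if n % 2 = 0 then χ 0 else ∑ i ∈ Finset.range (n / 2 + 1), χ (2 * i + 1) * p (2 * i)) *
        Matrix.det (Matrix.of fun j k : Fin (n / 2) =>
          p (2 * ((j : ℕ) + k) + 2 * (n % 2))) ^ 2 := by
  have hsgn : ∀ m : ℕ, ((-1 : L)) ^ m * (-1) ^ m = 1 := fun m => by
    rw [← mul_pow]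
    simp
  rcases Nat.even_or_odd' n with ⟨m, hm | hm⟩
  · -- even case
    have hr : n % 2 = 0 := by omega
    have hq : n / 2 = m := by omega
    have hrel : ∀ j, ∑ i ∈ Finset.range (m + 1), χ (2 * i) * p (2 * (j + i)) = 0 := by
      intro j
      have h1 := hrec (2 * j)
      have hR : Finset.range (n + 1) = Finset.range (2 * m + 1) := by rw [hm]
      rw [hR] at h1
      rw [ndelta_sum_even _ (fun l hl => by
        rw [hχ l (by rw [hm]; exact (even_two_mul m).add_odd hl), zero_mul]) m] at h1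
      rw [← h1]
      refine Finset.sum_congr rfl fun i _ => ?_
      congr 2
      ring
    have h1 := ndelta_hankel (m := m) (fun a => p (2 * a))
      (fun i => χ (2 * i)) (by rw [← hm]; exact hn) hrel
    have h2 := rhank_blocks n p hp m m (by omega) le_rfl (by omega)
    have h3 : Matrix.det (Matrix.of fun j k : Fin (n / 2) =>
          p (2 * ((j : ℕ) + k) + 2 * (n % 2))) =
        Matrix.det (Matrix.of fun j k : Fin m => p (2 * ((j : ℕ) + k))) := by
      rw [hr]
      exact ndelta_det_cast hq (fun j k => p (2 * (j + k) + 2 * 0))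
    rw [h2, if_pos hr, h3]
    have h1' : Matrix.det (Matrix.of fun j k : Fin m => p (2 * ((j : ℕ) + k + 1))) =
      (-1) ^ m * χ (2 * 0) *
        Matrix.det (Matrix.of fun j k : Fin m => p (2 * ((j : ℕ) + k))) := h1
    rw [h1', mul_zero]
    linear_combination (χ 0 *
      Matrix.det (Matrix.of fun j k : Fin m => p (2 * ((j : ℕ) + k))) ^ 2) * hsgn m
  · -- odd case
    have hr : n % 2 = 1 := by omega
    have hq : n / 2 = m := by omega
    have hrel : ∀ j, 0 < j → ∑ i ∈ Finset.range (m + 1), χ (2 * i + 1) *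
        p (2 * (j + i)) = 0 := by
      intro j hj
      have h1 := hrec (2 * j - 1)
      have h0 : χ 0 = 0 := hχ 0 (by rw [hm]; exact ⟨m, rfl⟩)
      have hR : Finset.range n = Finset.range (2 * m + 1) := by rw [hm]
      rw [Finset.sum_range_succ', h0, zero_mul, add_zero, hR] at h1
      rw [ndelta_sum_even _ (fun l hl => by
        rw [hχ (l + 1) (by
          rw [hm]
          obtain ⟨c, hc⟩ := hl
          exact ⟨m + c + 1, by omega⟩), zero_mul]) m] at h1
      rw [← h1]
      refine Finset.sum_congr rfl fun i _ => ?_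
      congr 2
      omega
    have h1 := ndelta_hankel' (m := m) (fun a => p (2 * a))
      (fun i => χ (2 * i + 1)) _ (by rw [← hm]; exact hn) rfl hrel
    have h2 := rhank_blocks n p hp (m + 1) m (by omega) (by omega) le_rfl
    have h3 : Matrix.det (Matrix.of fun j k : Fin (n / 2) =>
          p (2 * ((j : ℕ) + k) + 2 * (n % 2))) =
        Matrix.det (Matrix.of fun j k : Fin m => p (2 * ((j : ℕ) + k + 1))) := by
      rw [hr]
      rw [ndelta_det_cast hq (fun j k => p (2 * (j + k) + 2 * 1))]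
      congr 1
    have h1' : Matrix.det (Matrix.of fun j k : Fin (m + 1) => p (2 * ((j : ℕ) + k))) =
      (-1) ^ m * (∑ i ∈ Finset.range (m + 1), χ (2 * i + 1) * p (2 * i)) *
        Matrix.det (Matrix.of fun j k : Fin m => p (2 * ((j : ℕ) + k + 1))) := h1
    have hne : ¬ (n % 2 = 0) := by omega
    rw [h2, if_neg hne, h3, h1', hq]
    linear_combination ((∑ i ∈ Finset.range (m + 1), χ (2 * i + 1) * p (2 * i)) *
      Matrix.det (Matrix.of fun j k : Fin m => p (2 * ((j : ℕ) + k + 1))) ^ 2) * hsgn m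

theorem rhank_lead {L : Type*} [Field L] {n : ℕ} (M : Matrix (Fin n) (Fin n) L) :
    M.charpoly.coeff n = 1 := by
  have h1 := (Matrix.charpoly_monic M).coeff_natDegree
  rwa [Matrix.charpoly_natDegree_eq_dim, Fintype.card_fin] at h1

/-- Cayley-Hamilton for the entry sums -/
theorem rhank_ch {L : Type*} [Field L] {n : ℕ} (N M : Matrix (Fin n) (Fin n) L) (s : ℕ) :
    ∑ l ∈ Finset.range (n + 1), M.charpoly.coeff l * sumEnt (N * M ^ (l + s)) = 0 := by
  have h1 := Matrix.aeval_self_charpoly M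
  rw [Polynomial.aeval_eq_sum_range, Matrix.charpoly_natDegree_eq_dim, Fintype.card_fin] at h1
  have h2 := congrArg (fun K : Matrix (Fin n) (Fin n) L => sumEnt (N * (K * M ^ s))) h1
  simp only [zero_mul, mul_zero, sumEnt_zero] at h2
  rw [← h2, Finset.sum_mul, Finset.mul_sum, sumEnt_sum]
  refine Finset.sum_congr rfl fun l _ => ?_
  rw [smul_mul_assoc, Matrix.mul_smul, ← pow_add]
  unfold sumEnt
  simp only [Matrix.smul_apply, smul_eq_mul, Finset.mul_sum]

variable {L : Type*} [Field L] [CharZero L] {n : ℕ}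

theorem krb_det_sq (x : Fin n → L) :
    (∏ i, x i) * (krb x).det ^ 2 = dl x * hkb x ^ 2 := by
  have h1 : (∏ i, x i) * (krb x).det ^ 2 = ((krb x)ᵀ * diagonal x * krb x).det := by
    rw [Matrix.det_mul, Matrix.det_mul, Matrix.det_transpose, Matrix.det_diagonal]
    ring
  have h2 : (krb x)ᵀ * diagonal x * krb x =
      Matrix.of fun j k : Fin n => (-1 : L) ^ (j : ℕ) * tm x ((j : ℕ) + k) := by
    ext j k
    rw [gram_tm, Matrix.of_apply]
  rw [h1, h2, gram_det n (tm x) (fun i => (am x).charpoly.coeff i) (fun a ha => tm_odd x ha)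
    (rhank_lead _) (fun j hj => am_charpoly_coeff_odd x hj) (fun s => by
      simp only [tm_eq_sumEnt]
      exact rhank_ch (diagonal x) (am x) s)]
  rfl

theorem rhank_delta {x : Fin n → L} (hx : Function.Injective x) :
    (if n % 2 = 0 then (sk x).charpoly.coeff 0
      else ∑ i ∈ Finset.range (n / 2 + 1), (sk x).charpoly.coeff (2 * i + 1) * sm x (2 * i)) =
      ql x := by
  rcases Nat.eq_zero_or_pos n with h0 | h0
  · subst h0
    rw [if_pos rfl, rhank_lead, ql_eq_det, Matrix.det_isEmpty]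
  have hchi : ∀ j, (-(sk x)).charpoly.coeff j = (sk x).charpoly.coeff j := by
    intro j
    rw [charpoly_neg_coeff]
    rcases Nat.even_or_odd (n + j) with h | h
    · rw [← mul_assoc, ← pow_add, h.neg_one_pow, one_mul]
    · rw [sk_charpoly_coeff_odd hx h, mul_zero, mul_zero]
  have hpow : ∀ b, sumEnt ((-(sk x)) ^ b) = sm x b := by
    intro b
    rcases Nat.even_or_odd b with h | h
    · rw [h.neg_pow]
      rfl
    · rw [h.neg_pow, sumEnt_neg]
      have h1 := sm_odd hx h
      rw [h1]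
      have h2 : sumEnt (sk x ^ b) = 0 := h1
      rw [h2, neg_zero]
  have h1 := rank_coeff (-(sk x)) (k := n - 1) (by omega)
  have e1 : n - (n - 1) = 1 := by omega
  have e2 : n - 1 + 1 = n := by omega
  have e3 : n - 1 - (n - 1) = 0 := by omega
  rw [e1, e2, e3] at h1
  simp only [hchi, hpow] at h1
  have h2 : (-(sk x) + ones n L).charpoly.coeff 0 = (-1) ^ n * ql x := by
    rw [ql_eq_det]
    have h3 : ones n L - sk x = -(sk x) + ones n L := by abel
    rw [h3, Matrix.det_eq_sign_charpoly_coeff, Fintype.card_fin, ← mul_assoc, ← mul_pow]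
    simp
  rw [h2] at h1
  rcases Nat.even_or_odd' n with ⟨m, hm | hm⟩
  · have hr : n % 2 = 0 := by omega
    rw [if_pos hr]
    have h4 : ∑ b ∈ Finset.range n, (sk x).charpoly.coeff (1 + b) * sm x b = 0 := by
      refine Finset.sum_eq_zero fun b _ => ?_
      rcases Nat.even_or_odd b with h | h
      · rw [sk_charpoly_coeff_odd hx (by
          rw [hm]
          obtain ⟨c, hc⟩ := h
          exact ⟨m + c, by omega⟩), zero_mul]
      · rw [sm_odd hx h, mul_zero]
    have h5 : ((-1 : L)) ^ n = 1 := by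
      rw [hm, pow_mul]
      simp
    rw [h4, h5, one_mul] at h1
    exact (sub_eq_zero.mp h1.symm)
  · have hr : ¬ (n % 2 = 0) := by omega
    have hq : n / 2 = m := by omega
    rw [if_neg hr, hq]
    have h5 : ((-1 : L)) ^ n = -1 := by
      rw [hm, pow_succ, pow_mul]
      simp
    have h6 : (sk x).charpoly.coeff 0 = 0 :=
      sk_charpoly_coeff_odd hx (by rw [hm]; exact ⟨m, rfl⟩)
    have hR : Finset.range n = Finset.range (2 * m + 1) := by rw [hm]
    rw [h5, h6, hR, ndelta_sum_even _ (fun l hl => by rw [sm_odd hx hl, mul_zero])] at h1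
    have h7 : (0 : L) - -1 * ql x = ql x := by ring
    rw [h7] at h1
    rw [← h1]
    refine Finset.sum_congr rfl fun i _ => ?_
    rw [add_comm 1]

theorem krs_det_sq {x : Fin n → L} (hx : Function.Injective x) :
    (krs x).det ^ 2 = ql x * hks x ^ 2 := by
  have h1 : (krs x).det ^ 2 = ((krs x)ᵀ * krs x).det := by
    rw [Matrix.det_mul, Matrix.det_transpose]
    ring
  have h2 : (krs x)ᵀ * krs x =
      Matrix.of fun j k : Fin n => (-1 : L) ^ (j : ℕ) * sm x ((j : ℕ) + k) := by
    ext j k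
    rw [gram_sm hx, Matrix.of_apply]
  rw [h1, h2, gram_det n (sm x) (fun i => (sk x).charpoly.coeff i) (fun a ha => sm_odd hx ha)
    (rhank_lead _) (fun j hj => sk_charpoly_coeff_odd hx hj) (fun s => by
      have h3 := rhank_ch 1 (sk x) s
      simp only [one_mul] at h3
      exact h3), rhank_delta hx]
  rfl

end WeylRot
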