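import Pool.Agent.H.WeylRot.RDefs
import Pool.Agent.H.MP_ffe2f0_al.NSym

/-! Module RSym: permutations and field homomorphisms. -/

open Polynomial Matrix

namespace WeylRot

open NoetherAn

variable {L L' : Type*} [Field L] [Field L'] {n : ℕ}

theorem am_comp (x : Fin n → L) (σ : Equiv.Perm (Fin n)) :
    am (x ∘ σ) = (am x).submatrix σ σ := by
  unfold am
  ext i j
  rw [Matrix.submatrix_apply, Matrix.mul_diagonal, Matrix.mul_diagonal, cm_comp,
    Matrix.submatrix_apply]
  rfl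

/-- powers of a submatrix along a permutation -/
theorem rsym_submatrix_pow (M : Matrix (Fin n) (Fin n) L) (σ : Equiv.Perm (Fin n)) (a : ℕ) :
    (M.submatrix σ σ) ^ a = (M ^ a).submatrix σ σ := by
  induction a with
  | zero =>
    ext i j
    simp [Matrix.submatrix_apply, Matrix.one_apply, σ.injective.eq_iff]
  | succ a ih =>
    rw [pow_succ, pow_succ, ih, Matrix.submatrix_mul_equiv]

theorem rsym_am_comp_pow (x : Fin n → L) (σ : Equiv.Perm (Fin n)) (a : ℕ) :
    am (x ∘ σ) ^ a = (am x ^ a).submatrix σ σ := by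
  rw [am_comp, rsym_submatrix_pow]

theorem rsym_sk_comp (x : Fin n → L) (σ : Equiv.Perm (Fin n)) :
    sk (x ∘ σ) = (sk x).submatrix σ σ := by
  unfold sk
  rw [am_comp]
  ext i j
  simp [Matrix.submatrix_apply, Matrix.one_apply, ones, σ.injective.eq_iff]

theorem rsym_sk_comp_pow (x : Fin n → L) (σ : Equiv.Perm (Fin n)) (a : ℕ) :
    sk (x ∘ σ) ^ a = (sk x ^ a).submatrix σ σ := by
  rw [rsym_sk_comp, rsym_submatrix_pow]

theorem am_charpoly_comp (x : Fin n → L) (σ : Equiv.Perm (Fin n)) :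
    (am (x ∘ σ)).charpoly = (am x).charpoly := by
  rw [am_comp]
  have := Matrix.charpoly_reindex σ.symm (am x)
  rw [Matrix.reindex_apply, Equiv.symm_symm] at this
  exact this

theorem tm_comp (x : Fin n → L) (σ : Equiv.Perm (Fin n)) (a : ℕ) : tm (x ∘ σ) a = tm x a := by
  unfold tm
  rw [rsym_am_comp_pow]
  simp only [Matrix.submatrix_apply, Function.comp_apply]
  rw [← Equiv.sum_comp σ (fun i => ∑ j, x i * (am x ^ a) i j)]
  refine Finset.sum_congr rfl fun i _ => ?_
  rw [Equiv.sum_comp σ (fun j => x (σ i) * (am x ^ a) (σ i) j)]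

theorem rsym_sumEnt_submatrix (M : Matrix (Fin n) (Fin n) L) (σ : Equiv.Perm (Fin n)) :
    sumEnt (M.submatrix σ σ) = sumEnt M := by
  unfold sumEnt
  simp only [Matrix.submatrix_apply]
  rw [← Equiv.sum_comp σ (fun i => ∑ j, M i j)]
  refine Finset.sum_congr rfl fun i _ => ?_
  rw [Equiv.sum_comp σ (fun j => M (σ i) j)]

theorem sm_comp (x : Fin n → L) (σ : Equiv.Perm (Fin n)) (a : ℕ) : sm (x ∘ σ) a = sm x a := by
  unfold sm
  rw [rsym_sk_comp_pow, rsym_sumEnt_submatrix]

theorem rsym_krb_comp (x : Fin n → L) (σ : Equiv.Perm (Fin n)) :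
    krb (x ∘ σ) = (krb x).submatrix σ id := by
  ext i k
  rw [Matrix.submatrix_apply]
  unfold krb
  rw [Matrix.of_apply, Matrix.of_apply, rsym_am_comp_pow]
  simp only [Matrix.submatrix_apply, id]
  rw [Equiv.sum_comp σ (fun j => (am x ^ (k : ℕ)) (σ i) j)]

theorem krb_det_comp (x : Fin n → L) (σ : Equiv.Perm (Fin n)) :
    (krb (x ∘ σ)).det = ((Equiv.Perm.sign σ : ℤˣ) : ℤ) * (krb x).det := by
  rw [rsym_krb_comp, Matrix.det_permute]

theorem rsym_krs_comp (x : Fin n → L) (σ : Equiv.Perm (Fin n)) :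
    krs (x ∘ σ) = (krs x).submatrix σ id := by
  ext i k
  rw [Matrix.submatrix_apply]
  unfold krs
  rw [Matrix.of_apply, Matrix.of_apply, rsym_sk_comp_pow]
  simp only [Matrix.submatrix_apply, id]
  rw [Equiv.sum_comp σ (fun j => (sk x ^ (k : ℕ)) (σ i) j)]

theorem krs_det_comp (x : Fin n → L) (σ : Equiv.Perm (Fin n)) :
    (krs (x ∘ σ)).det = ((Equiv.Perm.sign σ : ℤˣ) : ℤ) * (krs x).det := by
  rw [rsym_krs_comp, Matrix.det_permute]

theorem hkb_comp (x : Fin n → L) (σ : Equiv.Perm (Fin n)) : hkb (x ∘ σ) = hkb x := by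
  unfold hkb
  simp only [tm_comp]

theorem hks_comp (x : Fin n → L) (σ : Equiv.Perm (Fin n)) : hks (x ∘ σ) = hks x := by
  unfold hks
  simp only [sm_comp]

theorem am_map (φ : L →+* L') (x : Fin n → L) : am (φ ∘ x) = (am x).map φ := by
  ext i j
  unfold am
  rw [Matrix.mul_diagonal, cm_map, Matrix.map_apply, Matrix.map_apply, Matrix.mul_diagonal,
    map_mul]
  rfl

theorem rsym_am_map_pow (φ : L →+* L') (x : Fin n → L) (a : ℕ) :
    am (φ ∘ x) ^ a = (am x ^ a).map φ := by
  rw [am_map]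
  exact (map_pow (φ.mapMatrix) (am x) a).symm

theorem rsym_sk_map (φ : L →+* L') (x : Fin n → L) : sk (φ ∘ x) = (sk x).map φ := by
  unfold sk
  rw [am_map]
  ext i j
  simp only [Matrix.map_apply, Matrix.sub_apply, Matrix.add_apply, Matrix.smul_apply, ones,
    Matrix.of_apply, smul_eq_mul, map_sub, map_add, map_mul, map_one, map_ofNat,
    Matrix.one_apply]
  split_ifs <;> simp

theorem rsym_sk_map_pow (φ : L →+* L') (x : Fin n → L) (a : ℕ) :
    sk (φ ∘ x) ^ a = (sk x ^ a).map φ := by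
  rw [rsym_sk_map]
  exact (map_pow (φ.mapMatrix) (sk x) a).symm

theorem am_charpoly_map (φ : L →+* L') (x : Fin n → L) :
    (am (φ ∘ x)).charpoly = (am x).charpoly.map φ := by
  rw [am_map, Matrix.charpoly_map]

theorem tm_map (φ : L →+* L') (x : Fin n → L) (a : ℕ) : tm (φ ∘ x) a = φ (tm x a) := by
  unfold tm
  rw [rsym_am_map_pow, map_sum]
  refine Finset.sum_congr rfl fun i _ => ?_
  rw [map_sum]
  refine Finset.sum_congr rfl fun j _ => ?_
  rw [map_mul]
  rfl

theorem sm_map (φ : L →+* L') (x : Fin n → L) (a : ℕ) : sm (φ ∘ x) a = φ (sm x a) := by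
  unfold sm sumEnt
  rw [rsym_sk_map_pow, map_sum]
  refine Finset.sum_congr rfl fun i _ => ?_
  rw [map_sum]
  rfl

theorem rsym_krb_map (φ : L →+* L') (x : Fin n → L) : krb (φ ∘ x) = (krb x).map φ := by
  ext i k
  rw [Matrix.map_apply]
  unfold krb
  rw [Matrix.of_apply, Matrix.of_apply, rsym_am_map_pow, map_sum]
  rfl

theorem krb_det_map (φ : L →+* L') (x : Fin n → L) : (krb (φ ∘ x)).det = φ (krb x).det := by
  rw [rsym_krb_map]
  exact (RingHom.map_det φ (krb x)).symm

theorem rsym_krs_map (φ : L →+* L') (x : Fin n → L) : krs (φ ∘ x) = (krs x).map φ := by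
  ext i k
  rw [Matrix.map_apply]
  unfold krs
  rw [Matrix.of_apply, Matrix.of_apply, rsym_sk_map_pow, map_sum]
  rfl

theorem krs_det_map (φ : L →+* L') (x : Fin n → L) : (krs (φ ∘ x)).det = φ (krs x).det := by
  rw [rsym_krs_map]
  exact (RingHom.map_det φ (krs x)).symm

theorem hkb_map (φ : L →+* L') (x : Fin n → L) : hkb (φ ∘ x) = φ (hkb x) := by
  unfold hkb
  rw [RingHom.map_det]
  congr 1
  ext j k
  rw [Matrix.of_apply, RingHom.mapMatrix_apply, Matrix.map_apply, Matrix.of_apply, tm_map]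

theorem hks_map (φ : L →+* L') (x : Fin n → L) : hks (φ ∘ x) = φ (hks x) := by
  unfold hks
  rw [RingHom.map_det]
  congr 1
  ext j k
  rw [Matrix.of_apply, RingHom.mapMatrix_apply, Matrix.map_apply, Matrix.of_apply, sm_map]

end WeylRot
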