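import Pool.Agent.H.WeylRot.RDefs
import Pool.Agent.H.WeylRot.RSym

/-! Module RPoint: a point where the Krylov determinant of `A` does not vanish. -/

open Polynomial Matrix Filter Topology

namespace WeylRot

open NoetherAn

/-- the limit of `A` at `x_i = t^i`, `t → ∞` -/
def amInf (n : ℕ) : Matrix (Fin n) (Fin n) ℝ := Matrix.of fun i j => if i < j then -1 else 0

theorem rpoint_hockey (m k : ℕ) : ∑ a ∈ Finset.range m, a.choose k = m.choose (k + 1) := by
  induction m with
  | zero => simp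
  | succ m ih => rw [Finset.sum_range_succ, ih, Nat.choose_succ_succ, add_comm]

theorem rpoint_sum (n k : ℕ) (i : Fin n) :
    ∑ j : Fin n, (if i < j then ((n - 1 - (j : ℕ)).choose k : ℝ) else 0) =
      ((n - 1 - (i : ℕ)).choose (k + 1) : ℝ) := by
  have h1 : ∑ j : Fin n, (if i < j then ((n - 1 - (j : ℕ)).choose k : ℝ) else 0) =
      ∑ j ∈ Finset.range n, (if (i : ℕ) < j then ((n - 1 - j).choose k : ℝ) else 0) := by
    rw [Finset.sum_range]
    rfl
  rw [h1, ← Finset.sum_range_reflect]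
  have h2 : ∀ j ∈ Finset.range n, (if (i : ℕ) < n - 1 - j then
      ((n - 1 - (n - 1 - j)).choose k : ℝ) else 0) =
      (if j < n - 1 - (i : ℕ) then (j.choose k : ℝ) else 0) := by
    intro j hj
    have hj' := Finset.mem_range.1 hj
    have e : n - 1 - (n - 1 - j) = j := by omega
    rw [e]
    by_cases h : j < n - 1 - (i : ℕ)
    · rw [if_pos h, if_pos (by omega)]
    · rw [if_neg h, if_neg (by omega)]
  rw [Finset.sum_congr rfl h2, ← Finset.sum_filter]
  have h3 : (Finset.range n).filter (fun j => j < n - 1 - (i : ℕ)) =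
      Finset.range (n - 1 - (i : ℕ)) := by
    ext j
    simp only [Finset.mem_filter, Finset.mem_range]
    omega
  rw [h3, ← rpoint_hockey (n - 1 - (i : ℕ)) k]
  push_cast
  rfl

theorem rpoint_pow (n k : ℕ) (i : Fin n) :
    ∑ j, (amInf n ^ k) i j = (-1 : ℝ) ^ k * ((n - 1 - (i : ℕ)).choose k : ℝ) := by
  induction k generalizing i with
  | zero =>
    simp [Matrix.one_apply]
  | succ k ih =>
    have h1 : ∑ j, (amInf n ^ (k + 1)) i j = ∑ l, amInf n i l * ∑ j, (amInf n ^ k) l j := by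
      rw [pow_succ']
      simp only [Matrix.mul_apply, Finset.mul_sum]
      rw [Finset.sum_comm]
    rw [h1, ← rpoint_sum n k i, Finset.mul_sum]
    refine Finset.sum_congr rfl fun l _ => ?_
    rw [ih l, amInf, Matrix.of_apply]
    split_ifs
    · ring
    · ring

theorem amInf_krylov (n : ℕ) :
    (Matrix.of fun i k : Fin n => ∑ j, (amInf n ^ (k : ℕ)) i j).det ≠ 0 := by
  set M : Matrix (Fin n) (Fin n) ℝ := Matrix.of fun i k : Fin n => ∑ j, (amInf n ^ (k : ℕ)) i j
    with hM
  have h1 : (M.submatrix (Fin.revPerm : Equiv.Perm (Fin n)) id).det =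
      ∏ i : Fin n, (-1 : ℝ) ^ (i : ℕ) := by
    rw [Matrix.det_of_lowerTriangular]
    · refine Finset.prod_congr rfl fun i _ => ?_
      rw [Matrix.submatrix_apply, id, hM, Matrix.of_apply, rpoint_pow]
      have e : n - 1 - ((Fin.revPerm i : Fin n) : ℕ) = i := by
        rw [Fin.revPerm_apply, Fin.val_rev]
        omega
      rw [e, Nat.choose_self]
      simp
    · intro i k hik
      have hik' : i < k := by simpa using hik
      rw [Matrix.submatrix_apply, id, hM, Matrix.of_apply, rpoint_pow]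
      have e : n - 1 - ((Fin.revPerm i : Fin n) : ℕ) = i := by
        rw [Fin.revPerm_apply, Fin.val_rev]
        omega
      rw [e, Nat.choose_eq_zero_of_lt (by exact_mod_cast hik')]
      simp
  intro h0
  have h2 := Matrix.det_permute (Fin.revPerm : Equiv.Perm (Fin n)) M
  rw [h1, h0, mul_zero] at h2
  exact (Finset.prod_ne_zero_iff.2 fun i _ => pow_ne_zero _ (by norm_num)) h2

theorem am_tendsto (n : ℕ) :
    Tendsto (fun t : ℕ => am (fun i : Fin n => (t : ℝ) ^ (i : ℕ))) atTop (𝓝 (amInf n)) := by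
  refine tendsto_pi_nhds.2 fun i => tendsto_pi_nhds.2 fun j => ?_
  have h0 : ∀ t : ℕ, am (fun i : Fin n => (t : ℝ) ^ (i : ℕ)) i j =
      ((t : ℝ) ^ (i : ℕ) - (t : ℝ) ^ (j : ℕ))⁻¹ * (t : ℝ) ^ (j : ℕ) := by
    intro t
    rw [am, Matrix.mul_diagonal, cm, Matrix.of_apply]
  simp only [h0]
  have ht : Tendsto (fun t : ℕ => (t : ℝ)) atTop atTop := tendsto_natCast_atTop_atTop
  rcases lt_trichotomy i j with h | h | h
  · have e : amInf n i j = -1 := by rw [amInf, Matrix.of_apply, if_pos h]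
    rw [e]
    have hd : (j : ℕ) - (i : ℕ) ≠ 0 := by
      have : (i : ℕ) < j := h
      omega
    have h1 : Tendsto (fun t : ℕ => (((t : ℝ)⁻¹) ^ ((j : ℕ) - (i : ℕ)) - 1)⁻¹) atTop
        (𝓝 ((0 - 1)⁻¹)) := by
      refine Tendsto.inv₀ ?_ (by norm_num)
      refine Tendsto.sub_const ?_ 1
      have := (tendsto_inv_atTop_zero.comp ht).pow ((j : ℕ) - (i : ℕ))
      rwa [zero_pow hd] at this
    have h2 : ((0 : ℝ) - 1)⁻¹ = -1 := by norm_num
    rw [h2] at h1
    refine h1.congr' ?_
    filter_upwards [eventually_ge_atTop 1] with t ht1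
    have ht0 : (t : ℝ) ≠ 0 := by
      have : 0 < t := ht1
      positivity
    have hj : (j : ℕ) = (i : ℕ) + ((j : ℕ) - (i : ℕ)) := by
      have : (i : ℕ) < j := h
      omega
    have e1 : (t : ℝ) ^ (i : ℕ) - (t : ℝ) ^ (j : ℕ) =
        (((t : ℝ)⁻¹) ^ ((j : ℕ) - (i : ℕ)) - 1) * (t : ℝ) ^ (j : ℕ) := by
      rw [sub_mul, one_mul]
      congr 1
      nth_rewrite 2 [hj]
      rw [pow_add, inv_pow]
      field_simp
    rw [e1, mul_inv, mul_assoc, inv_mul_cancel₀ (pow_ne_zero _ ht0), mul_one]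
  · subst h
    have e : amInf n i i = 0 := by rw [amInf, Matrix.of_apply, if_neg (lt_irrefl _)]
    rw [e]
    simp
  · have e : amInf n i j = 0 := by rw [amInf, Matrix.of_apply, if_neg (not_lt.2 h.le)]
    rw [e]
    have hd : (i : ℕ) - (j : ℕ) ≠ 0 := by
      have : (j : ℕ) < i := h
      omega
    have h1 : Tendsto (fun t : ℕ => ((t : ℝ) ^ ((i : ℕ) - (j : ℕ)) - 1)⁻¹) atTop (𝓝 0) := by
      refine tendsto_inv_atTop_zero.comp ?_
      exact tendsto_atTop_add_const_right _ (-1) ((tendsto_pow_atTop hd).comp ht)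
    refine h1.congr' ?_
    filter_upwards [eventually_ge_atTop 1] with t ht1
    have ht0 : (t : ℝ) ≠ 0 := by
      have : 0 < t := ht1
      positivity
    have hi : (i : ℕ) = ((i : ℕ) - (j : ℕ)) + (j : ℕ) := by
      have : (j : ℕ) < i := h
      omega
    have e1 : (t : ℝ) ^ (i : ℕ) - (t : ℝ) ^ (j : ℕ) =
        ((t : ℝ) ^ ((i : ℕ) - (j : ℕ)) - 1) * (t : ℝ) ^ (j : ℕ) := by
      nth_rewrite 1 [hi]
      rw [pow_add]
      ring
    rw [e1, mul_inv, mul_assoc, inv_mul_cancel₀ (pow_ne_zero _ ht0), mul_one]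

theorem exists_krb_ne_zero (k : Type*) [Field k] [CharZero k] (n : ℕ) :
    ∃ x : Fin n → k, Function.Injective x ∧ (krb x).det ≠ 0 := by
  have hcont : Continuous fun A : Matrix (Fin n) (Fin n) ℝ =>
      (Matrix.of fun i k : Fin n => ∑ j, (A ^ (k : ℕ)) i j).det := by
    refine Continuous.matrix_det ?_
    refine continuous_matrix fun i k => ?_
    simp only [Matrix.of_apply]
    refine continuous_finsetSum _ fun j _ => ?_
    exact (continuous_apply_apply i j).comp (continuous_pow (k : ℕ))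
  have h1 := (hcont.tendsto (amInf n)).comp (am_tendsto n)
  have h2 := h1.eventually_ne (amInf_krylov n)
  obtain ⟨t, ht1, ht2⟩ := (h2.and (eventually_ge_atTop 2)).exists
  have h3 : (krb (fun i : Fin n => (t : ℝ) ^ (i : ℕ))).det ≠ 0 := ht1
  have h4 : (krb (fun i : Fin n => (t : ℚ) ^ (i : ℕ))).det ≠ 0 := by
    intro h0
    apply h3
    have h5 := krb_det_map (Rat.castHom ℝ) (fun i : Fin n => (t : ℚ) ^ (i : ℕ))
    rw [h0, map_zero] at h5
    rw [← h5]
    congr 2
    funext i
    simp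
  refine ⟨fun i => (t : k) ^ (i : ℕ), ?_, ?_⟩
  · intro i j hij
    have h5 : ((t ^ (i : ℕ) : ℕ) : k) = ((t ^ (j : ℕ) : ℕ) : k) := by
      push_cast
      exact hij
    have h6 := Nat.cast_injective h5
    exact Fin.ext (Nat.pow_right_injective ht2 h6)
  · have h5 := krb_det_map (Rat.castHom k) (fun i : Fin n => (t : ℚ) ^ (i : ℕ))
    have h6 : ((Rat.castHom k) ∘ fun i : Fin n => (t : ℚ) ^ (i : ℕ)) =
        fun i : Fin n => (t : k) ^ (i : ℕ) := by
      funext i
      simp
    rw [h6] at h5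
    rw [h5]
    exact (_root_.map_ne_zero _).2 h4

end WeylRot
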