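import Pool.Agent.H.WeylRot.RDefs

/-! Module RTri: comparison of the two Krylov matrices. -/

open Polynomial Matrix

namespace WeylRot

open NoetherAn

variable {L : Type*} [Field L] {n : ℕ}

theorem rtri_sk_mulVec (x : Fin n → L) (v : Fin n → L) :
    (sk x).mulVec v = (2 : L) • (am x).mulVec v + (fun _ => ∑ j, v j) - v := by
  unfold sk
  rw [Matrix.sub_mulVec, Matrix.add_mulVec, Matrix.smul_mulVec, Matrix.one_mulVec]
  congr 2
  funext i
  unfold ones Matrix.mulVec dotProduct
  simp

theorem rtri_poly (x : Fin n → L) (k : ℕ) : ∃ p : L[X], p.natDegree ≤ k ∧ p.coeff k = 2 ^ k ∧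
    (sk x ^ k).mulVec (fun _ => 1) = (aeval (am x) p).mulVec (fun _ => 1) := by
  induction k with
  | zero => exact ⟨1, by simp, by simp, by simp⟩
  | succ k ih =>
    obtain ⟨p, hp1, hp2, hp3⟩ := ih
    refine ⟨C 2 * (X * p) + C (∑ j, (sk x ^ k).mulVec (fun _ => 1) j) - p, ?_, ?_, ?_⟩
    · refine (natDegree_sub_le _ _).trans (max_le ((natDegree_add_le _ _).trans
        (max_le ((natDegree_C_mul_le _ _).trans ((natDegree_mul_le).trans ?_)) ?_)) ?_)
      · have := natDegree_X_le (R := L)
        omega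
      · rw [natDegree_C]
        exact Nat.zero_le _
      · omega
    · rw [coeff_sub, coeff_add, coeff_C_mul, coeff_X_mul, coeff_C_succ, hp2,
        coeff_eq_zero_of_natDegree_lt (by omega : p.natDegree < k + 1)]
      ring
    · rw [pow_succ', ← Matrix.mulVec_mulVec, rtri_sk_mulVec, map_sub, map_add, map_mul, map_mul,
        aeval_X, aeval_C, aeval_C, Matrix.sub_mulVec, Matrix.add_mulVec, ← hp3]
      congr 1
      congr 1
      · rw [Algebra.algebraMap_eq_smul_one, smul_mul_assoc, one_mul, Matrix.smul_mulVec,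
          ← Matrix.mulVec_mulVec, ← hp3]
      · rw [Algebra.algebraMap_eq_smul_one, Matrix.smul_mulVec, Matrix.one_mulVec]
        funext i
        simp

theorem krs_det (x : Fin n → L) :
    (krs x).det = (∏ k : Fin n, (2 : L) ^ (k : ℕ)) * (krb x).det := by
  choose p hp1 hp2 hp3 using rtri_poly x
  have h1 : krs x = krb x * Matrix.of (fun j k : Fin n => (p k).coeff j) := by
    ext i k
    have h2 := congrFun (hp3 k) i
    rw [aeval_eq_sum_range' (lt_of_le_of_lt (hp1 k) k.2)] at h2
    rw [Matrix.mul_apply]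
    unfold krs krb
    simp only [Matrix.of_apply]
    have h3 : (sk x ^ (k : ℕ)).mulVec (fun _ => 1) i = ∑ j, (sk x ^ (k : ℕ)) i j := by
      simp [Matrix.mulVec, dotProduct]
    rw [h3] at h2
    rw [h2, Finset.sum_range]
    simp only [Matrix.mulVec, dotProduct, mul_one, Matrix.sum_apply, Matrix.smul_apply,
      smul_eq_mul]
    rw [Finset.sum_comm]
    refine Finset.sum_congr rfl fun j _ => ?_
    rw [Finset.sum_mul]
    refine Finset.sum_congr rfl fun l _ => ?_
    rw [mul_comm]
  rw [h1, Matrix.det_mul, mul_comm]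
  congr 1
  rw [Matrix.det_of_isUpperTriangular]
  · refine Finset.prod_congr rfl fun k _ => ?_
    rw [Matrix.of_apply, hp2]
  · intro i j hij
    rw [Matrix.of_apply]
    refine coeff_eq_zero_of_natDegree_lt (lt_of_le_of_lt (hp1 j) ?_)
    exact hij

end WeylRot
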