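import Pool.Agent.H.WeylRot.RDefs
import Pool.Agent.H.WeylRot.RSym
import Pool.Agent.H.WeylRot.RPoint
import Pool.Agent.H.WeylRot.RHank
import Pool.Agent.H.WeylRot.RTri
import Pool.Agent.H.MP_ffe2f0_al.NGeneric
import Pool.Agent.H.DiscRat.VGen

/-! Module RGen: algebraically independent elements are generic. -/

open Polynomial Matrix

namespace WeylRot

open NoetherAn

section Clear

variable {R : Type*} [CommRing R] {n : ℕ}

/-- `gD y * am y` without denominators -/
private def rgen_A (y : Fin n → R) : Matrix (Fin n) (Fin n) R := gS y * Matrix.diagonal y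

/-- the Krylov matrix of `rgen_A y` -/
private def rgen_N (y : Fin n → R) : Matrix (Fin n) (Fin n) R :=
  Matrix.of fun i k => ∑ j, (rgen_A y ^ (k : ℕ)) i j

variable {F : Type*} [Field F]

private theorem rgen_A_map (φ : R →+* F) (y : Fin n → R) (h : Function.Injective (φ ∘ y)) :
    (rgen_A y).map φ = φ (gD y) • am (φ ∘ y) := by
  unfold rgen_A am
  rw [Matrix.map_mul, gS_map φ y h, Matrix.smul_mul, Matrix.diagonal_map (map_zero φ)]
  rfl

private theorem rgen_N_eq (φ : R →+* F) (y : Fin n → R) (h : Function.Injective (φ ∘ y)) :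
    (rgen_N y).map φ = krb (φ ∘ y) * Matrix.diagonal fun k : Fin n => φ (gD y) ^ (k : ℕ) := by
  ext i k
  rw [Matrix.mul_diagonal]
  simp only [Matrix.map_apply, rgen_N, krb, Matrix.of_apply, map_sum]
  rw [Finset.sum_mul]
  refine Finset.sum_congr rfl fun j _ => ?_
  have h1 : ((rgen_A y) ^ (k : ℕ)).map φ = ((rgen_A y).map φ) ^ (k : ℕ) := by
    have := map_pow φ.mapMatrix (rgen_A y) (k : ℕ)
    simpa only [RingHom.mapMatrix_apply] using this
  have h2 : φ ((rgen_A y ^ (k : ℕ)) i j) = ((rgen_A y ^ (k : ℕ)).map φ) i j := rfl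
  rw [h2, h1, rgen_A_map φ y h, _root_.smul_pow, Matrix.smul_apply, smul_eq_mul, mul_comm]

private theorem rgen_ne_zero_iff (φ : R →+* F) (y : Fin n → R) (h : Function.Injective (φ ∘ y)) :
    (krb (φ ∘ y)).det ≠ 0 ↔ φ (rgen_N y).det ≠ 0 := by
  have h1 : φ (rgen_N y).det = ((rgen_N y).map φ).det := by
    rw [RingHom.map_det]
    rfl
  rw [h1, rgen_N_eq φ y h, Matrix.det_mul, Matrix.det_diagonal]
  have h2 : ∏ k : Fin n, φ (gD y) ^ (k : ℕ) ≠ 0 :=
    Finset.prod_ne_zero_iff.2 fun k _ => pow_ne_zero _ (gD_ne_zero φ y h)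
  constructor
  · intro h3
    exact mul_ne_zero h3 h2
  · intro h3
    exact left_ne_zero_of_mul h3

end Clear

private theorem rgen_vr_ne_zero (k : Type*) [Field k] [CharZero k] (n : ℕ) :
    (krb (vr k n)).det ≠ 0 := by
  obtain ⟨x, hx, hdet⟩ := exists_krb_ne_zero k n
  set y : Fin n → MvPolynomial (Fin n) k := fun i => MvPolynomial.X i with hy
  set φ2 : MvPolynomial (Fin n) k →+* k :=
    (MvPolynomial.aeval x : MvPolynomial (Fin n) k →ₐ[k] k).toRingHom with hφ2
  have e2 : φ2 ∘ y = x := by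
    funext i
    simp [hφ2, hy]
  have h2 := rgen_ne_zero_iff φ2 y (by rw [e2]; exact hx)
  rw [e2] at h2
  have h3 : (rgen_N y).det ≠ 0 := fun e => h2.1 hdet (by rw [e, map_zero])
  set φ1 : MvPolynomial (Fin n) k →+* RatField k n :=
    algebraMap (MvPolynomial (Fin n) k) (RatField k n) with hφ1
  have e1 : φ1 ∘ y = vr k n := rfl
  have h1 := rgen_ne_zero_iff φ1 y (by rw [e1]; exact vr_injective k n)
  rw [e1] at h1
  refine h1.2 fun e => h3 ?_
  exact (map_eq_zero_iff φ1 (IsFractionRing.injective (MvPolynomial (Fin n) k) (RatField k n))).1 e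

theorem krb_ne_zero_of_algInd {k Ω : Type*} [Field k] [CharZero k] [Field Ω] [Algebra k Ω]
    {n : ℕ} {x : Fin n → Ω} (hx : AlgebraicIndependent k x) :
    Function.Injective x ∧ (krb x).det ≠ 0 ∧ (krs x).det ≠ 0 ∧ hkb x ≠ 0 ∧ hks x ≠ 0 := by
  have hΩ : CharZero Ω := charZero_of_injective_algebraMap (algebraMap k Ω).injective
  have hinj : Function.Injective (MvPolynomial.aeval (R := k) x) := hx
  have hx1 : Function.Injective x := hx.injective
  set φ0 : MvPolynomial (Fin n) k →+* Ω :=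
    (MvPolynomial.aeval x : MvPolynomial (Fin n) k →ₐ[k] Ω).toRingHom with hφ0
  have hφ0i : Function.Injective φ0 := hinj
  set φ : RatField k n →+* Ω := IsFractionRing.lift (A := MvPolynomial (Fin n) k)
    (K := RatField k n) hφ0i with hφ
  have hφx : φ ∘ vr k n = x := by
    funext i
    show φ (vr k n i) = x i
    unfold vr
    rw [hφ, IsFractionRing.lift_algebraMap]
    show MvPolynomial.aeval x (MvPolynomial.X i) = x i
    rw [MvPolynomial.aeval_X]
  have hφi : Function.Injective φ := φ.injective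
  have hb : (krb x).det ≠ 0 := by
    rw [← hφx, krb_det_map]
    intro h
    exact rgen_vr_ne_zero k n (hφi (by rw [h, map_zero]))
  have hs : (krs x).det ≠ 0 := by
    rw [krs_det]
    exact mul_ne_zero (Finset.prod_ne_zero_iff.2 fun i _ => pow_ne_zero _ two_ne_zero) hb
  refine ⟨hx1, hb, hs, ?_, ?_⟩
  · intro h
    have h1 := krb_det_sq x
    rw [h] at h1
    have h2 : (∏ i, x i) ≠ 0 := Finset.prod_ne_zero_iff.2 fun i _ => hx.ne_zero i
    have h3 : (∏ i, x i) * (krb x).det ^ 2 ≠ 0 := mul_ne_zero h2 (pow_ne_zero _ hb)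
    apply h3
    rw [h1]
    ring
  · intro h
    have h1 := krs_det_sq hx1
    rw [h] at h1
    apply pow_ne_zero 2 hs
    rw [h1]
    ring

end WeylRot
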