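import Pool.Agent.H.WeylRot.RDefs
import Pool.Agent.H.WeylRot.RRank
import Pool.Agent.H.WeylRot.RComm
import Pool.Agent.H.MP_ffe2f0_al.NMem
import Pool.Agent.H.MP_ffe2f0_al.NMain

/-! Module RMem: the elementary symmetric functions lie in the field of the generators. -/

open Polynomial Matrix

namespace WeylRot

open NoetherAn

variable {L : Type*} [Field L] [CharZero L] {n : ℕ}

omit [CharZero L] in
theorem rmem_nm_rec (x : Fin n → L) {a : ℕ} (ha : n ≤ a) :
    nm x a = -∑ i ∈ Finset.range n, (am x).charpoly.coeff i * nm x (a - n + i) := by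
  unfold nm
  conv_lhs => rw [NMem_CH (am x) ha]
  rw [sumEnt_neg, sumEnt_sum]
  congr 1
  refine Finset.sum_congr rfl fun i _ => ?_
  unfold sumEnt
  simp only [Matrix.smul_apply, smul_eq_mul, Finset.mul_sum]

omit [CharZero L] in
theorem rmem_tm_rec (x : Fin n → L) {a : ℕ} (ha : n ≤ a) :
    tm x a = -∑ i ∈ Finset.range n, (am x).charpoly.coeff i * tm x (a - n + i) := by
  unfold tm
  rw [NMem_CH (am x) ha]
  simp only [Matrix.neg_apply, Matrix.sum_apply, Matrix.smul_apply, smul_eq_mul,
    mul_neg, Finset.sum_neg_distrib, Finset.mul_sum]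
  congr 1
  rw [Finset.sum_comm]
  rw [Finset.sum_comm (s := Finset.range n)]
  rw [Finset.sum_comm]
  refine Finset.sum_congr rfl fun i _ => ?_
  rw [Finset.sum_comm]
  refine Finset.sum_congr rfl fun j _ => ?_
  refine Finset.sum_congr rfl fun l _ => ?_
  ring

omit [CharZero L] in
/-- the coefficients of `p.comp (X - C 1)` lie in every subfield containing the coefficients
of `p` -/
theorem rmem_comp_coeff (p : L[X]) (K : Subfield L) (hp : ∀ j, p.coeff j ∈ K) (j : ℕ) :
    (p.comp (X - C 1)).coeff j ∈ K := by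
  have h : p ∈ Polynomial.lifts K.subtype := by
    rw [Polynomial.lifts_iff_coeff_lifts]
    intro i
    exact ⟨⟨p.coeff i, hp i⟩, rfl⟩
  obtain ⟨q, hq⟩ := (Polynomial.mem_lifts p).1 h
  have h2 : (X - C 1 : L[X]) = (X - C 1 : K[X]).map K.subtype := by
    simp
  rw [← hq, h2, ← Polynomial.map_comp, Polynomial.coeff_map]
  exact ((q.comp (X - C 1)).coeff j).2

theorem nm_mem {x : Fin n → L} (hx : Function.Injective x) (K : Subfield L)
    (hK : ∀ j, (am x).charpoly.coeff j ∈ K) (a : ℕ) : nm x a ∈ K := by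
  haveI : Infinite L := CharZero.infinite L
  induction a using Nat.strong_induction_on with
  | _ a ih =>
    rcases lt_or_ge a n with ha | ha
    · have h := rank_coeff (am x) ha
      rw [Finset.sum_range_succ, Nat.sub_add_cancel ha.le, NMem_coeff_top, one_mul] at h
      have h1 : nm x a = (am x).charpoly.coeff (n - 1 - a) -
          (am x + ones n L).charpoly.coeff (n - 1 - a) -
          ∑ b ∈ Finset.range a, (am x).charpoly.coeff (n - a + b) * sumEnt (am x ^ b) :=
        eq_sub_of_add_eq' h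
      rw [h1, am_add_ones_charpoly hx]
      refine sub_mem (sub_mem (hK _) (rmem_comp_coeff _ K hK _)) (sum_mem fun b hb => ?_)
      exact mul_mem (hK _) (ih b (Finset.mem_range.1 hb))
    · rw [rmem_nm_rec x ha]
      refine neg_mem (sum_mem fun i hi => mul_mem (hK _) (ih _ ?_))
      have := Finset.mem_range.1 hi
      omega

theorem tm_mem (x : Fin n → L) (K : Subfield L)
    (hK : ∀ j, (am x).charpoly.coeff j ∈ K)
    (hc : ∀ l, 2 * l < n → tm x (2 * l) ∈ K) (a : ℕ) : tm x a ∈ K := by
  induction a using Nat.strong_induction_on with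
  | _ a ih =>
    rcases lt_or_ge a n with ha | ha
    · rcases Nat.even_or_odd' a with ⟨l, hl | hl⟩
      · rw [hl]
        exact hc l (by omega)
      · rw [tm_odd x ⟨l, hl⟩]
        exact zero_mem K
    · rw [rmem_tm_rec x ha]
      refine neg_mem (sum_mem fun i hi => mul_mem (hK _) (ih _ ?_))
      have := Finset.mem_range.1 hi
      omega

theorem rmem_gram {x : Fin n → L} (hx : Function.Injective x) (K : Subfield L)
    (hK : ∀ j, (am x).charpoly.coeff j ∈ K) (j : ℕ) :
    ∀ k : ℕ, sumEnt (((am x) ^ j)ᵀ * am x ^ k) ∈ K := by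
  induction j with
  | zero =>
    intro k
    rw [pow_zero, Matrix.transpose_one, Matrix.one_mul]
    exact nm_mem hx K hK k
  | succ j ih =>
    intro k
    rw [nm_rec hx]
    exact sub_mem (sub_mem (ih k) (mul_mem (nm_mem hx K hK _) (nm_mem hx K hK _))) (ih (k + 1))

theorem coeff_prod_mem_b {x : Fin n → L} (hx : Function.Injective x) (hN : (krb x).det ≠ 0)
    (K : Subfield L) (hK : ∀ j, (am x).charpoly.coeff j ∈ K)
    (hc : ∀ l, 2 * l < n → tm x (2 * l) ∈ K) (j : ℕ) :
    (∏ i, (X - C (x i))).coeff j ∈ K := by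
  set N := krb x with hNdef
  have hA : ∀ j k : Fin n, (Nᵀ * (1 : Matrix (Fin n) (Fin n) L) * N) j k ∈ K := by
    intro j k
    rw [hNdef, Matrix.mul_one, gram_nm]
    exact rmem_gram hx K hK _ _
  have hB : ∀ j k : Fin n, (Nᵀ * diagonal x * N) j k ∈ K := by
    intro j k
    rw [hNdef, gram_tm]
    exact mul_mem (pow_mem (neg_mem (one_mem K)) _) (tm_mem x K hK hc _)
  set A' : Matrix (Fin n) (Fin n) K := Matrix.of fun j k => ⟨_, hA j k⟩ with hA'
  set B' : Matrix (Fin n) (Fin n) K := Matrix.of fun j k => ⟨_, hB j k⟩ with hB'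
  have hAm : A'.map K.subtype = Nᵀ * (1 : Matrix (Fin n) (Fin n) L) * N := by
    ext a b; rfl
  have hBm : B'.map K.subtype = Nᵀ * diagonal x * N := by
    ext a b; rfl
  have hdet : A'.det ≠ 0 := by
    intro h0
    have h1 : K.subtype A'.det = (A'.map K.subtype).det := RingHom.map_det _ _
    rw [h0, map_zero, hAm, Matrix.mul_one, det_mul, det_transpose] at h1
    exact mul_ne_zero hN hN h1.symm
  set M' : Matrix (Fin n) (Fin n) K := A'⁻¹ * B' with hM'
  have hAM : A' * M' = B' := by
    rw [hM', ← Matrix.mul_assoc, Matrix.mul_nonsing_inv _ (IsUnit.mk0 _ hdet), Matrix.one_mul]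
  set M : Matrix (Fin n) (Fin n) L := M'.map K.subtype with hM
  have h2 : (Nᵀ * (1 : Matrix (Fin n) (Fin n) L) * N) * M = Nᵀ * diagonal x * N := by
    rw [← hAm, ← hBm, hM, ← Matrix.map_mul, hAM]
  have hNt : IsUnit (Nᵀ).det := by rw [det_transpose]; exact IsUnit.mk0 _ hN
  have h3 : N * M = diagonal x * N := by
    rw [Matrix.mul_one, Matrix.mul_assoc, Matrix.mul_assoc] at h2
    have h4 := congrArg (fun Z => (Nᵀ)⁻¹ * Z) h2
    simp only [← Matrix.mul_assoc, Matrix.nonsing_inv_mul _ hNt, Matrix.one_mul] at h4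
    exact h4
  have hNu : IsUnit N := (Matrix.isUnit_iff_isUnit_det N).2 (IsUnit.mk0 _ hN)
  obtain ⟨u, hu⟩ := hNu
  have h5 : M = (u⁻¹).val * diagonal x * u.val := by
    rw [Matrix.mul_assoc, hu, ← h3, ← hu, ← Matrix.mul_assoc, Units.inv_mul, Matrix.one_mul]
  have h6 : M.charpoly = ∏ i, (X - C (x i)) := by
    rw [h5, Matrix.coe_units_inv, Matrix.charpoly_units_conj', Matrix.charpoly_diagonal]
  rw [← h6, hM, Matrix.charpoly_map, Polynomial.coeff_map]
  exact (M'.charpoly.coeff j).2

end WeylRot
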