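import Pool.Agent.H.WeylRot.RStat
import Pool.Agent.H.WeylRot.RMem
import Pool.Agent.H.WeylRot.RGen
import Pool.Agent.H.DiscRat.VRat

/-! Module RD: the function field of `c * f(0) = y ^ 2`, `d * disc (f) = z ^ 2` is purely
transcendental. -/

open Polynomial

namespace WeylRot

open AnWA DiscRat NoetherAn

/-- the generators -/
noncomputable def dgen {L : Type*} [Field L] {n : ℕ} (x : Fin n → L) (w₁ w₂ : L) : Fin n → L :=
  fun i => if (i : ℕ) = 0 then w₁ else if (i : ℕ) = 1 then w₂
    else if (i : ℕ) < n / 2 + n % 2 then (am x).charpoly.coeff (2 * (i : ℕ) - n % 2)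
    else tm x (2 * ((i : ℕ) - n / 2 - n % 2))

section Gens

variable {k Ω : Type*} [Field k] [Field Ω] [Algebra k Ω] {n : ℕ}

theorem RD_mem (x : Fin n → Ω) (w₁ w₂ : Ω) (i : Fin n) :
    dgen x w₁ w₂ i ∈ IntermediateField.adjoin k (Set.range (dgen x w₁ w₂)) :=
  IntermediateField.subset_adjoin _ _ (Set.mem_range_self _)

theorem RD_w₁_mem (hn : 3 ≤ n) (x : Fin n → Ω) (w₁ w₂ : Ω) :
    w₁ ∈ IntermediateField.adjoin k (Set.range (dgen x w₁ w₂)) := by
  have h : dgen x w₁ w₂ ⟨0, by omega⟩ = w₁ := by simp [dgen]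
  have h2 := RD_mem (k := k) x w₁ w₂ ⟨0, by omega⟩
  rwa [h] at h2

theorem RD_w₂_mem (hn : 3 ≤ n) (x : Fin n → Ω) (w₁ w₂ : Ω) :
    w₂ ∈ IntermediateField.adjoin k (Set.range (dgen x w₁ w₂)) := by
  have h : dgen x w₁ w₂ ⟨1, by omega⟩ = w₂ := by simp [dgen]
  have h2 := RD_mem (k := k) x w₁ w₂ ⟨1, by omega⟩
  rwa [h] at h2

theorem RD_coeff_n (x : Fin n → Ω) : (am x).charpoly.coeff n = 1 := NMem_coeff_top _

/-- all coefficients of the characteristic polynomial except one -/
theorem RD_charpoly_mem_aux [CharZero Ω] (hn : 3 ≤ n) (x : Fin n → Ω) (w₁ w₂ : Ω)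
    (hdl : dl x ∈ IntermediateField.adjoin k (Set.range (dgen x w₁ w₂)))
    (j : ℕ) (hj0 : j ≠ 2 - n % 2) :
    (am x).charpoly.coeff j ∈ IntermediateField.adjoin k (Set.range (dgen x w₁ w₂)) := by
  set K1 := IntermediateField.adjoin k (Set.range (dgen x w₁ w₂)) with hK1
  have hdeg : (am x).charpoly.natDegree = n := by
    rw [Matrix.charpoly_natDegree_eq_dim]; simp
  rcases lt_trichotomy j n with hj | hj | hj
  · by_cases hodd : Odd (n + j)
    · rw [am_charpoly_coeff_odd _ hodd]; exact K1.zero_mem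
    · rw [Nat.not_odd_iff_even] at hodd
      have hmod : j % 2 = n % 2 := by
        have := Nat.even_iff.1 hodd
        omega
      rcases Nat.eq_zero_or_pos j with h0 | h0
      · have hn2 : n % 2 = 0 := by omega
        rw [dl, if_pos hn2] at hdl
        rw [h0]
        exact hdl
      · have hg : dgen x w₁ w₂ ⟨(j + n % 2) / 2, by omega⟩ = (am x).charpoly.coeff j := by
          simp only [dgen]
          rw [if_neg (by omega), if_neg (by omega), if_pos (by omega)]
          congr 1
          omega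
        rw [← hg]
        exact RD_mem x w₁ w₂ _
  · rw [hj, RD_coeff_n]
    exact K1.one_mem
  · rw [Polynomial.coeff_eq_zero_of_natDegree_lt (by rw [hdeg]; exact hj)]
    exact K1.zero_mem

theorem RD_charpoly_mem [CharZero Ω] (hn : 3 ≤ n) (x : Fin n → Ω) (w₁ w₂ : Ω)
    (hdl : dl x ∈ IntermediateField.adjoin k (Set.range (dgen x w₁ w₂)))
    (hql : ql x ∈ IntermediateField.adjoin k (Set.range (dgen x w₁ w₂))) (j : ℕ) :
    (am x).charpoly.coeff j ∈ IntermediateField.adjoin k (Set.range (dgen x w₁ w₂)) := by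
  set K1 := IntermediateField.adjoin k (Set.range (dgen x w₁ w₂)) with hK1
  by_cases hj0 : j = 2 - n % 2
  · have h2mem : (2 : Ω) ∈ K1 := by
      have := natCast_mem K1 2
      simpa using this
    have hmem : j ∈ Finset.range (n + 1) := Finset.mem_range.2 (by omega)
    have h1 : ql x = 2 ^ (n - j) * (am x).charpoly.coeff j +
        ∑ i ∈ (Finset.range (n + 1)).erase j, 2 ^ (n - i) * (am x).charpoly.coeff i := by
      rw [ql]
      exact (Finset.add_sum_erase _
        (fun i => (2 : Ω) ^ (n - i) * (am x).charpoly.coeff i) hmem).symm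
    have hrest : ∑ i ∈ (Finset.range (n + 1)).erase j,
        (2 : Ω) ^ (n - i) * (am x).charpoly.coeff i ∈ K1 := by
      refine sum_mem fun i hi => K1.mul_mem (pow_mem h2mem _) ?_
      exact RD_charpoly_mem_aux hn x w₁ w₂ hdl i (by
        rw [← hj0]; exact (Finset.mem_erase.1 hi).1)
    have h3 : (am x).charpoly.coeff j = ((2 : Ω) ^ (n - j))⁻¹ * (ql x -
        ∑ i ∈ (Finset.range (n + 1)).erase j, (2 : Ω) ^ (n - i) * (am x).charpoly.coeff i) := by
      rw [h1]
      have h4 : (2 : Ω) ^ (n - j) ≠ 0 := pow_ne_zero _ two_ne_zero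
      field_simp
      ring
    rw [h3]
    exact K1.mul_mem (K1.inv_mem (pow_mem h2mem _)) (K1.sub_mem hql hrest)
  · exact RD_charpoly_mem_aux hn x w₁ w₂ hdl j hj0

theorem RD_tm_mem [CharZero Ω] (hn : 3 ≤ n) (x : Fin n → Ω) (w₁ w₂ : Ω)
    (hdl : dl x ∈ IntermediateField.adjoin k (Set.range (dgen x w₁ w₂)))
    (hql : ql x ∈ IntermediateField.adjoin k (Set.range (dgen x w₁ w₂))) (l : ℕ)
    (hl : 2 * l < n) :
    tm x (2 * l) ∈ IntermediateField.adjoin k (Set.range (dgen x w₁ w₂)) := by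
  set K1 := IntermediateField.adjoin k (Set.range (dgen x w₁ w₂)) with hK1
  have hgen : ∀ l, l < n / 2 → tm x (2 * l) ∈ K1 := by
    intro l hl
    have hg : dgen x w₁ w₂ ⟨n / 2 + n % 2 + l, by omega⟩ = tm x (2 * l) := by
      simp only [dgen]
      rw [if_neg (by omega), if_neg (by omega), if_neg (by omega)]
      congr 2
      omega
    rw [← hg]
    exact RD_mem x w₁ w₂ _
  rcases lt_or_ge l (n / 2) with hlt | hge
  · exact hgen l hlt
  · have hn2 : n % 2 ≠ 0 := by omega
    have hl2 : l = n / 2 := by omega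
    have h1 := hdl
    rw [dl, if_neg hn2, Finset.sum_range_succ] at h1
    have h2 : 2 * (n / 2) + 1 = n := by omega
    rw [h2, RD_coeff_n, one_mul] at h1
    have h3 : ∑ i ∈ Finset.range (n / 2), (am x).charpoly.coeff (2 * i + 1) * tm x (2 * i) ∈ K1 :=
      sum_mem fun i hi => K1.mul_mem (RD_charpoly_mem hn x w₁ w₂ hdl hql _)
        (hgen i (Finset.mem_range.1 hi))
    rw [hl2]
    have h4 := K1.sub_mem h1 h3
    rwa [add_sub_cancel_left] at h4

/-- all coefficients of `∏ (X - x i)` lie in the field of the generators -/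
theorem RD_coeff_mem [CharZero Ω] (hn : 3 ≤ n) {x : Fin n → Ω} (hx : Function.Injective x)
    (hkrb : (krb x).det ≠ 0) (w₁ w₂ : Ω)
    (hdl : dl x ∈ IntermediateField.adjoin k (Set.range (dgen x w₁ w₂)))
    (hql : ql x ∈ IntermediateField.adjoin k (Set.range (dgen x w₁ w₂))) (j : ℕ) :
    (∏ i, (X - C (x i))).coeff j ∈ IntermediateField.adjoin k (Set.range (dgen x w₁ w₂)) :=
  coeff_prod_mem_b hx hkrb (IntermediateField.adjoin k (Set.range (dgen x w₁ w₂))).toSubfield
    (fun j => RD_charpoly_mem hn x w₁ w₂ hdl hql j)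
    (fun l hl => RD_tm_mem hn x w₁ w₂ hdl hql l hl) j

end Gens

/-- `V * hkb / krb` is fixed -/
theorem RD_fixed₁ {L : Type*} [Field L] {n : ℕ} {x : Fin n → L} (τ : L →+* L)
    {π : Equiv.Perm (Fin n)} (h : (τ : L → L) ∘ x = x ∘ π) :
    τ ((Matrix.vandermonde x).det * hkb x / (krb x).det) =
      (Matrix.vandermonde x).det * hkb x / (krb x).det := by
  rw [map_div₀, map_mul, ← VRat_vdm_map, ← krb_det_map, ← hkb_map, h, VRat_vdm_comp,
    krb_det_comp, hkb_comp, mul_assoc]
  have hs : (((Equiv.Perm.sign π : ℤˣ) : ℤ) : L) ≠ 0 := by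
    rcases Int.units_eq_one_or (Equiv.Perm.sign π) with h | h <;> rw [h] <;> simp
  exact mul_div_mul_left _ _ hs

/-- `V * hks / krs` is fixed -/
theorem RD_fixed₂ {L : Type*} [Field L] {n : ℕ} {x : Fin n → L} (τ : L →+* L)
    {π : Equiv.Perm (Fin n)} (h : (τ : L → L) ∘ x = x ∘ π) :
    τ ((Matrix.vandermonde x).det * hks x / (krs x).det) =
      (Matrix.vandermonde x).det * hks x / (krs x).det := by
  rw [map_div₀, map_mul, ← VRat_vdm_map, ← krs_det_map, ← hks_map, h, VRat_vdm_comp,
    krs_det_comp, hks_comp, mul_assoc]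
  have hs : (((Equiv.Perm.sign π : ℤˣ) : ℤ) : L) ≠ 0 := by
    rcases Int.units_eq_one_or (Equiv.Perm.sign π) with h | h <;> rw [h] <;> simp
  exact mul_div_mul_left _ _ hs

/-- the statement inside an algebraic closure -/
theorem RD_core {k Ω : Type*} [Field k] [CharZero k] [Field Ω] [Algebra k Ω] [CharZero Ω]
    [IsAlgClosed Ω] {n : ℕ} (hn : 3 ≤ n) {c d : k} (hc : c ≠ 0) (hd : d ≠ 0) {a : Fin n → Ω}
    {y z : Ω} (ha : AlgebraicIndependent k a)
    (hy : algebraMap k Ω c * (monicPoly a).eval 0 = y ^ 2)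
    (hz : algebraMap k Ω d * (monicPoly a).discr = z ^ 2)
    [Algebra.IsAlgebraic (IntermediateField.adjoin k (Set.range (pt2 a y z))) Ω] :
    ∃ t : Fin n → Ω, AlgebraicIndependent k t ∧
      IntermediateField.adjoin k (Set.range t)
        = IntermediateField.adjoin k (Set.range (pt2 a y z)) := by
  obtain ⟨x, hax⟩ := VRat_roots (VRat_monic a).1 (VRat_monic a).2
  have hai : ∀ i, a i = (rootPoly x).coeff i := fun i => by
    rw [← hax, VRat_monicPoly_coeff]
  -- `x` is algebraically independent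
  have hxi : AlgebraicIndependent k x := by
    refine algInd_of ha fun i => ?_
    have h1 : a i ∈ IntermediateField.adjoin k (Set.range x) := by
      rw [hai i]
      exact VRat_coeff_rootPoly x (IntermediateField.adjoin k (Set.range x)).toSubfield
        (fun i => IntermediateField.subset_adjoin _ _ (Set.mem_range_self i)) i
    exact isAlgebraic_algebraMap (⟨a i, h1⟩ : IntermediateField.adjoin k (Set.range x))
  obtain ⟨hinj, hkrb, hkrs, hhkb, hhks⟩ := krb_ne_zero_of_algInd hxi
  set V := (Matrix.vandermonde x).det with hV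
  have hV0 : V ≠ 0 := Matrix.det_vandermonde_ne_zero_iff.2 hinj
  have hdisc : (monicPoly a).discr = V ^ 2 := by rw [hax, discr_rootPoly]
  have hprod : (monicPoly a).eval 0 = (-1) ^ n * ∏ i, x i := by
    rw [hax, rootPoly, eval_prod]
    simp only [eval_sub, eval_X, eval_C, zero_sub]
    rw [Finset.prod_neg, Finset.card_univ, Fintype.card_fin]
  have hx0 : ∏ i, x i ≠ 0 := Finset.prod_ne_zero_iff.2 fun i _ => hxi.ne_zero i
  have hc' : algebraMap k Ω c ≠ 0 := by
    rw [Ne, map_eq_zero]; exact hc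
  have hd' : algebraMap k Ω d ≠ 0 := by
    rw [Ne, map_eq_zero]; exact hd
  have hsgn : ((-1 : Ω)) ^ n ≠ 0 := pow_ne_zero _ (neg_ne_zero.2 one_ne_zero)
  rw [hdisc] at hz
  rw [hprod] at hy
  have hy0 : y ≠ 0 := by
    rintro rfl
    have : algebraMap k Ω c * ((-1) ^ n * ∏ i, x i) ≠ 0 :=
      mul_ne_zero hc' (mul_ne_zero hsgn hx0)
    exact this (by rw [hy]; simp)
  have hz0 : z ≠ 0 := by
    rintro rfl
    have : algebraMap k Ω d * V ^ 2 ≠ 0 := mul_ne_zero hd' (pow_ne_zero _ hV0)
    exact this (by rw [hz]; simp)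
  set F' := IntermediateField.adjoin k (Set.range (pt2 a y z)) with hF'
  set θ₁ : Ω := V * hkb x / (krb x).det with hθ₁
  set θ₂ : Ω := V * hks x / (krs x).det with hθ₂
  have hθ₁0 : θ₁ ≠ 0 := div_ne_zero (mul_ne_zero hV0 hhkb) hkrb
  have hθ₂0 : θ₂ ≠ 0 := div_ne_zero (mul_ne_zero hV0 hhks) hkrs
  set w₁ : Ω := y * z / θ₁ with hw₁
  set w₂ : Ω := z / θ₂ with hw₂
  set K1 := IntermediateField.adjoin k (Set.range (dgen x w₁ w₂)) with hK1
  have hw₁K : w₁ ∈ K1 := RD_w₁_mem hn x w₁ w₂
  have hw₂K : w₂ ∈ K1 := RD_w₂_mem hn x w₁ w₂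
  -- the two special elements
  have hdl : dl x ∈ K1 := by
    have h1 : algebraMap k Ω (c * d) * ((-1) ^ n * dl x) = w₁ ^ 2 := by
      have h2 := krb_det_sq x
      rw [hw₁, hθ₁, div_pow, mul_pow, ← hy, ← hz, map_mul]
      have h3 : dl x = (∏ i, x i) * (krb x).det ^ 2 / hkb x ^ 2 := by
        rw [h2]; field_simp
      rw [h3]
      field_simp
    have h4 : dl x = algebraMap k Ω (c * d)⁻¹ * ((-1) ^ n * w₁ ^ 2) := by
      rw [← h1, map_inv₀]
      have h5 : algebraMap k Ω (c * d) ≠ 0 := by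
        rw [map_mul]; exact mul_ne_zero hc' hd'
      have h6 : ((-1 : Ω)) ^ n * (-1) ^ n = 1 := by rw [← mul_pow]; simp
      field_simp
      linear_combination (- dl x) * h6
    rw [h4]
    exact K1.mul_mem (K1.algebraMap_mem _)
      (K1.mul_mem (pow_mem (K1.neg_mem K1.one_mem) _) (pow_mem hw₁K 2))
  have hql : ql x ∈ K1 := by
    have h1 : algebraMap k Ω d * ql x = w₂ ^ 2 := by
      have h2 := krs_det_sq hinj
      rw [hw₂, hθ₂, div_pow, ← hz]
      have h3 : ql x = (krs x).det ^ 2 / hks x ^ 2 := by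
        rw [h2]; field_simp
      rw [h3]
      field_simp
    have h4 : ql x = algebraMap k Ω d⁻¹ * w₂ ^ 2 := by
      rw [← h1, map_inv₀]
      field_simp
    rw [h4]
    exact K1.mul_mem (K1.algebraMap_mem _) (pow_mem hw₂K 2)
  have hcoK : ∀ j, (∏ i, (X - C (x i))).coeff j ∈ K1 := RD_coeff_mem hn hinj hkrb w₁ w₂ hdl hql
  have haK : ∀ i, a i ∈ K1 := fun i => by
    rw [hai i]; exact hcoK i
  -- `Ω` is algebraic over `K1`
  have hysq : y ^ 2 ∈ K1 := by
    rw [← hy, ← hprod]
    refine K1.mul_mem (K1.algebraMap_mem _) ?_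
    rw [← Polynomial.coeff_zero_eq_eval_zero, hax]
    exact hcoK 0
  have hzsq : z ^ 2 ∈ K1 := by
    rw [← hz, ← hdisc]
    have h1 : (monicPoly a).discr ∈ K1 := by
      have h2 := discr_monicPoly_map (algebraMap K1 Ω) (fun i => (⟨a i, haK i⟩ : K1))
      have h3 : (fun i => algebraMap K1 Ω (⟨a i, haK i⟩ : K1)) = a := rfl
      rw [h3] at h2
      rw [h2]
      exact SetLike.coe_mem _
    exact K1.mul_mem (K1.algebraMap_mem _) h1
  have halg : Algebra.IsAlgebraic K1 Ω := by
    refine VRat_alg_trans K1 F' ?_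
    intro u hu
    have hle : F' ≤ (algebraicClosure K1 Ω).restrictScalars k := by
      rw [hF', IntermediateField.adjoin_le_iff]
      rintro _ ⟨o, rfl⟩
      rw [SetLike.mem_coe, IntermediateField.mem_restrictScalars, mem_algebraicClosure_iff]
      rcases o with _ | _ | i
      · have h1 : IsAlgebraic K1 (z ^ 2) :=
          isAlgebraic_algebraMap (⟨z ^ 2, hzsq⟩ : K1)
        exact h1.of_pow (by norm_num)
      · have h1 : IsAlgebraic K1 (y ^ 2) :=
          isAlgebraic_algebraMap (⟨y ^ 2, hysq⟩ : K1)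
        exact h1.of_pow (by norm_num)
      · exact isAlgebraic_algebraMap (⟨a i, haK i⟩ : K1)
    have h1 := hle hu
    rwa [IntermediateField.mem_restrictScalars, mem_algebraicClosure_iff] at h1
  -- `y`, `z` lie in `K1`
  have hθ₁K : θ₁ ∈ K1 := by
    refine mem_of_fixed K1 _ fun τ => ?_
    obtain ⟨π, hπ⟩ := exists_perm K1 x hinj hcoK τ
    exact RD_fixed₁ (τ : Ω →+* Ω) hπ
  have hθ₂K : θ₂ ∈ K1 := by
    refine mem_of_fixed K1 _ fun τ => ?_
    obtain ⟨π, hπ⟩ := exists_perm K1 x hinj hcoK τ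
    exact RD_fixed₂ (τ : Ω →+* Ω) hπ
  have hzK : z ∈ K1 := by
    have h1 : z = w₂ * θ₂ := by
      rw [hw₂]
      field_simp
    rw [h1]
    exact K1.mul_mem hw₂K hθ₂K
  have hyK : y ∈ K1 := by
    have h1 : y = w₁ * θ₁ / z := by
      rw [hw₁]
      field_simp
    rw [h1]
    exact K1.div_mem (K1.mul_mem hw₁K hθ₁K) hzK
  -- the generators lie in `F'`
  have haF : ∀ i, a i ∈ F' := fun i =>
    IntermediateField.subset_adjoin _ _ ⟨some (some i), rfl⟩
  have hyF : y ∈ F' := IntermediateField.subset_adjoin _ _ ⟨some none, rfl⟩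
  have hzF : z ∈ F' := IntermediateField.subset_adjoin _ _ ⟨none, rfl⟩
  have hcoF : ∀ j, (∏ i, (X - C (x i))).coeff j ∈ F' := fun j => by
    have h1 : (∏ i, (X - C (x i))) = monicPoly a := hax.symm
    rw [h1]
    exact VRat_coeff_monicPoly a F'.toSubfield haF j
  have htF : ∀ i, dgen x w₁ w₂ i ∈ F' := by
    intro i
    unfold dgen
    split_ifs with h1 h2 h3
    · have h3 : θ₁ ∈ F' := by
        refine mem_of_fixed F' _ fun τ => ?_
        obtain ⟨π, hπ⟩ := exists_perm F' x hinj hcoF τ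
        exact RD_fixed₁ (τ : Ω →+* Ω) hπ
      exact F'.div_mem (F'.mul_mem hyF hzF) h3
    · have h3 : θ₂ ∈ F' := by
        refine mem_of_fixed F' _ fun τ => ?_
        obtain ⟨π, hπ⟩ := exists_perm F' x hinj hcoF τ
        exact RD_fixed₂ (τ : Ω →+* Ω) hπ
      exact F'.div_mem hzF h3
    · refine mem_of_fixed F' _ fun τ => ?_
      obtain ⟨π, hπ⟩ := exists_perm F' x hinj hcoF τ
      have h3 := am_charpoly_map (τ : Ω →+* Ω) x
      rw [hπ, am_charpoly_comp] at h3
      conv_rhs => rw [h3, coeff_map]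
      rfl
    · refine mem_of_fixed F' _ fun τ => ?_
      obtain ⟨π, hπ⟩ := exists_perm F' x hinj hcoF τ
      have h3 := tm_map (τ : Ω →+* Ω) x (2 * ((i : ℕ) - n / 2 - n % 2))
      rw [hπ, tm_comp] at h3
      exact h3.symm
  have heq : K1 = F' := by
    apply le_antisymm
    · rw [hK1, IntermediateField.adjoin_le_iff]
      rintro _ ⟨i, rfl⟩
      exact htF i
    · rw [hF', IntermediateField.adjoin_le_iff]
      rintro _ ⟨o, rfl⟩
      rcases o with _ | _ | i
      · exact hzK
      · exact hyK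
      · exact haK i
  refine ⟨dgen x w₁ w₂, ?_, heq⟩
  exact algInd_of ha fun i => isAlgebraic_algebraMap (⟨a i, haK i⟩ : K1)

/-- The function field over `k` of the variety `c * f(0) = y ^ 2`, `d * disc (f) = z ^ 2` is
purely transcendental. -/
theorem D_rational {k F : Type*} [Field k] [CharZero k] [Field F] [Algebra k F] {n : ℕ}
    (hn : 3 ≤ n) {c d : k} (hc : c ≠ 0) (hd : d ≠ 0) {a : Fin n → F} {y z : F}
    (hF : IsDField k c d a y z) :
    ∃ t : Fin n → F, AlgebraicIndependent k t ∧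
      IntermediateField.adjoin k (Set.range t) = ⊤ := by
  obtain ⟨hind, heq1, heq2, hgen⟩ := hF
  have hcF : CharZero F := charZero_of_injective_algebraMap (algebraMap k F).injective
  set Ω := AlgebraicClosure F with hΩ
  have hcΩ : CharZero Ω := charZero_of_injective_algebraMap (algebraMap F Ω).injective
  set f : F →ₐ[k] Ω := IsScalarTower.toAlgHom k F Ω with hf
  have hfinj : Function.Injective f := (algebraMap F Ω).injective
  have hmap : IntermediateField.adjoin k (Set.range (pt2 (fun i => f (a i)) (f y) (f z)))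
      = f.fieldRange := by
    have h1 : Set.range (pt2 (fun i => f (a i)) (f y) (f z)) = f '' Set.range (pt2 a y z) := by
      rw [← Set.range_comp]
      congr 1
      funext o
      rcases o with _ | _ | i <;> rfl
    rw [h1, ← IntermediateField.adjoin_map, hgen, ← AlgHom.fieldRange_eq_map]
  have halg : Algebra.IsAlgebraic
      (IntermediateField.adjoin k (Set.range (pt2 (fun i => f (a i)) (f y) (f z)))) Ω := by
    rw [hmap]
    let _ : Algebra F f.fieldRange :=
      (RingHom.codRestrict (f : F →+* Ω) f.fieldRange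
        (fun x => AlgHom.mem_fieldRange.2 ⟨x, rfl⟩)).toAlgebra
    have _ : IsScalarTower F f.fieldRange Ω := IsScalarTower.of_algebraMap_eq (fun x => rfl)
    exact Algebra.IsAlgebraic.tower_top (K := F) f.fieldRange
  have hind' : AlgebraicIndependent k (fun i => f (a i)) :=
    hind.map' hfinj
  have heq1' : algebraMap k Ω c * (monicPoly (fun i => f (a i))).eval 0 = (f y) ^ 2 := by
    have h1 : monicPoly (fun i => f (a i)) = (monicPoly a).map (f : F →+* Ω) :=
      monicPoly_map (f : F →+* Ω) a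
    have h2 : (monicPoly (fun i => f (a i))).eval 0 = f ((monicPoly a).eval 0) := by
      rw [h1, ← Polynomial.coeff_zero_eq_eval_zero, coeff_map, Polynomial.coeff_zero_eq_eval_zero]
      rfl
    rw [h2, ← map_pow, ← heq1, map_mul, AlgHom.commutes]
  have heq2' : algebraMap k Ω d * (monicPoly (fun i => f (a i))).discr = (f z) ^ 2 := by
    have h1 := discr_monicPoly_map (f : F →+* Ω) a
    have h2 : (monicPoly (fun i => f (a i))).discr = f ((monicPoly a).discr) := h1
    rw [h2, ← map_pow, ← heq2, map_mul, AlgHom.commutes]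
  obtain ⟨t', ht', htF⟩ := RD_core hn hc hd hind' heq1' heq2'
  rw [hmap] at htF
  have hex : ∀ i, ∃ s : F, f s = t' i := by
    intro i
    have h1 : t' i ∈ IntermediateField.adjoin k (Set.range t') :=
      IntermediateField.subset_adjoin _ _ (Set.mem_range_self i)
    rw [htF] at h1
    exact h1
  choose t ht using hex
  have htt : (fun i => f (t i)) = t' := funext ht
  refine ⟨t, ?_, ?_⟩
  · have h1 : AlgebraicIndependent k (f ∘ t) := by
      have : f ∘ t = t' := htt
      rw [this]; exact ht'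
    exact (AlgHom.algebraicIndependent_iff f hfinj).1 h1
  · apply IntermediateField.map_injective f
    rw [IntermediateField.adjoin_map, ← Set.range_comp, ← AlgHom.fieldRange_eq_map]
    have : f ∘ t = t' := htt
    rw [this, htF]

end WeylRot
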