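import Pool.Agent.H.MP_ffe2f0_al.NDefs
import Pool.Agent.H.MP_ffe2f0_al.NComm

/-! Module RDefs: matrices for the rotation subgroups of the Weyl groups of types B and D.

`S = cm x = (1 / (x_i - x_j))`, `X = diag x`, `A = am x = S X`, `e = (1, ..., 1)`, `J = e eᵀ`.
Then `A + Aᵀ = 1 - J` and `Aᵀ X = - X A`. -/

open Polynomial Matrix

namespace WeylRot

open NoetherAn

variable {L : Type*} [Field L] {n : ℕ}

/-- the matrix `S X` with entries `x j / (x i - x j)` and zero diagonal -/
def am (x : Fin n → L) : Matrix (Fin n) (Fin n) L := cm x * Matrix.diagonal x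

/-- the matrix all of whose entries are one -/
def ones (n : ℕ) (L : Type*) [Field L] : Matrix (Fin n) (Fin n) L := Matrix.of fun _ _ => 1

/-- `tm x a = eᵀ X A^a e` -/
def tm (x : Fin n → L) (a : ℕ) : L := ∑ i, ∑ j, x i * (am x ^ a) i j

/-- `nm x a = eᵀ A^a e` -/
def nm (x : Fin n → L) (a : ℕ) : L := sumEnt (am x ^ a)

/-- the Krylov matrix of `A`: its columns are the vectors `A^k e` -/
def krb (x : Fin n → L) : Matrix (Fin n) (Fin n) L :=
  Matrix.of fun i k => ∑ j, (am x ^ (k : ℕ)) i j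

/-- Hankel determinant of the numbers `tm x` -/
def hkb (x : Fin n → L) : L :=
  Matrix.det (Matrix.of fun j k : Fin (n / 2) => tm x (2 * ((j : ℕ) + k) + 2 * (n % 2)))

/-- the antisymmetric matrix `2 A + J - 1` -/
def sk (x : Fin n → L) : Matrix (Fin n) (Fin n) L := (2 : L) • am x + ones n L - 1

/-- `sm x a = eᵀ (sk x)^a e` -/
def sm (x : Fin n → L) (a : ℕ) : L := sumEnt (sk x ^ a)

/-- the Krylov matrix of `sk x`: its columns are the vectors `(sk x)^k e` -/
def krs (x : Fin n → L) : Matrix (Fin n) (Fin n) L :=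
  Matrix.of fun i k => ∑ j, (sk x ^ (k : ℕ)) i j

/-- Hankel determinant of the numbers `sm x` -/
def hks (x : Fin n → L) : L :=
  Matrix.det (Matrix.of fun j k : Fin (n / 2) => sm x (2 * ((j : ℕ) + k) + 2 * (n % 2)))

/-- `δ = χ_0` for `n` even and `δ = ∑ χ_{2i+1} tm (2i)` for `n` odd, `χ = charpoly A` -/
noncomputable def dl (x : Fin n → L) : L :=
  if n % 2 = 0 then (am x).charpoly.coeff 0
  else ∑ i ∈ Finset.range (n / 2 + 1), (am x).charpoly.coeff (2 * i + 1) * tm x (2 * i)

/-- `det (1 - 2 A) = ∑ 2^(n-i) χ_i` -/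
noncomputable def ql (x : Fin n → L) : L :=
  ∑ i ∈ Finset.range (n + 1), (2 : L) ^ (n - i) * (am x).charpoly.coeff i

end WeylRot
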