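import Mathlib
import Pool.Agent.H.MP_83e36b_nt.Statement
import Pool.Agent.H.DiscRat.VStat
import Pool.Agent.H.MP_ffe2f0_al.NDefs

/-! Module RStat: definitions for the rotation subgroups of the Weyl groups of types B and D and
for the twisted forms of their Noether varieties. -/

open Polynomial

namespace WeylRot

open AnWA DiscRat NoetherAn

/-- the point `(p, z, w)` as a family indexed by `Option (Option (Fin n))` -/
def pt2 {R : Type*} {n : ℕ} (p : Fin n → R) (z w : R) : Option (Option (Fin n)) → R :=
  fun o => o.elim w (pt p z)

/-- `F` is the function field over `k` of the variety `c * f(0) * disc (f) = y ^ 2`, where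
`f = X ^ n + a_{n-1} X ^ (n-1) + ... + a_0`: the `a_i` are algebraically independent over `k`,
`c * f(0) * disc (f) = y ^ 2`, and `F = k(a_0, ..., a_{n-1}, y)`. -/
structure IsBField (k : Type*) {F : Type*} [Field k] [Field F] [Algebra k F] {n : ℕ} (c : k)
    (a : Fin n → F) (y : F) : Prop where
  indep : AlgebraicIndependent k a
  eq : algebraMap k F c * ((monicPoly a).eval 0 * (monicPoly a).discr) = y ^ 2
  gen : IntermediateField.adjoin k (Set.range (pt a y)) = ⊤

/-- `F` is the function field over `k` of the variety `c * f(0) = y ^ 2`,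
`d * disc (f) = z ^ 2`, where `f = X ^ n + a_{n-1} X ^ (n-1) + ... + a_0`: the `a_i` are
algebraically independent over `k`, the two equations hold, and
`F = k(a_0, ..., a_{n-1}, y, z)`. -/
structure IsDField (k : Type*) {F : Type*} [Field k] [Field F] [Algebra k F] {n : ℕ} (c d : k)
    (a : Fin n → F) (y z : F) : Prop where
  indep : AlgebraicIndependent k a
  eq1 : algebraMap k F c * (monicPoly a).eval 0 = y ^ 2
  eq2 : algebraMap k F d * (monicPoly a).discr = z ^ 2
  gen : IntermediateField.adjoin k (Set.range (pt2 a y z)) = ⊤

/-- the automorphism of `k(x_1, ..., x_n)` over `k` with `x_i ↦ ε_i x_{σ(i)}` -/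
noncomputable def signedAct (k : Type*) [Field k] (n : ℕ) (ε : Fin n → ℤˣ)
    (σ : Equiv.Perm (Fin n)) : RatField k n ≃ₐ[k] RatField k n :=
  IsFractionRing.algEquivOfAlgEquiv
    ((MvPolynomial.renameEquiv k σ).trans
      (AlgEquiv.ofAlgHom
        (MvPolynomial.aeval fun i => MvPolynomial.C (((ε (σ.symm i) : ℤˣ) : ℤ) : k) *
          MvPolynomial.X i)
        (MvPolynomial.aeval fun i => MvPolynomial.C (((ε (σ.symm i) : ℤˣ) : ℤ) : k) *
          MvPolynomial.X i)
        (by
          apply MvPolynomial.algHom_ext
          intro i
          simp only [AlgHom.comp_apply, MvPolynomial.aeval_X, map_mul, AlgHom.id_apply,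
            MvPolynomial.algHom_C]
          rcases Int.units_eq_one_or (ε (σ.symm i)) with h | h <;> rw [h] <;> simp)
        (by
          apply MvPolynomial.algHom_ext
          intro i
          simp only [AlgHom.comp_apply, MvPolynomial.aeval_X, map_mul, AlgHom.id_apply,
            MvPolynomial.algHom_C]
          rcases Int.units_eq_one_or (ε (σ.symm i)) with h | h <;> rw [h] <;> simp)))

/-- the field of the rational functions fixed by the rotation subgroup of the Weyl group of type
`B_n`: the signed permutations of determinant one -/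
noncomputable def rotB (k : Type*) [Field k] (n : ℕ) : IntermediateField k (RatField k n) where
  carrier := {f | ∀ (ε : Fin n → ℤˣ) (σ : Equiv.Perm (Fin n)),
    (∏ i, ε i) * Equiv.Perm.sign σ = 1 → signedAct k n ε σ f = f}
  mul_mem' := fun ha hb ε σ h => by rw [map_mul, ha ε σ h, hb ε σ h]
  add_mem' := fun ha hb ε σ h => by rw [map_add, ha ε σ h, hb ε σ h]
  algebraMap_mem' := fun r ε σ _ => (signedAct k n ε σ).commutes r
  inv_mem' := fun a ha ε σ h => by rw [map_inv₀, ha ε σ h]

/-- the field of the rational functions fixed by the rotation subgroup of the Weyl group of type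
`D_n`: the signed permutations with an even number of signs and an even permutation -/
noncomputable def rotD (k : Type*) [Field k] (n : ℕ) : IntermediateField k (RatField k n) where
  carrier := {f | ∀ (ε : Fin n → ℤˣ) (σ : Equiv.Perm (Fin n)),
    (∏ i, ε i) = 1 → Equiv.Perm.sign σ = 1 → signedAct k n ε σ f = f}
  mul_mem' := fun ha hb ε σ h h' => by rw [map_mul, ha ε σ h h', hb ε σ h h']
  add_mem' := fun ha hb ε σ h h' => by rw [map_add, ha ε σ h h', hb ε σ h h']
  algebraMap_mem' := fun r ε σ _ _ => (signedAct k n ε σ).commutes r
  inv_mem' := fun a ha ε σ h h' => by rw [map_inv₀, ha ε σ h h']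

end WeylRot
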