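import Pool.Agent.H.DiscRat.VKey
import Pool.Agent.H.DiscRat.VSpread
import Pool.Agent.H.DiscRat.VInd
import Pool.Agent.H.WeylRot.RStat

/-! Module W1: the variety `f(0) = e y ^ 2`, `d disc (f) = z ^ 2` as a double cover of the affine
space with coordinates `(y, a_1, ..., a_{n-1})`; relations hold at all points. -/

open Polynomial

namespace WeylRot

open AnWA DiscRat

/-- the coefficients of the monic polynomial with constant term `e * b 0 ^ 2` and the other
coefficients `b i` -/
def bco {R : Type*} [CommRing R] {n : ℕ} (e : R) (b : Fin n → R) : Fin n → R :=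
  fun i => if (i : ℕ) = 0 then e * b i ^ 2 else b i

/-- the discriminant of `monicPoly (bco e b)` as a polynomial in `b` -/
noncomputable def dMv (k : Type*) [Field k] (n : ℕ) (e : k) : MvPolynomial (Fin n) k :=
  MvPolynomial.bind₁ (bco (MvPolynomial.C e) MvPolynomial.X) (discMv k n)

theorem bco_map {R S : Type*} [CommRing R] [CommRing S] (φ : R →+* S) {n : ℕ} (e : R)
    (b : Fin n → R) : (fun i => φ (bco e b i)) = bco (φ e) (fun i => φ (b i)) := by
  funext i
  simp only [bco]
  split_ifs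
  · rw [map_mul, map_pow]
  · rfl

theorem aeval_dMv {k K : Type*} [Field k] [Field K] [Algebra k K] {n : ℕ} (e : k)
    (b : Fin n → K) : MvPolynomial.aeval b (dMv k n e)
      = (monicPoly (bco (algebraMap k K e) b)).discr := by
  rw [dMv, MvPolynomial.aeval_bind₁, aeval_discMv]
  congr 2
  have h := bco_map ((MvPolynomial.aeval b : MvPolynomial (Fin n) k →ₐ[k] K) :
    MvPolynomial (Fin n) k →+* K) (MvPolynomial.C e) MvPolynomial.X
  simp only [RingHom.coe_coe, MvPolynomial.aeval_X, MvPolynomial.aeval_C] at h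
  exact h

/-- the parametrisation of the space of `b` by square roots of the roots -/
noncomputable def tb {R : Type*} [CommRing R] {n : ℕ} (γ : R) (t : Fin n → R) : Fin n → R :=
  fun i => if (i : ℕ) = 0 then γ * ∏ j, t j else co (fun j => t j ^ 2) i

theorem tb_map {R S : Type*} [CommRing R] [CommRing S] (φ : R →+* S) {n : ℕ} (γ : R)
    (t : Fin n → R) : (fun i => φ (tb γ t i)) = tb (φ γ) (fun i => φ (t i)) := by
  funext i
  simp only [tb]
  split_ifs
  · rw [map_mul, map_prod]
  · have h := co_map φ (fun j => t j ^ 2)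
    simp only [map_pow] at h
    rw [h]

theorem tb_perm {R : Type*} [CommRing R] {n : ℕ} (γ : R) (t : Fin n → R)
    (σ : Equiv.Perm (Fin n)) : tb γ (fun i => t (σ i)) = tb γ t := by
  funext i
  simp only [tb, co]
  rw [Equiv.prod_comp σ t, Equiv.prod_comp σ (fun j => (X - C (t j ^ 2) : R[X]))]

theorem co_zero {R : Type*} [CommRing R] {n : ℕ} (w : Fin n → R) (i : Fin n)
    (hi : (i : ℕ) = 0) : co w i = (-1) ^ n * ∏ j, w j := by
  simp only [co, hi, coeff_zero_eq_eval_zero, eval_prod, eval_sub, eval_X, eval_C, zero_sub]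
  rw [Finset.prod_neg]
  simp

theorem bco_tb {R : Type*} [CommRing R] {n : ℕ} {e γ : R} (h : e * γ ^ 2 = (-1) ^ n)
    (t : Fin n → R) : bco e (tb γ t) = co (fun j => t j ^ 2) := by
  funext i
  simp only [bco, tb]
  split_ifs with hi
  · rw [co_zero _ i hi, Finset.prod_pow, ← h]
    ring
  · rfl

theorem exists_tb {L : Type*} [Field L] [IsAlgClosed L] {n : ℕ} (hn : 0 < n) {e γ : L}
    (he : e ≠ 0) (h : e * γ ^ 2 = (-1) ^ n) (b : Fin n → L) : ∃ t : Fin n → L, tb γ t = b := by
  obtain ⟨w, hw, -⟩ := vkey_exists (bco e b)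
  have hex : ∀ j, ∃ z : L, z ^ 2 = w j := fun j => IsAlgClosed.exists_pow_nat_eq (w j) (by norm_num)
  choose t ht using hex
  have ht' : (fun j => t j ^ 2) = w := funext ht
  have key : ∀ s : Fin n → L, (fun j => s j ^ 2) = w → γ * ∏ j, s j = b ⟨0, hn⟩ → tb γ s = b := by
    intro s hs hs2
    funext i
    simp only [tb]
    split_ifs with hi
    · rw [hs2]
      congr 1
      exact Fin.ext hi.symm
    · rw [hs, hw]
      simp only [bco]
      rw [if_neg hi]
  have h1 : (γ * ∏ j, t j) ^ 2 = b ⟨0, hn⟩ ^ 2 := by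
    have h2 := co_zero w ⟨0, hn⟩ rfl
    rw [hw] at h2
    simp only [bco, if_true] at h2
    apply mul_left_cancel₀ he
    rw [h2, mul_pow, ← mul_assoc, h, ← Finset.prod_pow]
    congr 1
    exact Finset.prod_congr rfl fun j _ => ht j
  rcases sq_eq_sq_iff_eq_or_eq_neg.1 h1 with h2 | h2
  · exact ⟨t, key t ht' h2⟩
  · refine ⟨Function.update t ⟨0, hn⟩ (- t ⟨0, hn⟩), key _ ?_ ?_⟩
    · rw [← ht']
      funext j
      by_cases hj : j = ⟨0, hn⟩
      · rw [hj, Function.update_self]
        ring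
      · rw [Function.update_of_ne hj]
    · have h3 := Finset.mul_prod_erase Finset.univ t (Finset.mem_univ (⟨0, hn⟩ : Fin n))
      have h4 := Finset.mul_prod_erase Finset.univ
        (Function.update t ⟨0, hn⟩ (- t ⟨0, hn⟩)) (Finset.mem_univ (⟨0, hn⟩ : Fin n))
      rw [← h4, Function.update_self]
      have h5 : ∏ x ∈ Finset.univ.erase (⟨0, hn⟩ : Fin n),
          Function.update t ⟨0, hn⟩ (- t ⟨0, hn⟩) x
          = ∏ x ∈ Finset.univ.erase (⟨0, hn⟩ : Fin n), t x := by
        refine Finset.prod_congr rfl fun x hx => ?_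
        rw [Function.update_of_ne (Finset.ne_of_mem_erase hx)]
      rw [h5]
      rw [← h3] at h2
      linear_combination -h2

theorem tb_comp {k L A : Type*} [Field k] [Field L] [Algebra k L] [CommRing A] [Algebra L A]
    [Algebra k A] [IsScalarTower k L A] {n : ℕ} (φ : MvPolynomial (Fin n) L →ₐ[L] A) (γ : L)
    (G : MvPolynomial (Fin n) k) :
    φ (MvPolynomial.aeval (tb (MvPolynomial.C γ)
        (fun i => (MvPolynomial.X i : MvPolynomial (Fin n) L))) G)
      = MvPolynomial.aeval (tb (algebraMap L A γ) (fun i => φ (MvPolynomial.X i))) G := by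
  have h1 := congrFun (congrArg DFunLike.coe (MvPolynomial.comp_aeval
    (tb (MvPolynomial.C γ) (fun i => (MvPolynomial.X i : MvPolynomial (Fin n) L)))
    (φ.restrictScalars k))) G
  have h2 := tb_map (φ : MvPolynomial (Fin n) L →+* A) (MvPolynomial.C γ)
    (fun i => (MvPolynomial.X i : MvPolynomial (Fin n) L))
  have h3 : (tb (algebraMap L A γ) fun i => φ (MvPolynomial.X i)) = fun i => φ (tb
    (MvPolynomial.C γ) (fun i => (MvPolynomial.X i : MvPolynomial (Fin n) L)) i) := by
    have h4 : (φ : MvPolynomial (Fin n) L →+* A) (MvPolynomial.C γ) = algebraMap L A γ :=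
      φ.commutes γ
    rw [h4] at h2
    exact h2.symm
  rw [h3]
  exact h1

theorem tb_inj {k L : Type*} [Field k] [Field L] [Algebra k L] [IsAlgClosed L] [CharZero L]
    {n : ℕ} (hn : 0 < n) {e γ : L} (he : e ≠ 0) (h : e * γ ^ 2 = (-1) ^ n)
    (G : MvPolynomial (Fin n) k)
    (hG : MvPolynomial.aeval (tb (MvPolynomial.C γ)
      (fun i => (MvPolynomial.X i : MvPolynomial (Fin n) L))) G = 0) : G = 0 := by
  have hall : ∀ p : Fin n → L, MvPolynomial.aeval p G = 0 := by
    intro p
    obtain ⟨w, hw⟩ := exists_tb hn he h p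
    have h1 := tb_comp (MvPolynomial.aeval w : MvPolynomial (Fin n) L →ₐ[L] L) γ G
    rw [hG, map_zero] at h1
    simp only [MvPolynomial.aeval_X] at h1
    have h2 : (tb (algebraMap L L γ) fun i => w i) = p := hw
    rw [h2] at h1
    exact h1.symm
  apply MvPolynomial.map_injective (algebraMap k L) (algebraMap k L).injective
  apply MvPolynomial.funext
  intro x
  rw [MvPolynomial.eval_map, ← MvPolynomial.aeval_def, hall x, map_zero, map_zero]

/-- the Vandermonde matrix of the squares of the variables -/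
noncomputable def sqV (L : Type*) [Field L] (n : ℕ) :
    Matrix (Fin n) (Fin n) (MvPolynomial (Fin n) L) :=
  Matrix.vandermonde (fun i => (MvPolynomial.X i : MvPolynomial (Fin n) L) ^ 2)

theorem sqV_det_ne {L : Type*} [Field L] [CharZero L] {n : ℕ} : (sqV L n).det ≠ 0 := by
  rw [sqV, Matrix.det_vandermonde_ne_zero_iff]
  intro i j hij
  have h1 := congrArg (MvPolynomial.aeval
    (fun l : Fin n => if l = i then (1 : L) else 0)) hij
  simp only [map_pow, MvPolynomial.aeval_X, if_true] at h1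
  by_contra hne
  rw [if_neg (fun e => hne e.symm)] at h1
  norm_num at h1

theorem sqV_swap {L : Type*} [Field L] {n : ℕ} {i0 i1 : Fin n} (hi : i0 ≠ i1) :
    MvPolynomial.rename (Equiv.swap i0 i1) (sqV L n).det = - (sqV L n).det := by
  have h1 := AlgHom.map_det (MvPolynomial.rename (Equiv.swap i0 i1) :
    MvPolynomial (Fin n) L →ₐ[L] MvPolynomial (Fin n) L) (sqV L n)
  have h2 : (MvPolynomial.rename (Equiv.swap i0 i1) :
      MvPolynomial (Fin n) L →ₐ[L] MvPolynomial (Fin n) L).mapMatrix (sqV L n)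
      = (sqV L n).submatrix (Equiv.swap i0 i1) id := by
    ext1 i j
    simp [sqV, Matrix.vandermonde_apply]
  rw [h1, h2, Matrix.det_permute, Equiv.Perm.sign_swap hi]
  simp

theorem tb_disc {k L : Type*} [Field k] [Field L] [Algebra k L] [CharZero L] {n : ℕ} {e : k}
    {γ : L} (h : algebraMap k L e * γ ^ 2 = (-1) ^ n) :
    MvPolynomial.aeval (tb (MvPolynomial.C γ)
      (fun i => (MvPolynomial.X i : MvPolynomial (Fin n) L))) (dMv k n e)
      = (sqV L n).det ^ 2 := by
  apply MvPolynomial.funext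
  intro w
  have h1 := tb_comp (MvPolynomial.aeval w : MvPolynomial (Fin n) L →ₐ[L] L) γ (dMv k n e)
  simp only [MvPolynomial.aeval_X] at h1
  have h2 : (MvPolynomial.aeval w : MvPolynomial (Fin n) L →ₐ[L] L).mapMatrix (sqV L n)
      = Matrix.vandermonde (fun i => w i ^ 2) := by
    ext1 i j
    simp [sqV, Matrix.vandermonde_apply]
  rw [← MvPolynomial.aeval_eq_eval]
  change (MvPolynomial.aeval w : MvPolynomial (Fin n) L →ₐ[L] L) _
    = (MvPolynomial.aeval w : MvPolynomial (Fin n) L →ₐ[L] L) _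
  rw [h1, aeval_dMv, map_pow, AlgHom.map_det, h2, ← discr_rootPoly, ← monicPoly_co,
    Algebra.algebraMap_self, RingHom.id_apply, bco_tb h]

/-- `d * disc` is not a square in the field of rational functions in `b` -/
theorem key_sq' {k : Type*} [Field k] [CharZero k] {n : ℕ} (hn : 2 ≤ n) {e d : k} (he : e ≠ 0)
    (hd : d ≠ 0) (G0 G1 : MvPolynomial (Fin n) k)
    (h : G0 ^ 2 = G1 ^ 2 * (MvPolynomial.C d * dMv k n e)) : G0 = 0 ∧ G1 = 0 := by
  have hch : CharZero (AlgebraicClosure k) := charZero_of_injective_algebraMap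
    (algebraMap k (AlgebraicClosure k)).injective
  set L := AlgebraicClosure k
  have he' : algebraMap k L e ≠ 0 := (_root_.map_ne_zero _).2 he
  obtain ⟨δ, hδ⟩ := IsAlgClosed.exists_pow_nat_eq (algebraMap k L d) (n := 2) (by norm_num)
  obtain ⟨γ, hγ⟩ := IsAlgClosed.exists_pow_nat_eq ((-1) ^ n / algebraMap k L e)
    (n := 2) (by norm_num)
  have hγ' : algebraMap k L e * γ ^ 2 = (-1) ^ n := by
    rw [hγ, mul_div_assoc', mul_div_cancel_left₀ _ he']
  have hδ0 : δ ≠ 0 := by
    rintro rfl
    rw [zero_pow two_ne_zero] at hδ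
    exact hd ((map_eq_zero (algebraMap k L)).1 hδ.symm)
  have hi : (⟨0, by omega⟩ : Fin n) ≠ ⟨1, by omega⟩ := by
    intro e
    have := congrArg Fin.val e
    simp at this
  -- the two terms
  set U0 := MvPolynomial.aeval (tb (MvPolynomial.C γ)
    (fun i => (MvPolynomial.X i : MvPolynomial (Fin n) L))) G0 with hU0
  set U1 := MvPolynomial.aeval (tb (MvPolynomial.C γ)
    (fun i => (MvPolynomial.X i : MvPolynomial (Fin n) L))) G1 with hU1
  have hsw : ∀ G : MvPolynomial (Fin n) k, (MvPolynomial.rename (Equiv.swap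
      (⟨0, by omega⟩ : Fin n) ⟨1, by omega⟩) : MvPolynomial (Fin n) L →ₐ[L]
      MvPolynomial (Fin n) L) (MvPolynomial.aeval (tb (MvPolynomial.C γ)
      (fun i => (MvPolynomial.X i : MvPolynomial (Fin n) L))) G) =
      MvPolynomial.aeval (tb (MvPolynomial.C γ)
      (fun i => (MvPolynomial.X i : MvPolynomial (Fin n) L))) G := by
    intro G
    rw [tb_comp]
    simp only [MvPolynomial.rename_X]
    rw [tb_perm (algebraMap L (MvPolynomial (Fin n) L) γ)
      (fun i => (MvPolynomial.X i : MvPolynomial (Fin n) L))]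
    rfl
  have hV : (sqV L n).det ≠ 0 := sqV_det_ne
  have hδ' : (MvPolynomial.C δ : MvPolynomial (Fin n) L) ≠ 0 := by
    rw [Ne, MvPolynomial.C_eq_zero]
    exact hδ0
  have h2 : (2 : MvPolynomial (Fin n) L) ≠ 0 := two_ne_zero
  have main : ∀ ε : MvPolynomial (Fin n) L, (MvPolynomial.rename (Equiv.swap
      (⟨0, by omega⟩ : Fin n) ⟨1, by omega⟩) : MvPolynomial (Fin n) L →ₐ[L]
      MvPolynomial (Fin n) L) ε = ε → ε ≠ 0 → U0 = ε * (U1 * (MvPolynomial.C δ * (sqV L n).det)) →
      G0 = 0 ∧ G1 = 0 := by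
    intro ε hε hε0 h3
    have h4 := congrArg (MvPolynomial.rename (Equiv.swap (⟨0, by omega⟩ : Fin n)
      ⟨1, by omega⟩) : MvPolynomial (Fin n) L →ₐ[L] MvPolynomial (Fin n) L) h3
    rw [map_mul, map_mul, map_mul, sqV_swap hi, MvPolynomial.rename_C, hε, hU0, hU1, hsw, hsw,
      ← hU0, ← hU1] at h4
    have h5 : (2 : MvPolynomial (Fin n) L) * U0 = 0 := by linear_combination h3 + h4
    have h6 : U0 = 0 := (mul_eq_zero.1 h5).resolve_left h2
    have h7 : U1 = 0 := by
      rw [h6] at h3
      rcases mul_eq_zero.1 h3.symm with h | h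
      · exact absurd h hε0
      · exact (mul_eq_zero.1 h).resolve_right (mul_ne_zero hδ' hV)
    exact ⟨tb_inj (by omega) he' hγ' G0 h6, tb_inj (by omega) he' hγ' G1 h7⟩
  have h1 := congrArg (MvPolynomial.aeval (tb (MvPolynomial.C γ)
    (fun i => (MvPolynomial.X i : MvPolynomial (Fin n) L)))) h
  rw [map_mul, map_mul, map_pow, map_pow, tb_disc hγ', MvPolynomial.algHom_C,
    IsScalarTower.algebraMap_apply k L, ← hδ, MvPolynomial.algebraMap_eq,
    map_pow, ← mul_pow, ← mul_pow, sq_eq_sq_iff_eq_or_eq_neg] at h1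
  rcases h1 with h1 | h1
  · exact main 1 (map_one _) one_ne_zero (by rw [one_mul]; exact h1)
  · exact main (-1) (by rw [map_neg, map_one]) (neg_ne_zero.2 one_ne_zero)
      (by rw [neg_one_mul]; exact h1)

end WeylRot
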