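import Pool.Agent.H.WeylRot.W1
import Pool.Agent.H.DiscRat.VExist

/-! Module W2: the function field of `f(0) = e y ^ 2`, `d disc (f) = z ^ 2` in the coordinates
`(y, a_1, ..., a_{n-1}, z)`; relations hold at all points; existence. -/

open Polynomial

namespace WeylRot

open AnWA DiscRat

theorem exists_split' {k : Type*} [Field k] {n : ℕ} (Δ : MvPolynomial (Fin n) k)
    (H : MvPolynomial (Option (Fin n)) k) : ∃ (H0 H1 : MvPolynomial (Fin n) k)
    (R : MvPolynomial (Option (Fin n)) k), H = MvPolynomial.rename some H0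
      + MvPolynomial.rename some H1 * MvPolynomial.X none
      + (MvPolynomial.X none ^ 2 - MvPolynomial.rename some Δ) * R := by
  induction H using MvPolynomial.induction_on with
  | C a =>
    refine ⟨MvPolynomial.C a, 0, 0, ?_⟩
    rw [MvPolynomial.rename_C, map_zero]
    ring
  | add p q hp hq =>
    obtain ⟨a0, a1, r, hr⟩ := hp
    obtain ⟨b0, b1, s, hs⟩ := hq
    refine ⟨a0 + b0, a1 + b1, r + s, ?_⟩
    rw [map_add, map_add]
    linear_combination hr + hs
  | mul_X p i hp =>
    obtain ⟨a0, a1, r, hr⟩ := hp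
    cases i with
    | none =>
      refine ⟨Δ * a1, a0, MvPolynomial.rename some a1 + r * MvPolynomial.X none, ?_⟩
      rw [map_mul]
      linear_combination hr * MvPolynomial.X none
    | some j =>
      refine ⟨a0 * MvPolynomial.X j, a1 * MvPolynomial.X j, r * MvPolynomial.X (some j), ?_⟩
      rw [map_mul, map_mul, MvPolynomial.rename_X]
      linear_combination hr * MvPolynomial.X (some j)

/-- the value of `H` at a point of `Δ (p) = z ^ 2` -/
theorem aeval_split' {k K : Type*} [Field k] [Field K] [Algebra k K] {n : ℕ}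
    {Δ : MvPolynomial (Fin n) k}
    {H : MvPolynomial (Option (Fin n)) k} {H0 H1 : MvPolynomial (Fin n) k}
    {R : MvPolynomial (Option (Fin n)) k} (h : H = MvPolynomial.rename some H0
      + MvPolynomial.rename some H1 * MvPolynomial.X none
      + (MvPolynomial.X none ^ 2 - MvPolynomial.rename some Δ) * R)
    (p : Fin n → K) (z : K) (hz : MvPolynomial.aeval p Δ = z ^ 2) :
    MvPolynomial.aeval (pt p z) H
      = MvPolynomial.aeval p H0 + MvPolynomial.aeval p H1 * z := by
  have h1 : pt p z ∘ some = p := rfl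
  have h2 : pt p z none = z := rfl
  rw [h, map_add, map_add, map_mul, map_mul, map_sub, map_pow, MvPolynomial.aeval_rename,
    MvPolynomial.aeval_rename, MvPolynomial.aeval_rename, h1, MvPolynomial.aeval_X, h2,
    hz, sub_self, zero_mul, add_zero]

/-- the polynomial `d * disc` in the coordinates `b` -/
noncomputable def ddMv {k : Type*} [Field k] (n : ℕ) (e d : k) : MvPolynomial (Fin n) k :=
  MvPolynomial.C d * dMv k n e

theorem aeval_ddMv {k K : Type*} [Field k] [Field K] [Algebra k K] {n : ℕ} (e d : k)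
    (b : Fin n → K) : MvPolynomial.aeval b (ddMv n e d)
      = algebraMap k K d * (monicPoly (bco (algebraMap k K e) b)).discr := by
  rw [ddMv, map_mul, aeval_dMv, MvPolynomial.aeval_C]

/-- the components of a relation vanish -/
theorem split_zero' {k F : Type*} [Field k] [CharZero k] [Field F] [Algebra k F] {n : ℕ}
    (hn : 2 ≤ n) {e d : k} (he : e ≠ 0) (hd : d ≠ 0) {b : Fin n → F} {z : F}
    (hb : AlgebraicIndependent k b)
    (hz : algebraMap k F d * (monicPoly (bco (algebraMap k F e) b)).discr = z ^ 2)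
    (G0 G1 : MvPolynomial (Fin n) k)
    (h : MvPolynomial.aeval b G0 + MvPolynomial.aeval b G1 * z = 0) : G0 = 0 ∧ G1 = 0 := by
  have h1 : MvPolynomial.aeval b (G0 ^ 2) =
      MvPolynomial.aeval b (G1 ^ 2 * (MvPolynomial.C d * dMv k n e)) := by
    have h2 : MvPolynomial.aeval b G0 = - (MvPolynomial.aeval b G1 * z) :=
      eq_neg_of_add_eq_zero_left h
    have h3 := aeval_ddMv e d b
    rw [ddMv] at h3
    rw [map_pow, map_mul, map_pow, h3, hz, h2]
    ring
  exact key_sq' hn he hd G0 G1 (hb h1)

theorem vanish' {k F K : Type*} [Field k] [CharZero k] [Field F] [Algebra k F] [Field K]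
    [Algebra k K] {n : ℕ} (hn : 2 ≤ n) {e d : k} (he : e ≠ 0) (hd : d ≠ 0) {b : Fin n → F}
    {z : F} (hb : AlgebraicIndependent k b)
    (hz : algebraMap k F d * (monicPoly (bco (algebraMap k F e) b)).discr = z ^ 2)
    (G : MvPolynomial (Option (Fin n)) k) (hG : MvPolynomial.aeval (pt b z) G = 0)
    (p : Fin n → K) (w : K)
    (hw : algebraMap k K d * (monicPoly (bco (algebraMap k K e) p)).discr = w ^ 2) :
    MvPolynomial.aeval (pt p w) G = 0 := by
  obtain ⟨H0, H1, R, hH⟩ := exists_split' (ddMv n e d) G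
  rw [aeval_split' hH b z (by rw [aeval_ddMv, hz])] at hG
  obtain ⟨h0, h1⟩ := split_zero' hn he hd hb hz H0 H1 hG
  rw [aeval_split' hH p w (by rw [aeval_ddMv, hw]), h0, h1, map_zero, zero_mul, add_zero]

theorem monicPoly_eval_zero {R : Type*} [CommRing R] {n : ℕ} (a : Fin n → R) (hn : 0 < n) :
    (monicPoly a).eval 0 = a ⟨0, hn⟩ := by
  rw [← coeff_zero_eq_eval_zero]
  exact vkey_coeff a ⟨0, hn⟩

universe u

theorem exists_DField_of {k : Type u} {Ω : Type u} [Field k] [Field Ω] [Algebra k Ω] {n : ℕ}
    (c d : k) (a' : Fin n → Ω) (y' z' : Ω) (hi : AlgebraicIndependent k a')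
    (he : algebraMap k Ω c * (monicPoly a').eval 0 = y' ^ 2)
    (he2 : algebraMap k Ω d * (monicPoly a').discr = z' ^ 2) :
    ∃ (F : Type u) (_ : Field F) (_ : Algebra k F) (a : Fin n → F) (y z : F),
      IsDField k c d a y z := by
  let E : IntermediateField k Ω := IntermediateField.adjoin k (Set.range (pt2 a' y' z'))
  have ha : ∀ i, a' i ∈ E := fun i =>
    IntermediateField.subset_adjoin k _ ⟨some (some i), rfl⟩
  have hy : y' ∈ E := IntermediateField.subset_adjoin k _ ⟨some none, rfl⟩
  have hz : z' ∈ E := IntermediateField.subset_adjoin k _ ⟨none, rfl⟩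
  refine ⟨E, inferInstance, inferInstance, fun i => ⟨a' i, ha i⟩, ⟨y', hy⟩, ⟨z', hz⟩,
    ?_, ?_, ?_, ?_⟩
  · have h1 : AlgebraicIndependent k (E.val ∘ fun i => (⟨a' i, ha i⟩ : E)) := hi
    exact h1.of_comp E.val
  · apply (algebraMap E Ω).injective
    rw [map_mul, map_pow]
    have h1 : (monicPoly a') = (monicPoly (fun i => (⟨a' i, ha i⟩ : E))).map (algebraMap E Ω) :=
      monicPoly_map (algebraMap E Ω) (fun i => (⟨a' i, ha i⟩ : E))
    have h2 : algebraMap E Ω ((monicPoly (fun i => (⟨a' i, ha i⟩ : E))).eval 0) =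
        (monicPoly a').eval 0 := by
      rw [h1, ← coeff_zero_eq_eval_zero, ← coeff_zero_eq_eval_zero, coeff_map]
    rw [h2]
    exact he
  · apply (algebraMap E Ω).injective
    rw [map_mul, map_pow, ← discr_monicPoly_map]
    exact he2
  · apply IntermediateField.lift_injective E
    rw [IntermediateField.lift_top, IntermediateField.lift_adjoin, ← Set.range_comp]
    have h2 : (Subtype.val ∘ pt2 (fun i => (⟨a' i, ha i⟩ : E)) ⟨y', hy⟩ ⟨z', hz⟩)
        = pt2 a' y' z' := by
      funext o
      rcases o with _ | _ | o <;> rfl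
    rw [h2]

theorem exists_DField (k : Type u) [Field k] (n : ℕ) (c d : k) :
    ∃ (F : Type u) (_ : Field F) (_ : Algebra k F) (a : Fin n → F) (y z : F),
      IsDField k c d a y z := by
  let Ω : Type u := AlgebraicClosure (FractionRing (MvPolynomial (Fin n) k))
  let f : MvPolynomial (Fin n) k →ₐ[k] Ω :=
    IsScalarTower.toAlgHom k (MvPolynomial (Fin n) k) Ω
  have hf : Function.Injective f := by
    show Function.Injective (algebraMap (MvPolynomial (Fin n) k) Ω)
    rw [IsScalarTower.algebraMap_eq (MvPolynomial (Fin n) k)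
      (FractionRing (MvPolynomial (Fin n) k)) Ω]
    exact (algebraMap (FractionRing (MvPolynomial (Fin n) k)) Ω).injective.comp
      (IsFractionRing.injective _ _)
  obtain ⟨y', hy'⟩ := IsAlgClosed.exists_pow_nat_eq
    (algebraMap k Ω c * (monicPoly (fun i => f (MvPolynomial.X i))).eval 0) (n := 2) (by norm_num)
  obtain ⟨z', hz'⟩ := IsAlgClosed.exists_pow_nat_eq
    (algebraMap k Ω d * (monicPoly (fun i => f (MvPolynomial.X i))).discr) (n := 2) (by norm_num)
  refine exists_DField_of (Ω := Ω) c d (fun i => f (MvPolynomial.X i)) y' z' ?_ hy'.symm hz'.symm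
  exact (MvPolynomial.algebraicIndependent_X (Fin n) k).map' hf

/-- the coordinates `(y, a_1, ..., a_{n-1})` -/
def yco {R : Type*} {n : ℕ} (a : Fin n → R) (y : R) : Fin n → R :=
  fun i => if (i : ℕ) = 0 then y else a i

/-- the same function field in the coordinates `(y, a_1, ..., a_{n-1}, z)` -/
theorem IsDField.yco_props {k F : Type*} [Field k] [CharZero k] [Field F] [Algebra k F] {n : ℕ}
    (hn : 0 < n) {c d : k} (hc : c ≠ 0) {a : Fin n → F} {y z : F} (h : IsDField k c d a y z) :
    AlgebraicIndependent k (yco a y) ∧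
      algebraMap k F d * (monicPoly (bco (algebraMap k F c⁻¹) (yco a y))).discr = z ^ 2 ∧
      IntermediateField.adjoin k (Set.range (pt (yco a y) z)) = ⊤ := by
  have hc' : algebraMap k F c ≠ 0 := (_root_.map_ne_zero _).2 hc
  have h0 : a ⟨0, hn⟩ = algebraMap k F c⁻¹ * y ^ 2 := by
    have h1 := h.eq1
    rw [monicPoly_eval_zero a hn] at h1
    rw [← h1, map_inv₀, inv_mul_cancel_left₀ hc']
  have hb : bco (algebraMap k F c⁻¹) (yco a y) = a := by
    funext i
    simp only [bco, yco]
    split_ifs with hi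
    · rw [← h0]
      congr 1
      exact Fin.ext hi.symm
    · rfl
  have hmem : ∀ i, a i ∈ IntermediateField.adjoin k (Set.range (yco a y)) := by
    intro i
    by_cases hi : (i : ℕ) = 0
    · have h2 : i = ⟨0, hn⟩ := Fin.ext hi
      rw [h2, h0]
      have h3 : yco a y ⟨0, hn⟩ ∈ IntermediateField.adjoin k (Set.range (yco a y)) :=
        IntermediateField.subset_adjoin k _ ⟨_, rfl⟩
      have h4 : yco a y ⟨0, hn⟩ = y := by simp [yco]
      rw [h4] at h3
      exact mul_mem (IntermediateField.algebraMap_mem _ _) (pow_mem h3 2)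
    · have h3 : yco a y i ∈ IntermediateField.adjoin k (Set.range (yco a y)) :=
        IntermediateField.subset_adjoin k _ ⟨_, rfl⟩
      have h4 : yco a y i = a i := by simp [yco, hi]
      rw [h4] at h3
      exact h3
  refine ⟨?_, ?_, ?_⟩
  · refine algInd_of h.indep fun i => ?_
    have h5 := isAlgebraic_algebraMap (R := IntermediateField.adjoin k (Set.range (yco a y)))
      (A := F) ⟨a i, hmem i⟩
    exact h5
  · rw [hb]
    exact h.eq2
  · rw [eq_top_iff, ← h.gen, IntermediateField.adjoin_le_iff]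
    have hle : IntermediateField.adjoin k (Set.range (yco a y)) ≤
        IntermediateField.adjoin k (Set.range (pt (yco a y) z)) := by
      rw [IntermediateField.adjoin_le_iff]
      rintro _ ⟨i, rfl⟩
      exact IntermediateField.subset_adjoin k _ ⟨some i, rfl⟩
    rintro _ ⟨o, rfl⟩
    rcases o with _ | _ | o
    · exact IntermediateField.subset_adjoin k _ ⟨none, rfl⟩
    · refine hle (IntermediateField.subset_adjoin k _ ⟨⟨0, hn⟩, ?_⟩)
      simp [yco, pt2, pt]
    · exact hle (hmem o)

end WeylRot
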