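import Pool.Agent.H.WeylRot.W2
import Pool.Agent.H.MP_83e36b_nt.h48.NormScale

/-! Module W3: perturbation of local points. -/

open Polynomial Filter Topology

namespace WeylRot

open AnWA DiscRat

theorem aeval_tendsto {k K T : Type*} [Field k] [NormedField K] [Algebra k K] {σ : Type*}
    {l : Filter T} {p : T → σ → K} {p0 : σ → K} (h : ∀ j, Tendsto (fun t => p t j) l (𝓝 (p0 j)))
    (G : MvPolynomial σ k) :
    Tendsto (fun t => MvPolynomial.aeval (p t) G) l (𝓝 (MvPolynomial.aeval p0 G)) := by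
  induction G using MvPolynomial.induction_on with
  | C a =>
    simp only [MvPolynomial.aeval_C]
    exact tendsto_const_nhds
  | add p q hp hq => simpa only [map_add] using hp.add hq
  | mul_X p j hp => simpa only [map_mul, MvPolynomial.aeval_X] using hp.mul (h j)

/-- every local point is a limit of points where `H` does not vanish -/
theorem exists_pert' {k F K : Type*} [Field k] [CharZero k] [Field F] [Algebra k F]
    [NormedField K] [Algebra k K] (hK : ∃ x : K, 1 < ‖x‖) (hS : SqrtNearOne K) {n : ℕ}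
    (hn : 2 ≤ n) {e d : k} (he : e ≠ 0) (hd : d ≠ 0) {b : Fin n → F} {z : F}
    (hz : algebraMap k F d * (monicPoly (bco (algebraMap k F e) b)).discr = z ^ 2)
    (H : MvPolynomial (Option (Fin n)) k) (hH : MvPolynomial.aeval (pt b z) H ≠ 0)
    (p : Fin n → K) (w : K)
    (hw : algebraMap k K d * (monicPoly (bco (algebraMap k K e) p)).discr = w ^ 2)
    (hw0 : w ≠ 0) :
    ∃ (p' : ℕ → Fin n → K) (w' : ℕ → K),
      (∀ m, algebraMap k K d * (monicPoly (bco (algebraMap k K e) (p' m))).discr = w' m ^ 2 ∧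
        w' m ≠ 0 ∧ MvPolynomial.aeval (pt (p' m) (w' m)) H ≠ 0) ∧
      (∀ j, Tendsto (fun m => p' m j) atTop (𝓝 (p j))) ∧ Tendsto w' atTop (𝓝 w) := by
  classical
  have hch : CharZero K := charZero_of_injective_algebraMap (algebraMap k K).injective
  obtain ⟨H0, H1, R, hR⟩ := exists_split' (ddMv n e d) H
  have hN : H0 ^ 2 - H1 ^ 2 * ddMv n e d ≠ 0 := by
    intro h0
    obtain ⟨h1, h2⟩ := key_sq' hn he hd H0 H1 (sub_eq_zero.1 h0)
    apply hH
    rw [aeval_split' hR b z (by rw [aeval_ddMv, hz]), h1, h2, map_zero, zero_mul, add_zero]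
  set N := H0 ^ 2 - H1 ^ 2 * ddMv n e d with hNdef
  obtain ⟨u, hu⟩ : ∃ u : Fin n → K, MvPolynomial.aeval u N ≠ 0 := by
    by_contra hcon
    push Not at hcon
    apply hN
    apply MvPolynomial.map_injective (algebraMap k K) (algebraMap k K).injective
    apply MvPolynomial.funext
    intro x
    rw [MvPolynomial.eval_map, ← MvPolynomial.aeval_def, hcon x, map_zero, map_zero]
  set Ψ : K[X] := MvPolynomial.aeval (fun i => C (p i) + X * C (u i - p i)) N with hΨdef
  have hΨ : ∀ ε : K, Ψ.eval ε = MvPolynomial.aeval (fun i => p i + ε * (u i - p i)) N := by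
    intro ε
    have h1 := congrFun (congrArg DFunLike.coe (MvPolynomial.comp_aeval
      (fun i => (C (p i) + X * C (u i - p i) : K[X]))
      ((Polynomial.aeval ε : K[X] →ₐ[K] K).restrictScalars k))) N
    have h2 : (fun i => ((Polynomial.aeval ε : K[X] →ₐ[K] K).restrictScalars k)
        (C (p i) + X * C (u i - p i) : K[X])) = fun i => p i + ε * (u i - p i) := by
      funext i
      simp
    rw [h2] at h1
    rw [← h1]
    rfl
  have hΨ0 : Ψ ≠ 0 := by
    intro h0
    have h1 := hΨ 1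
    rw [h0, eval_zero] at h1
    apply hu
    rw [h1]
    congr 2
    funext i
    ring
  obtain ⟨x0, hx0⟩ := hK
  have hx0' : x0 ≠ 0 := by
    rintro rfl
    rw [norm_zero] at hx0
    linarith
  have hnorm : ‖x0⁻¹‖ < 1 := by
    rw [norm_inv]
    exact inv_lt_one_of_one_lt₀ hx0
  set ε : ℕ → K := fun m => x0⁻¹ ^ (m + 1) with hεdef
  have hε0 : Tendsto ε atTop (𝓝 0) :=
    (tendsto_pow_atTop_nhds_zero_of_norm_lt_one hnorm).comp (tendsto_add_atTop_nat 1)
  have hεinj : Function.Injective ε := by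
    intro i j hij
    have h1 : ‖x0⁻¹‖ ^ (i + 1) = ‖x0⁻¹‖ ^ (j + 1) := by
      rw [← norm_pow, ← norm_pow]
      exact congrArg norm hij
    have h2 : 0 < ‖x0⁻¹‖ := norm_pos_iff.2 (inv_ne_zero hx0')
    have h3 := (pow_right_strictAnti₀ h2 hnorm).injective h1
    omega
  have hroots : ∀ᶠ m in atTop, Ψ.eval (ε m) ≠ 0 := by
    have hfin : {x : K | Ψ.eval x = 0}.Finite := by
      refine (Ψ.roots.toFinset.finite_toSet).subset ?_
      intro x hx
      simp only [Finset.mem_coe, Multiset.mem_toFinset]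
      exact (mem_roots hΨ0).2 hx
    have h1 := hεinj.tendsto_cofinite.eventually hfin.compl_mem_cofinite
    rw [Nat.cofinite_eq_atTop] at h1
    exact h1
  -- the perturbed points
  set q : ℕ → Fin n → K := fun m i => p i + ε m * (u i - p i) with hqdef
  have hq : ∀ j, Tendsto (fun m => q m j) atTop (𝓝 (p j)) := by
    intro j
    have := (hε0.mul_const (u j - p j)).const_add (p j)
    simpa using this
  have hdisc := aeval_tendsto hq (ddMv n e d)
  simp only [aeval_ddMv] at hdisc
  rw [hw] at hdisc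
  obtain ⟨r, hr1, hr2⟩ := hS
  set δ : ℕ → K := fun m => (algebraMap k K d *
    (monicPoly (bco (algebraMap k K e) (q m))).discr) / w ^ 2 with hδdef
  have hδ : Tendsto δ atTop (𝓝 1) := by
    have h1 := hdisc.div_const (w ^ 2)
    rwa [div_self (pow_ne_zero 2 hw0)] at h1
  have hrδ : Tendsto (fun m => r (δ m)) atTop (𝓝 1) := hr1.comp hδ
  have hev : ∀ᶠ m in atTop, Ψ.eval (ε m) ≠ 0 ∧ r (δ m) ^ 2 = δ m ∧ r (δ m) ≠ 0 := by
    filter_upwards [hroots, hδ.eventually hr2, hrδ.eventually_ne one_ne_zero] with m h1 h2 h3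
    exact ⟨h1, h2, h3⟩
  obtain ⟨m0, hm0⟩ := eventually_atTop.1 hev
  refine ⟨fun m => q (m + m0), fun m => w * r (δ (m + m0)), ?_, ?_, ?_⟩
  · intro m
    obtain ⟨h1, h2, h3⟩ := hm0 (m + m0) (Nat.le_add_left _ _)
    have h4 : algebraMap k K d * (monicPoly (bco (algebraMap k K e) (q (m + m0)))).discr
        = (w * r (δ (m + m0))) ^ 2 := by
      rw [mul_pow, h2, hδdef]
      simp only
      rw [mul_div_cancel₀ _ (pow_ne_zero 2 hw0)]
    refine ⟨h4, mul_ne_zero hw0 h3, ?_⟩
    intro h5
    rw [aeval_split' hR _ _ (by rw [aeval_ddMv, h4])] at h5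
    apply h1
    rw [hΨ, hNdef, map_sub, map_mul, map_pow, map_pow]
    change MvPolynomial.aeval (q (m + m0)) H0 ^ 2 - MvPolynomial.aeval (q (m + m0)) H1 ^ 2 *
      MvPolynomial.aeval (q (m + m0)) (ddMv n e d) = 0
    rw [aeval_ddMv, h4]
    linear_combination (MvPolynomial.aeval (q (m + m0)) H0 -
      MvPolynomial.aeval (q (m + m0)) H1 * (w * r (δ (m + m0)))) * h5
  · intro j
    exact (hq j).comp (tendsto_add_atTop_nat m0)
  · have h1 := (hrδ.const_mul w).comp (tendsto_add_atTop_nat m0)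
    rw [mul_one] at h1
    exact h1

end WeylRot
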