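import Pool.Agent.H.WeylRot.W3
import Pool.Agent.H.MP_83e36b_nt.H1b

/-! Module W4: weak approximation for `f(0) = e y ^ 2`, `d disc (f) = z ^ 2` from the rationality
of the function field. -/

open Polynomial Filter Topology

namespace WeylRot

open AnWA DiscRat

universe u w

/-- weak approximation for the variety `d * disc (monicPoly (bco e b)) = z ^ 2` at the points with
`z ≠ 0` -/
def BWA {k : Type*} [Field k] {ι : Type*} {K : ι → Type*} [∀ i, NormedField (K i)] (e d : k)
    (n : ℕ) (φ : ∀ i, k →+* K i) : Prop :=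
  ∀ (p : ∀ i, Fin n → K i) (w : ∀ i, K i),
    (∀ i, φ i d * (monicPoly (bco (φ i e) (p i))).discr = w i ^ 2 ∧ w i ≠ 0) →
    ∀ ε : ℝ, 0 < ε → ∃ (P : Fin n → k) (W : k), d * (monicPoly (bco e P)).discr = W ^ 2 ∧
      ∀ i, (∀ j, ‖φ i (P j) - p i j‖ < ε) ∧ ‖φ i W - w i‖ < ε

/-- a form of `Birat.backward` for a family of fields -/
theorem back_family {k F : Type*} [Field k] [Field F] [Algebra k F] {σ : Type*} {n : ℕ}
    {A : σ → F}
    {t : Fin n → F} {P : σ → MvPolynomial (Fin n) k} {Q : MvPolynomial (Fin n) k}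
    {T : Fin n → MvPolynomial σ k} {D : MvPolynomial σ k} (B : Birat A t P Q T D)
    {ι : Type*} (K : ι → Type w) [∀ i, NormedField (K i)] [∀ i, Algebra k (K i)] :
    ∃ H : MvPolynomial σ k, MvPolynomial.aeval A H ≠ 0 ∧ ∀ (i : ι) (p : σ → K i),
      (∀ G : MvPolynomial σ k, MvPolynomial.aeval A G = 0 → MvPolynomial.aeval p G = 0) →
      MvPolynomial.aeval p H ≠ 0 →
      ∃ s : Fin n → K i, MvPolynomial.aeval s Q ≠ 0 ∧
        ∀ j, MvPolynomial.aeval s (P j) / MvPolynomial.aeval s Q = p j := by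
  obtain ⟨H, hH, hback⟩ := Birat.backward.{w} B
  exact ⟨H, hH, fun i p h1 h2 => hback (K i) p h1 h2⟩

theorem bWA_of_rational {k : Type u} [Field k] [CharZero k] {ι : Type*} [Finite ι] [Nonempty ι]
    {K : ι → Type*} [∀ i, NormedField (K i)] {φ : ∀ i, k →+* K i} (hWA : FieldWA φ)
    (hK : ∀ i, ∃ x : K i, 1 < ‖x‖) (hS : ∀ i, SqrtNearOne (K i)) {n : ℕ} (hn : 2 ≤ n) {e d : k}
    (he : e ≠ 0) (hd : d ≠ 0)
    (hrat : ∀ (F : Type u) [Field F] [Algebra k F] (a : Fin n → F) (y z : F),
      IsDField k e⁻¹ d a y z → ∃ t : Fin n → F, AlgebraicIndependent k t ∧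
        IntermediateField.adjoin k (Set.range t) = ⊤) : BWA e d n φ := by
  classical
  intro p w hpw ε hε
  let alg : ∀ i, Algebra k (K i) := fun i => (φ i).toAlgebra
  have halg : ∀ i (x : k), algebraMap k (K i) x = φ i x := fun i x => rfl
  obtain ⟨F, _, _, a, y0, z0, hF⟩ := exists_DField k n e⁻¹ d
  obtain ⟨t, ht, htg⟩ := hrat F a y0 z0 hF
  obtain ⟨hb, hz, hgen⟩ := hF.yco_props (by omega) (inv_ne_zero he)
  rw [inv_inv] at hz
  obtain ⟨P, Q, T, D, B⟩ := exists_birat hgen ht htg
  obtain ⟨H, hH, hback⟩ := back_family B K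
  -- move the local points to general position
  have hpert : ∀ i, ∃ (p' : Fin n → K i) (w' : K i),
      φ i d * (monicPoly (bco (φ i e) p')).discr = w' ^ 2 ∧ w' ≠ 0 ∧
      MvPolynomial.aeval (pt p' w') H ≠ 0 ∧ (∀ j, ‖p' j - p i j‖ < ε / 2) ∧
      ‖w' - w i‖ < ε / 2 := by
    intro i
    obtain ⟨p', w', h1, h2, h3⟩ := exists_pert' (hK i) (hS i) hn he hd hz H hH (p i) (w i)
      (hpw i).1 (hpw i).2
    have h4 : ∀ᶠ m in atTop, (∀ j, ‖p' m j - p i j‖ < ε / 2) ∧ ‖w' m - w i‖ < ε / 2 := by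
      refine Filter.Eventually.and ?_ ?_
      · rw [Filter.eventually_all]
        intro j
        have := (tendsto_iff_norm_sub_tendsto_zero.1 (h2 j))
        exact this.eventually (gt_mem_nhds (half_pos hε))
      · have := (tendsto_iff_norm_sub_tendsto_zero.1 h3)
        exact this.eventually (gt_mem_nhds (half_pos hε))
    obtain ⟨m, hm⟩ := h4.exists
    exact ⟨p' m, w' m, (h1 m).1, (h1 m).2.1, (h1 m).2.2, hm.1, hm.2⟩
  choose p' w' h1 h2 h3 h4 h5 using hpert
  have hs : ∀ i, ∃ s : Fin n → K i, MvPolynomial.aeval s Q ≠ 0 ∧ ∀ j,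
      MvPolynomial.aeval s (P j) / MvPolynomial.aeval s Q = pt (p' i) (w' i) j := by
    intro i
    refine hback i _ ?_ (h3 i)
    intro G hG
    exact vanish' hn he hd hb hz G hG _ _ (h1 i)
  choose s hsQ hsP using hs
  have hu : ∀ j : Fin n, ∃ u : ℕ → k, ∀ i, Tendsto (fun N => φ i (u N)) atTop (𝓝 (s i j)) :=
    fun j => exists_seq hWA (fun i => s i j)
  choose u hu using hu
  have hev : ∀ i (G : MvPolynomial (Fin n) k),
      Tendsto (fun N => φ i (MvPolynomial.aeval (fun j => u j N) G)) atTop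
        (𝓝 (MvPolynomial.aeval (s i) G)) := by
    intro i G
    induction G using MvPolynomial.induction_on with
    | C a =>
      simp only [MvPolynomial.aeval_C, Algebra.algebraMap_self, RingHom.id_apply, halg]
      exact tendsto_const_nhds
    | add p q hp hq => simpa only [map_add] using hp.add hq
    | mul_X p j hp => simpa only [map_mul, MvPolynomial.aeval_X] using hp.mul (hu j i)
  have hQe : ∀ᶠ N in atTop, MvPolynomial.aeval (fun j => u j N) Q ≠ 0 := by
    obtain ⟨i0⟩ := (inferInstance : Nonempty ι)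
    filter_upwards [(hev i0 Q).eventually_ne (hsQ i0)] with N hN h0
    exact hN (by rw [h0, map_zero])
  have hdiv : ∀ i (j : Option (Fin n)), Tendsto (fun N => φ i
      (MvPolynomial.aeval (fun j => u j N) (P j) / MvPolynomial.aeval (fun j => u j N) Q)) atTop
      (𝓝 (pt (p' i) (w' i) j)) := by
    intro i j
    rw [← hsP i j]
    simp only [map_div₀]
    exact (hev i (P j)).div (hev i Q) (hsQ i)
  have hclose : ∀ᶠ N in atTop, ∀ i (j : Option (Fin n)), ‖φ i
      (MvPolynomial.aeval (fun j => u j N) (P j) / MvPolynomial.aeval (fun j => u j N) Q)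
      - pt (p' i) (w' i) j‖ < ε / 2 := by
    rw [Filter.eventually_all]
    intro i
    rw [Filter.eventually_all]
    intro j
    exact (tendsto_iff_norm_sub_tendsto_zero.1 (hdiv i j)).eventually (gt_mem_nhds (half_pos hε))
  obtain ⟨N, hN1, hN2⟩ := (hQe.and hclose).exists
  refine ⟨fun j => MvPolynomial.aeval (fun j => u j N) (P (some j)) /
        MvPolynomial.aeval (fun j => u j N) Q, MvPolynomial.aeval (fun j => u j N) (P none) /
        MvPolynomial.aeval (fun j => u j N) Q, ?_, ?_⟩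
  · have h6 := B.forward (fun j => u j N) hN1
      (MvPolynomial.X none ^ 2 - MvPolynomial.rename some (ddMv n e d)) (by
        rw [map_sub, map_pow, MvPolynomial.aeval_X, MvPolynomial.aeval_rename]
        change z0 ^ 2 - MvPolynomial.aeval (yco a y0) (ddMv n e d) = 0
        rw [aeval_ddMv, hz, sub_self])
    rw [map_sub, map_pow, MvPolynomial.aeval_X, MvPolynomial.aeval_rename, sub_eq_zero] at h6
    rw [h6]
    have h7 := aeval_ddMv (K := k) e d (fun j => MvPolynomial.aeval (fun j => u j N) (P (some j)) /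
        MvPolynomial.aeval (fun j => u j N) Q)
    rw [Algebra.algebraMap_self, RingHom.id_apply, RingHom.id_apply] at h7
    exact h7.symm
  · intro i
    constructor
    · intro j
      have h8 := hN2 i (some j)
      calc _ ≤ ‖φ i (MvPolynomial.aeval (fun j => u j N) (P (some j)) /
            MvPolynomial.aeval (fun j => u j N) Q) - p' i j‖ + ‖p' i j - p i j‖ :=
            norm_sub_le_norm_sub_add_norm_sub _ _ _
        _ < ε / 2 + ε / 2 := add_lt_add h8 (h4 i j)
        _ = ε := add_halves ε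
    · have h8 := hN2 i none
      calc _ ≤ ‖φ i (MvPolynomial.aeval (fun j => u j N) (P none) /
            MvPolynomial.aeval (fun j => u j N) Q) - w' i‖ + ‖w' i - w i‖ :=
            norm_sub_le_norm_sub_add_norm_sub _ _ _
        _ < ε / 2 + ε / 2 := add_lt_add h8 (h5 i)
        _ = ε := add_halves ε

end WeylRot
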