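import Pool.Agent.H.MP_83e36b_nt.Statement

/-!
# Quadric bundles ramified along the discriminants and the constant terms of polynomials

We consider the varieties of tuples `(w, (f_j), (z_j), (z'_j))`, `w` in affine `s`-space, `f_j`
monic of degree `n_j`, such that for all `j`
`P_j(w) * f_j(0) = Q_j(w; z_j) ≠ 0` and `P'_j(w) * disc (f_j) = Q'_j(w; z'_j) ≠ 0`,
with polynomials `P_j`, `P'_j` in `w` and quadratic forms `Q_j`, `Q'_j` whose coefficients are
polynomials in `w`.
-/

open Polynomial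

namespace WeylRot

open AnWA

/-- The value at `(w, z)` of the quadratic form `∑ M_ab(w) z_a z_b`, the `M_ab` being polynomials in
`w` over `k`, in a ring `R` to which `k` is mapped by `φ`. -/
noncomputable def quad {k R : Type*} [Field k] [CommRing R] (φ : k →+* R) {s r : ℕ}
    (M : Matrix (Fin r) (Fin r) (MvPolynomial (Fin s) k)) (w : Fin s → R) (z : Fin r → R) : R :=
  ∑ a, ∑ b, MvPolynomial.eval₂ φ w (M a b) * (z a * z b)

/-- The data which define the variety: the degrees `n j`, the numbers `r j`, `r' j` of variables of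
the quadratic forms, the polynomials `P j`, `P' j` and the quadratic forms `Q j`, `Q' j`. -/
structure QData (k : Type*) [Field k] (m s : ℕ) where
  n : Fin m → ℕ
  r : Fin m → ℕ
  r' : Fin m → ℕ
  P : Fin m → MvPolynomial (Fin s) k
  P' : Fin m → MvPolynomial (Fin s) k
  Q : ∀ j, Matrix (Fin (r j)) (Fin (r j)) (MvPolynomial (Fin s) k)
  Q' : ∀ j, Matrix (Fin (r' j)) (Fin (r' j)) (MvPolynomial (Fin s) k)

/-- The affine space which contains the variety: the tuples `(w, a, z, z')`, where `w` is in `R ^ s`,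
`a j` in `R ^ (n j)`, `z j` in `R ^ (r j)` and `z' j` in `R ^ (r' j)`. -/
def QAmb {k : Type*} [Field k] {m s : ℕ} (D : QData k m s) (R : Type*) : Type _ :=
  (Fin s → R) × (∀ j, Fin (D.n j) → R) × (∀ j, Fin (D.r j) → R) × (∀ j, Fin (D.r' j) → R)

/-- The product topology. -/
instance {k : Type*} [Field k] {m s : ℕ} (D : QData k m s) (R : Type*) [TopologicalSpace R] :
    TopologicalSpace (QAmb D R) :=
  inferInstanceAs (TopologicalSpace ((Fin s → R) × (∀ j, Fin (D.n j) → R) ×
    (∀ j, Fin (D.r j) → R) × (∀ j, Fin (D.r' j) → R)))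

/-- The points of the variety over a ring `R` (a field in what follows) to which `k` is mapped by
`φ`: the tuples `(w, a, z, z')` such that `P_j(w) * f_j(0) = Q_j(w; z_j) ≠ 0` and
`P'_j(w) * disc (f_j) = Q'_j(w; z'_j) ≠ 0` for all `j`, where `f_j = monicPoly (a j)`.  If `R` is a
topological field the set of points carries the subspace topology. -/
def QPts {k : Type*} [Field k] {m s : ℕ} (D : QData k m s) {R : Type*} [CommRing R]
    (φ : k →+* R) : Set (QAmb D R) :=
  {p | ∀ j,
    (MvPolynomial.eval₂ φ p.1 (D.P j) * (monicPoly (p.2.1 j)).eval 0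
      = quad φ (D.Q j) p.1 (p.2.2.1 j) ∧ quad φ (D.Q j) p.1 (p.2.2.1 j) ≠ 0) ∧
    (MvPolynomial.eval₂ φ p.1 (D.P' j) * (monicPoly (p.2.1 j)).discr
      = quad φ (D.Q' j) p.1 (p.2.2.2 j) ∧ quad φ (D.Q' j) p.1 (p.2.2.2 j) ≠ 0)}

theorem eval₂_map_pt {k R : Type*} [Field k] [CommRing R] (φ : k →+* R) {s : ℕ}
    (G : MvPolynomial (Fin s) k) (w : Fin s → k) :
    MvPolynomial.eval₂ φ (fun i => φ (w i)) G
      = φ (MvPolynomial.eval₂ (RingHom.id k) w G) := by
  rw [MvPolynomial.hom_eval₂, RingHom.comp_id]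

theorem quad_map_pt {k R : Type*} [Field k] [CommRing R] (φ : k →+* R) {s r : ℕ}
    (M : Matrix (Fin r) (Fin r) (MvPolynomial (Fin s) k)) (w : Fin s → k) (z : Fin r → k) :
    quad φ M (fun i => φ (w i)) (fun i => φ (z i)) = φ (quad (RingHom.id k) M w z) := by
  simp only [quad, map_sum, map_mul, eval₂_map_pt]

theorem map_mem_QPts {k : Type*} [Field k] {m s : ℕ} {D : QData k m s} {R : Type*} [Field R]
    (φ : k →+* R) (p : QPts D (RingHom.id k)) :
    ((fun i => φ (p.1.1 i), fun j i => φ (p.1.2.1 j i), fun j i => φ (p.1.2.2.1 j i),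
      fun j i => φ (p.1.2.2.2 j i)) : QAmb D R) ∈ QPts D φ := by
  intro j
  obtain ⟨⟨h1, h2⟩, h3, h4⟩ := p.2 j
  have h5 : (monicPoly (fun i => φ (p.1.2.1 j i))).eval 0
      = φ ((monicPoly (p.1.2.1 j)).eval 0) := by
    rw [monicPoly_map, ← coeff_zero_eq_eval_zero, ← coeff_zero_eq_eval_zero, coeff_map]
  refine ⟨⟨?_, ?_⟩, ?_, ?_⟩
  · show MvPolynomial.eval₂ φ (fun i => φ (p.1.1 i)) (D.P j) *
        (monicPoly (fun i => φ (p.1.2.1 j i))).eval 0
      = quad φ (D.Q j) (fun i => φ (p.1.1 i)) (fun i => φ (p.1.2.2.1 j i))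
    rw [eval₂_map_pt, quad_map_pt, h5, ← map_mul, h1]
  · show quad φ (D.Q j) (fun i => φ (p.1.1 i)) (fun i => φ (p.1.2.2.1 j i)) ≠ 0
    rw [quad_map_pt]
    exact fun h => h2 ((map_eq_zero φ).mp h)
  · show MvPolynomial.eval₂ φ (fun i => φ (p.1.1 i)) (D.P' j) *
        (monicPoly (fun i => φ (p.1.2.1 j i))).discr
      = quad φ (D.Q' j) (fun i => φ (p.1.1 i)) (fun i => φ (p.1.2.2.2 j i))
    rw [eval₂_map_pt, quad_map_pt, discr_monicPoly_map, ← map_mul, h3]
  · show quad φ (D.Q' j) (fun i => φ (p.1.1 i)) (fun i => φ (p.1.2.2.2 j i)) ≠ 0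
    rw [quad_map_pt]
    exact fun h => h4 ((map_eq_zero φ).mp h)

/-- The map from the `k`-points to the points over a field `R` given by an embedding `φ` of `k`
into `R`: apply `φ` to all coordinates. -/
noncomputable def mapQPt {k : Type*} [Field k] {m s : ℕ} {D : QData k m s} {R : Type*} [Field R]
    (φ : k →+* R) (p : QPts D (RingHom.id k)) : QPts D φ :=
  ⟨(fun i => φ (p.1.1 i), fun j i => φ (p.1.2.1 j i), fun j i => φ (p.1.2.2.1 j i),
      fun j i => φ (p.1.2.2.2 j i)), map_mem_QPts φ p⟩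

end WeylRot
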