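import Pool.Agent.H.WeylRot.W4
import Pool.Agent.H.WeylRot.WStat

/-! Module W5: prescribed square classes of the constant term and the discriminant. -/

open Polynomial Filter Topology

namespace WeylRot

open AnWA DiscRat

section

variable {k : Type*} [Field k] {ι : Type*} [Finite ι] [Nonempty ι] {K : ι → Type*}
  [∀ i, NormedField (K i)] {φ : ∀ i, k →+* K i}

/-- one polynomial -/
theorem single (hS : ∀ i, SqrtNearOne (K i)) {n : ℕ} (hn : 0 < n)
    (hB : ∀ e d : k, e ≠ 0 → d ≠ 0 → BWA e d n φ) (a : ∀ i, Fin n → K i) (E D : ℕ → k)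
    (hE : ∀ i, Tendsto (fun N => φ i (E N)) atTop (𝓝 ((monicPoly (a i)).eval 0)))
    (hE0 : ∀ i, (monicPoly (a i)).eval 0 ≠ 0)
    (hD : ∀ i, Tendsto (fun N => φ i (D N)) atTop (𝓝 ((monicPoly (a i)).discr)))
    (hD0 : ∀ i, (monicPoly (a i)).discr ≠ 0) :
    ∃ (A : ℕ → Fin n → k) (y w : ℕ → k),
      (∀ᶠ N in atTop, (monicPoly (A N)).eval 0 = E N * y N ^ 2 ∧
        (monicPoly (A N)).discr = D N * w N ^ 2) ∧
      (∀ i j, Tendsto (fun N => φ i (A N j)) atTop (𝓝 (a i j))) ∧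
      (∀ i, Tendsto (fun N => φ i (y N)) atTop (𝓝 1)) ∧
      (∀ i, Tendsto (fun N => φ i (w N)) atTop (𝓝 1)) := by
  classical
  choose r hr1 hr2 using hS
  set κ1 : ∀ i, ℕ → K i := fun i N => (monicPoly (a i)).eval 0 / φ i (E N) with hκ1def
  set κ2 : ∀ i, ℕ → K i := fun i N => (monicPoly (a i)).discr / φ i (D N) with hκ2def
  have hκ1 : ∀ i, Tendsto (κ1 i) atTop (𝓝 1) := by
    intro i
    have h := (tendsto_const_nhds (x := (monicPoly (a i)).eval 0)).div (hE i) (hE0 i)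
    rwa [div_self (hE0 i)] at h
  have hκ2 : ∀ i, Tendsto (κ2 i) atTop (𝓝 1) := by
    intro i
    have h := (tendsto_const_nhds (x := (monicPoly (a i)).discr)).div (hD i) (hD0 i)
    rwa [div_self (hD0 i)] at h
  have hy : ∀ i, Tendsto (fun N => r i (κ1 i N)) atTop (𝓝 1) := fun i => (hr1 i).comp (hκ1 i)
  have hw : ∀ i, Tendsto (fun N => r i (κ2 i N)) atTop (𝓝 1) := fun i => (hr1 i).comp (hκ2 i)
  have hev : ∀ᶠ N in atTop, ∀ i, r i (κ1 i N) ^ 2 = κ1 i N ∧ r i (κ2 i N) ^ 2 = κ2 i N ∧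
      φ i (E N) ≠ 0 ∧ φ i (D N) ≠ 0 ∧ r i (κ2 i N) ≠ 0 := by
    rw [Filter.eventually_all]
    intro i
    filter_upwards [(hκ1 i).eventually (hr2 i), (hκ2 i).eventually (hr2 i),
      (hE i).eventually_ne (hE0 i), (hD i).eventually_ne (hD0 i),
      (hw i).eventually_ne one_ne_zero] with N h1 h2 h3 h4 h5
    exact ⟨h1, h2, h3, h4, h5⟩
  have hex : ∀ N : ℕ, ∃ (P : Fin n → k) (W : k),
      (∀ i, r i (κ1 i N) ^ 2 = κ1 i N ∧ r i (κ2 i N) ^ 2 = κ2 i N ∧
        φ i (E N) ≠ 0 ∧ φ i (D N) ≠ 0 ∧ r i (κ2 i N) ≠ 0) →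
      (monicPoly (bco (E N) P)).discr = D N * W ^ 2 ∧
      ∀ i, (∀ j, ‖φ i (P j) - yco (a i) (r i (κ1 i N)) j‖ < 1 / ((N : ℝ) + 1)) ∧
        ‖φ i W - r i (κ2 i N)‖ < 1 / ((N : ℝ) + 1) := by
    intro N
    by_cases h : ∀ i, r i (κ1 i N) ^ 2 = κ1 i N ∧ r i (κ2 i N) ^ 2 = κ2 i N ∧
        φ i (E N) ≠ 0 ∧ φ i (D N) ≠ 0 ∧ r i (κ2 i N) ≠ 0
    · obtain ⟨i0⟩ := (inferInstance : Nonempty ι)
      have hE' : E N ≠ 0 := fun h0 => (h i0).2.2.1 (by rw [h0, map_zero])
      have hD' : D N ≠ 0 := fun h0 => (h i0).2.2.2.1 (by rw [h0, map_zero])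
      obtain ⟨P, W, hP, hcl⟩ := hB (E N) (D N)⁻¹ hE' (inv_ne_zero hD')
        (fun i => yco (a i) (r i (κ1 i N))) (fun i => r i (κ2 i N)) (by
          intro i
          obtain ⟨h1, h2, h3, h4, h5⟩ := h i
          refine ⟨?_, h5⟩
          have h6 : bco (φ i (E N)) (yco (a i) (r i (κ1 i N))) = a i := by
            funext j
            simp only [bco, yco]
            split_ifs with hj
            · rw [h1, hκ1def]
              simp only
              rw [mul_div_cancel₀ _ h3, monicPoly_eval_zero (a i) hn]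
              congr 1
              exact Fin.ext hj.symm
            · rfl
          rw [h6, h2, hκ2def, map_inv₀]
          simp only
          rw [div_eq_inv_mul]) (1 / ((N : ℝ) + 1)) (by positivity)
      refine ⟨P, W, fun _ => ⟨?_, hcl⟩⟩
      rw [← hP, mul_inv_cancel_left₀ hD']
    · exact ⟨0, 0, fun h' => absurd h' h⟩
  choose P W hPW using hex
  have hPW' : ∀ᶠ N in atTop, (monicPoly (bco (E N) (P N))).discr = D N * W N ^ 2 ∧
      ∀ i, (∀ j, ‖φ i (P N j) - yco (a i) (r i (κ1 i N)) j‖ < 1 / ((N : ℝ) + 1)) ∧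
        ‖φ i (W N) - r i (κ2 i N)‖ < 1 / ((N : ℝ) + 1) := by
    filter_upwards [hev] with N hN
    exact hPW N hN
  have hWt : ∀ i, Tendsto (fun N => φ i (W N)) atTop (𝓝 1) := by
    intro i
    have h2 : Tendsto (fun N => φ i (W N) - r i (κ2 i N)) atTop (𝓝 0) := by
      rw [tendsto_zero_iff_norm_tendsto_zero]
      refine squeeze_zero' (Eventually.of_forall fun N => norm_nonneg _) ?_
        tendsto_one_div_add_atTop_nhds_zero_nat
      filter_upwards [hPW'] with N hN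
      exact (hN.2 i).2.le
    simpa using h2.add (hw i)
  have hPt0 : ∀ i j, Tendsto (fun N => φ i (P N j) - yco (a i) (r i (κ1 i N)) j) atTop
      (𝓝 0) := by
    intro i j
    rw [tendsto_zero_iff_norm_tendsto_zero]
    refine squeeze_zero' (Eventually.of_forall fun N => norm_nonneg _) ?_
      tendsto_one_div_add_atTop_nhds_zero_nat
    filter_upwards [hPW'] with N hN
    exact ((hN.2 i).1 j).le
  have hy0 : ∀ i, Tendsto (fun N => φ i (P N ⟨0, hn⟩)) atTop (𝓝 1) := by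
    intro i
    have h2 := (hPt0 i ⟨0, hn⟩).add (hy i)
    simpa [yco] using h2
  have hyj : ∀ i (j : Fin n), (j : ℕ) ≠ 0 → Tendsto (fun N => φ i (P N j)) atTop
      (𝓝 (a i j)) := by
    intro i j hj
    have h2 := (hPt0 i j).add (tendsto_const_nhds (x := a i j))
    simpa [yco, hj] using h2
  refine ⟨fun N => bco (E N) (P N), fun N => P N ⟨0, hn⟩, W, ?_, ?_, hy0, hWt⟩
  · filter_upwards [hPW'] with N hN
    refine ⟨?_, hN.1⟩
    rw [monicPoly_eval_zero _ hn]
    simp [bco]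
  · intro i j
    simp only [bco]
    split_ifs with hj
    · have h3 : j = ⟨0, hn⟩ := Fin.ext hj
      subst h3
      have h4 := (hE i).mul ((hy0 i).pow 2)
      rw [monicPoly_eval_zero (a i) hn, one_pow, mul_one] at h4
      simpa only [map_mul, map_pow] using h4
    · exact hyj i j hj

omit [Finite ι] [Nonempty ι] in
theorem eval₂_tendsto {s : ℕ} {i : ι} {u : ℕ → Fin s → k} {u0 : Fin s → K i}
    (h : ∀ j, Tendsto (fun N => φ i (u N j)) atTop (𝓝 (u0 j))) (G : MvPolynomial (Fin s) k) :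
    Tendsto (fun N => φ i (MvPolynomial.eval₂ (RingHom.id k) (u N) G)) atTop
      (𝓝 (MvPolynomial.eval₂ (φ i) u0 G)) := by
  simp only [← eval₂_map_pt]
  induction G using MvPolynomial.induction_on with
  | C a =>
    simp only [MvPolynomial.eval₂_C]
    exact tendsto_const_nhds
  | add p q hp hq => simpa only [MvPolynomial.eval₂_add] using hp.add hq
  | mul_X p j hp => simpa only [MvPolynomial.eval₂_mul, MvPolynomial.eval₂_X] using hp.mul (h j)

omit [Finite ι] [Nonempty ι] in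
theorem quad_tendsto {s r : ℕ} {i : ι} {u : ℕ → Fin s → k} {u0 : Fin s → K i}
    (h : ∀ j, Tendsto (fun N => φ i (u N j)) atTop (𝓝 (u0 j))) {z : ℕ → Fin r → k}
    {z0 : Fin r → K i} (hz : ∀ j, Tendsto (fun N => φ i (z N j)) atTop (𝓝 (z0 j)))
    (M : Matrix (Fin r) (Fin r) (MvPolynomial (Fin s) k)) :
    Tendsto (fun N => φ i (quad (RingHom.id k) M (u N) (z N))) atTop
      (𝓝 (quad (φ i) M u0 z0)) := by
  simp only [quad, map_sum, map_mul]
  exact tendsto_finsetSum _ fun a _ => tendsto_finsetSum _ fun b _ =>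
    (eval₂_tendsto h (M a b)).mul ((hz a).mul (hz b))

theorem quad_smul {R : Type*} [CommRing R] (ψ : k →+* R) {s r : ℕ}
    (M : Matrix (Fin r) (Fin r) (MvPolynomial (Fin s) k)) (w : Fin s → R) (l : R)
    (z : Fin r → R) : quad ψ M w (fun i => l * z i) = l ^ 2 * quad ψ M w z := by
  simp only [quad, Finset.mul_sum]
  exact Finset.sum_congr rfl fun a _ => Finset.sum_congr rfl fun b _ => by ring

/-- the approximation statement in terms of sequences -/
theorem qWA (hWA : FieldWA φ) (hS : ∀ i, SqrtNearOne (K i)) {m s : ℕ} (D : QData k m s)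
    (hn : ∀ j, 0 < D.n j) (hB : ∀ j, ∀ e d : k, e ≠ 0 → d ≠ 0 → BWA e d (D.n j) φ)
    (x : ∀ i, QPts D (φ i)) : ∃ p : ℕ → QPts D (RingHom.id k),
      (∀ i j, Tendsto (fun N => φ i ((p N).1.1 j)) atTop (𝓝 ((x i).1.1 j))) ∧
      (∀ i j l, Tendsto (fun N => φ i ((p N).1.2.1 j l)) atTop (𝓝 ((x i).1.2.1 j l))) ∧
      (∀ i j l, Tendsto (fun N => φ i ((p N).1.2.2.1 j l)) atTop (𝓝 ((x i).1.2.2.1 j l))) ∧
      (∀ i j l, Tendsto (fun N => φ i ((p N).1.2.2.2 j l)) atTop (𝓝 ((x i).1.2.2.2 j l))) := by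
  classical
  have hU : ∀ j : Fin s, ∃ v : ℕ → k, ∀ i, Tendsto (fun N => φ i (v N)) atTop
      (𝓝 ((x i).1.1 j)) := fun j => exists_seq hWA fun i => (x i).1.1 j
  choose U hU using hU
  have hZ : ∀ j (l : Fin (D.r j)), ∃ v : ℕ → k, ∀ i, Tendsto (fun N => φ i (v N)) atTop
      (𝓝 ((x i).1.2.2.1 j l)) := fun j l => exists_seq hWA fun i => (x i).1.2.2.1 j l
  choose Z hZ using hZ
  have hZ' : ∀ j (l : Fin (D.r' j)), ∃ v : ℕ → k, ∀ i, Tendsto (fun N => φ i (v N)) atTop
      (𝓝 ((x i).1.2.2.2 j l)) := fun j l => exists_seq hWA fun i => (x i).1.2.2.2 j l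
  choose Z' hZ' using hZ'
  have hP0 : ∀ i j, MvPolynomial.eval₂ (φ i) (x i).1.1 (D.P j) ≠ 0 := fun i j h =>
    ((x i).2 j).1.2 (by rw [← ((x i).2 j).1.1, h, zero_mul])
  have hf0 : ∀ i j, (monicPoly ((x i).1.2.1 j)).eval 0 ≠ 0 := fun i j h =>
    ((x i).2 j).1.2 (by rw [← ((x i).2 j).1.1, h, mul_zero])
  have hP0' : ∀ i j, MvPolynomial.eval₂ (φ i) (x i).1.1 (D.P' j) ≠ 0 := fun i j h =>
    ((x i).2 j).2.2 (by rw [← ((x i).2 j).2.1, h, zero_mul])
  have hf0' : ∀ i j, (monicPoly ((x i).1.2.1 j)).discr ≠ 0 := fun i j h =>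
    ((x i).2 j).2.2 (by rw [← ((x i).2 j).2.1, h, mul_zero])
  have hPt : ∀ i j, Tendsto (fun N => φ i (MvPolynomial.eval₂ (RingHom.id k)
      (fun l => U l N) (D.P j))) atTop (𝓝 (MvPolynomial.eval₂ (φ i) (x i).1.1 (D.P j))) :=
    fun i j => eval₂_tendsto (fun l => hU l i) _
  have hPt' : ∀ i j, Tendsto (fun N => φ i (MvPolynomial.eval₂ (RingHom.id k)
      (fun l => U l N) (D.P' j))) atTop (𝓝 (MvPolynomial.eval₂ (φ i) (x i).1.1 (D.P' j))) :=
    fun i j => eval₂_tendsto (fun l => hU l i) _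
  have hQt : ∀ i j, Tendsto (fun N => φ i (quad (RingHom.id k) (D.Q j)
      (fun l => U l N) (fun l => Z j l N))) atTop
      (𝓝 (quad (φ i) (D.Q j) (x i).1.1 ((x i).1.2.2.1 j))) :=
    fun i j => quad_tendsto (fun l => hU l i) (fun l => hZ j l i) _
  have hQt' : ∀ i j, Tendsto (fun N => φ i (quad (RingHom.id k) (D.Q' j)
      (fun l => U l N) (fun l => Z' j l N))) atTop
      (𝓝 (quad (φ i) (D.Q' j) (x i).1.1 ((x i).1.2.2.2 j))) :=
    fun i j => quad_tendsto (fun l => hU l i) (fun l => hZ' j l i) _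
  have hsingle : ∀ j, ∃ (A : ℕ → Fin (D.n j) → k) (y w : ℕ → k),
      (∀ᶠ N in atTop, (monicPoly (A N)).eval 0 =
          (quad (RingHom.id k) (D.Q j) (fun l => U l N) (fun l => Z j l N) /
            MvPolynomial.eval₂ (RingHom.id k) (fun l => U l N) (D.P j)) * y N ^ 2 ∧
        (monicPoly (A N)).discr =
          (quad (RingHom.id k) (D.Q' j) (fun l => U l N) (fun l => Z' j l N) /
            MvPolynomial.eval₂ (RingHom.id k) (fun l => U l N) (D.P' j)) * w N ^ 2) ∧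
      (∀ i l, Tendsto (fun N => φ i (A N l)) atTop (𝓝 ((x i).1.2.1 j l))) ∧
      (∀ i, Tendsto (fun N => φ i (y N)) atTop (𝓝 1)) ∧
      (∀ i, Tendsto (fun N => φ i (w N)) atTop (𝓝 1)) := by
    intro j
    refine single hS (hn j) (hB j) (fun i => (x i).1.2.1 j) _ _ ?_ (fun i => hf0 i j) ?_
      (fun i => hf0' i j)
    · intro i
      have h := (hQt i j).div (hPt i j) (hP0 i j)
      rw [← ((x i).2 j).1.1, mul_div_cancel_left₀ _ (hP0 i j)] at h
      simp only [map_div₀]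
      exact h
    · intro i
      have h := (hQt' i j).div (hPt' i j) (hP0' i j)
      rw [← ((x i).2 j).2.1, mul_div_cancel_left₀ _ (hP0' i j)] at h
      simp only [map_div₀]
      exact h
  choose A y w hA hAt hyt hwt using hsingle
  have hev : ∀ᶠ N in atTop, ∀ j, ((monicPoly (A j N)).eval 0 =
          (quad (RingHom.id k) (D.Q j) (fun l => U l N) (fun l => Z j l N) /
            MvPolynomial.eval₂ (RingHom.id k) (fun l => U l N) (D.P j)) * y j N ^ 2 ∧
        (monicPoly (A j N)).discr =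
          (quad (RingHom.id k) (D.Q' j) (fun l => U l N) (fun l => Z' j l N) /
            MvPolynomial.eval₂ (RingHom.id k) (fun l => U l N) (D.P' j)) * w j N ^ 2) ∧
      (y j N ≠ 0 ∧ w j N ≠ 0 ∧
        MvPolynomial.eval₂ (RingHom.id k) (fun l => U l N) (D.P j) ≠ 0 ∧
        MvPolynomial.eval₂ (RingHom.id k) (fun l => U l N) (D.P' j) ≠ 0 ∧
        quad (RingHom.id k) (D.Q j) (fun l => U l N) (fun l => Z j l N) ≠ 0 ∧
        quad (RingHom.id k) (D.Q' j) (fun l => U l N) (fun l => Z' j l N) ≠ 0) := by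
    rw [Filter.eventually_all]
    intro j
    obtain ⟨i0⟩ := (inferInstance : Nonempty ι)
    filter_upwards [hA j, (hyt j i0).eventually_ne one_ne_zero,
      (hwt j i0).eventually_ne one_ne_zero, (hPt i0 j).eventually_ne (hP0 i0 j),
      (hPt' i0 j).eventually_ne (hP0' i0 j), (hQt i0 j).eventually_ne ((x i0).2 j).1.2,
      (hQt' i0 j).eventually_ne ((x i0).2 j).2.2] with N h1 h2 h3 h4 h5 h6 h7
    exact ⟨h1, fun h => h2 (by rw [h, map_zero]), fun h => h3 (by rw [h, map_zero]),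
      fun h => h4 (by rw [h, map_zero]), fun h => h5 (by rw [h, map_zero]),
      fun h => h6 (by rw [h, map_zero]), fun h => h7 (by rw [h, map_zero])⟩
  obtain ⟨N0, hN0⟩ := eventually_atTop.1 hev
  have hsh : Tendsto (fun N : ℕ => N + N0) atTop atTop := tendsto_add_atTop_nat N0
  refine ⟨fun N => ⟨(fun l => U l (N + N0), fun j => A j (N + N0),
    fun j l => y j (N + N0) * Z j l (N + N0), fun j l => w j (N + N0) * Z' j l (N + N0)), ?_⟩,
    ?_, ?_, ?_, ?_⟩
  · intro j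
    obtain ⟨⟨h1, h2⟩, h3, h4, h5, h6, h7, h8⟩ := hN0 (N + N0) (Nat.le_add_left _ _) j
    show (MvPolynomial.eval₂ (RingHom.id k) (fun l => U l (N + N0)) (D.P j) *
        (monicPoly (A j (N + N0))).eval 0
        = quad (RingHom.id k) (D.Q j) (fun l => U l (N + N0))
          (fun l => y j (N + N0) * Z j l (N + N0)) ∧
        quad (RingHom.id k) (D.Q j) (fun l => U l (N + N0))
          (fun l => y j (N + N0) * Z j l (N + N0)) ≠ 0) ∧
      (MvPolynomial.eval₂ (RingHom.id k) (fun l => U l (N + N0)) (D.P' j) *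
        (monicPoly (A j (N + N0))).discr
        = quad (RingHom.id k) (D.Q' j) (fun l => U l (N + N0))
          (fun l => w j (N + N0) * Z' j l (N + N0)) ∧
        quad (RingHom.id k) (D.Q' j) (fun l => U l (N + N0))
          (fun l => w j (N + N0) * Z' j l (N + N0)) ≠ 0)
    rw [quad_smul, quad_smul, h1, h2]
    refine ⟨⟨?_, mul_ne_zero (pow_ne_zero 2 h3) h7⟩, ?_, mul_ne_zero (pow_ne_zero 2 h4) h8⟩
    · field_simp
    · field_simp
  · intro i j
    exact (hU j i).comp hsh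
  · intro i j l
    exact (hAt j i l).comp hsh
  · intro i j l
    have h := ((hyt j i).mul (hZ j l i)).comp hsh
    rw [one_mul] at h
    simpa only [map_mul, Function.comp_def] using h
  · intro i j l
    have h := ((hwt j i).mul (hZ' j l i)).comp hsh
    rw [one_mul] at h
    simpa only [map_mul, Function.comp_def] using h

end

end WeylRot
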