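import Pool.Agent.H.WeylRot.W5
import Pool.Agent.H.MP_83e36b_nt.h48.NormMain
import Pool.Agent.H.DiscRat.VFinal

/-! Module W6: density in the product over all places. -/

open Polynomial NumberField IsDedekindDomain Filter Topology

namespace WeylRot

open AnWA DiscRat

theorem prod4_tendsto {A B C E : Type*} [TopologicalSpace A] [TopologicalSpace B]
    [TopologicalSpace C] [TopologicalSpace E] (u : ℕ → A × B × C × E) (v : A × B × C × E)
    (h0 : Tendsto (fun N => (u N).1) atTop (𝓝 v.1))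
    (h1 : Tendsto (fun N => (u N).2.1) atTop (𝓝 v.2.1))
    (h2 : Tendsto (fun N => (u N).2.2.1) atTop (𝓝 v.2.2.1))
    (h3 : Tendsto (fun N => (u N).2.2.2) atTop (𝓝 v.2.2.2)) : Tendsto u atTop (𝓝 v) := by
  rw [Prod.tendsto_iff]
  refine ⟨h0, ?_⟩
  rw [Prod.tendsto_iff]
  refine ⟨h1, ?_⟩
  rw [Prod.tendsto_iff]
  exact ⟨h2, h3⟩

/-- convergence of points -/
theorem QPts.tendsto {k R : Type*} [Field k] [NormedField R] {φ : k →+* R} {m s : ℕ}
    {D : QData k m s} (p : ℕ → QPts D φ) (q : QPts D φ)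
    (h0 : ∀ i, Tendsto (fun N => (p N).1.1 i) atTop (𝓝 (q.1.1 i)))
    (h1 : ∀ j i, Tendsto (fun N => (p N).1.2.1 j i) atTop (𝓝 (q.1.2.1 j i)))
    (h2 : ∀ j i, Tendsto (fun N => (p N).1.2.2.1 j i) atTop (𝓝 (q.1.2.2.1 j i)))
    (h3 : ∀ j i, Tendsto (fun N => (p N).1.2.2.2 j i) atTop (𝓝 (q.1.2.2.2 j i))) :
    Tendsto p atTop (𝓝 q) := by
  have key : Tendsto (fun N => (p N).1) atTop (𝓝 q.1) :=
    prod4_tendsto (fun N => (p N).1) q.1 (tendsto_pi_nhds.mpr h0)
      (tendsto_pi_nhds.mpr fun j => tendsto_pi_nhds.mpr (h1 j))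
      (tendsto_pi_nhds.mpr fun j => tendsto_pi_nhds.mpr (h2 j))
      (tendsto_pi_nhds.mpr fun j => tendsto_pi_nhds.mpr (h3 j))
  exact tendsto_subtype_rng.2 key

variable {k : Type*} [Field k] [NumberField k]

theorem dense_finite {m s : ℕ} (D : QData k m s) (hn : ∀ j, 0 < D.n j)
    (T : Finset (HeightOneSpectrum (𝓞 k)))
    (hB : ∀ j, ∀ e d : k, e ≠ 0 → d ≠ 0 → BWA e d (D.n j) (complEmb T)) :
    DenseRange (fun p : QPts D (RingHom.id k) =>
      ((fun v : InfinitePlace k => mapQPt (algebraMap k v.Completion) p),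
       (fun v : T => mapQPt (algebraMap k (v.1.adicCompletion k)) p))) := by
  rintro ⟨A, B⟩
  let X : ∀ i, QPts D (complEmb T i) := fun i =>
    match i with
    | Sum.inl v => A v
    | Sum.inr v => B v
  have hne : Nonempty (InfinitePlace k ⊕ {v // v ∈ T}) := ⟨Sum.inl (Classical.arbitrary _)⟩
  obtain ⟨p, h0, h1, h2, h3⟩ := qWA (φ := complEmb T) (fieldWA_numberField T)
    (sqrtNearOne_compl T) D hn hB X
  refine mem_closure_of_tendsto (f := fun N => ((fun v : InfinitePlace k =>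
    mapQPt (algebraMap k v.Completion) (p N)),
    (fun v : T => mapQPt (algebraMap k (v.1.adicCompletion k)) (p N)))) (b := atTop) ?_
    (Filter.Eventually.of_forall fun N => ⟨p N, rfl⟩)
  rw [Prod.tendsto_iff]
  constructor
  · rw [tendsto_pi_nhds]
    intro v
    exact QPts.tendsto _ _ (fun j => h0 (Sum.inl v) j) (fun j i => h1 (Sum.inl v) j i)
      (fun j i => h2 (Sum.inl v) j i) (fun j i => h3 (Sum.inl v) j i)
  · rw [tendsto_pi_nhds]
    intro v
    exact QPts.tendsto _ _ (fun j => h0 (Sum.inr v) j) (fun j i => h1 (Sum.inr v) j i)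
      (fun j i => h2 (Sum.inr v) j i) (fun j i => h3 (Sum.inr v) j i)

/-- Weak approximation at all places. -/
theorem dense_all {m s : ℕ} (D : QData k m s) (hn : ∀ j, 0 < D.n j)
    (hB : ∀ (T : Finset (HeightOneSpectrum (𝓞 k))) (j) (e d : k), e ≠ 0 → d ≠ 0 →
      BWA e d (D.n j) (complEmb T)) :
    DenseRange (fun p : QPts D (RingHom.id k) =>
      ((fun v : InfinitePlace k => mapQPt (algebraMap k v.Completion) p),
       (fun v : HeightOneSpectrum (𝓞 k) => mapQPt (algebraMap k (v.adicCompletion k)) p))) := by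
  classical
  rintro ⟨A, B⟩
  rw [mem_closure_iff_nhds]
  intro U hU
  rw [nhds_prod_eq, Filter.mem_prod_iff] at hU
  obtain ⟨U1, hU1, U2, hU2, hsub⟩ := hU
  rw [nhds_pi, Filter.mem_pi] at hU2
  obtain ⟨S, hS, t, ht, hts⟩ := hU2
  set T : Finset (HeightOneSpectrum (𝓞 k)) := hS.toFinset with hTdef
  have hdense := dense_finite D hn T (fun j e d he hd => hB T j e d he hd)
  have h1 := hdense (A, fun v => B v.1)
  rw [mem_closure_iff_nhds] at h1
  have hnhds : U1 ×ˢ (Set.pi Set.univ (fun v : {v // v ∈ T} => t v.1)) ∈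
      nhds (A, fun v : {v // v ∈ T} => B v.1) := by
    rw [nhds_prod_eq]
    refine Filter.prod_mem_prod hU1 ?_
    exact set_pi_mem_nhds Set.finite_univ (fun v _ => ht v.1)
  obtain ⟨_, ⟨hp1, hp2⟩, p, rfl⟩ := h1 _ hnhds
  refine ⟨_, hsub ⟨hp1, hts ?_⟩, p, rfl⟩
  intro v hv
  exact hp2 ⟨v, hS.mem_toFinset.mpr hv⟩ (Set.mem_univ _)

end WeylRot
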