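import Pool.Agent.H.WeylRot.W6
import Pool.Agent.H.WeylRot.RD

/-! Module W7: weak approximation for the quadric bundles. -/

open Polynomial NumberField IsDedekindDomain Filter Topology

namespace WeylRot

open AnWA DiscRat

theorem bWA_all {k : Type*} [Field k] [CharZero k] {ι : Type*} [Finite ι] [Nonempty ι]
    {K : ι → Type*} [∀ i, NormedField (K i)] {φ : ∀ i, k →+* K i} (hWA : FieldWA φ)
    (hK : ∀ i, ∃ x : K i, 1 < ‖x‖) (hS : ∀ i, SqrtNearOne (K i)) {n : ℕ} (hn : 3 ≤ n) {e d : k}
    (he : e ≠ 0) (hd : d ≠ 0) : BWA e d n φ :=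
  bWA_of_rational hWA hK hS (by omega) he hd fun _ _ _ _ _ _ hF =>
    D_rational hn (inv_ne_zero he) hd hF

/-- Weak approximation at all places for the quadric bundles. -/
theorem main_quad {k : Type*} [Field k] [NumberField k] {m s : ℕ} (D : QData k m s)
    (hn : ∀ j, 3 ≤ D.n j) :
    DenseRange (fun p : QPts D (RingHom.id k) =>
      ((fun v : InfinitePlace k => mapQPt (algebraMap k v.Completion) p),
       (fun v : HeightOneSpectrum (𝓞 k) => mapQPt (algebraMap k (v.adicCompletion k)) p))) := by
  refine dense_all D (fun j => by have := hn j; omega) fun T j e d he hd => ?_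
  have hne : Nonempty (InfinitePlace k ⊕ {v // v ∈ T}) := ⟨Sum.inl (Classical.arbitrary _)⟩
  exact bWA_all (fieldWA_numberField T) (exists_one_lt_norm T) (sqrtNearOne_compl T) (hn j) he hd

end WeylRot
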